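import Pool.Agent.Lib.MP_e57333_lc.Neg

set_option autoImplicit false

/-! From families to the profile statements. -/

namespace Pool.Agent.Lib.MP_e57333_lc

open Filter

theorem log_le_size (n : ℕ) : Real.log n ≤ Nat.size n := by
  rcases Nat.eq_zero_or_pos n with rfl | hn
  · simp
  have h1 : (n : ℝ) ≤ 2 ^ Nat.size n := by exact_mod_cast (Nat.lt_size_self n).le
  have h2 := Real.log_le_log (by exact_mod_cast hn) h1
  rw [Real.log_pow] at h2
  have h3 := Real.log_two_lt_d9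
  have h4 : (0 : ℝ) ≤ Nat.size n := by positivity
  nlinarith

theorem size_le_log {n : ℕ} (hn : 2 ≤ n) : (Nat.size n : ℝ) + 1 ≤ 5 * Real.log n := by
  obtain ⟨k, hk⟩ : ∃ k, Nat.size n = k + 1 := ⟨Nat.size n - 1, by
    have := Nat.size_pos.2 (show 0 < n by omega); omega⟩
  have h1 : (2 : ℝ) ^ k ≤ n := by exact_mod_cast Nat.lt_size.1 (by omega)
  have h2 := Real.log_le_log (by positivity) h1
  have h5 := Real.log_le_log (by norm_num) (show (2 : ℝ) ≤ n by exact_mod_cast hn)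
  rw [Real.log_pow] at h2
  have h3 := Real.log_two_gt_d9
  have h4 : (0 : ℝ) ≤ k := by positivity
  rw [hk]
  push_cast
  nlinarith

/-- one-sided closeness with an integer bound -/
def CZ {d : ℕ} (D : ℕ) (S T : Set (Fin d → ℤ)) : Prop := ∀ a ∈ S, ∃ b ∈ T, ∀ i, |a i - b i| ≤ D

theorem cz_of_close {d D : ℕ} {δ : ℝ} {S T : Set (Fin d → ℤ)} (h : Close δ S T) (hD : δ ≤ D) :
    CZ D S T ∧ CZ D T S := by
  refine ⟨fun a ha => ?_, fun a ha => ?_⟩
  · obtain ⟨b, hb, h⟩ := h.1 a ha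
    exact ⟨b, hb, fun i => by exact_mod_cast (h i).trans hD⟩
  · obtain ⟨b, hb, h⟩ := h.2 a ha
    exact ⟨b, hb, fun i => by rw [abs_sub_comm]; exact_mod_cast (h i).trans hD⟩

theorem close_of_cz {d D : ℕ} {δ : ℝ} {S T : Set (Fin d → ℤ)} (h : CZ D S T) (h' : CZ D T S)
    (hD : D ≤ δ) : Close δ S T := by
  refine ⟨fun a ha => ?_, fun a ha => ?_⟩
  · obtain ⟨b, hb, h⟩ := h a ha
    exact ⟨b, hb, fun i => le_trans (by exact_mod_cast h i) hD⟩
  · obtain ⟨b, hb, h⟩ := h' a ha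
    exact ⟨b, hb, fun i => le_trans (by rw [abs_sub_comm]; exact_mod_cast h i) hD⟩

theorem det_iff {d d' : ℕ} {P : ℕ → Str → Str → Set (Fin d → ℤ)}
    {P' : ℕ → Str → Str → Set (Fin d' → ℤ)} : Det P P' ↔ ∀ c : ℕ, ∃ c' : ℕ, ∀ n : ℕ, 2 ≤ n →
      ∀ x y x' y' : Str, x.length ≤ n → y.length ≤ n → x'.length ≤ n → y'.length ≤ n →
      CZ (c * (n.size + 1)) (P n x y) (P n x' y') → CZ (c * (n.size + 1)) (P n x' y') (P n x y) →
      CZ (c' * (n.size + 1)) (P' n x y) (P' n x' y') := by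
  have k1 : ∀ c : ℝ, 0 < c → ∀ n : ℕ, c * Real.log n ≤ (⌈c⌉₊ * (n.size + 1) : ℕ) := by
    intro c hc n
    have := log_le_size n
    have := Nat.le_ceil c
    have : (0 : ℝ) ≤ n.size := by positivity
    push_cast
    nlinarith
  have k2 : ∀ c n : ℕ, 2 ≤ n → ((c * (n.size + 1) : ℕ) : ℝ) ≤ (5 * c + 1) * Real.log n := by
    intro c n hn
    have := size_le_log hn
    have : (0 : ℝ) ≤ n.size := by positivity
    have : (0 : ℝ) ≤ c := by positivity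
    push_cast
    nlinarith
  constructor
  · intro h c
    obtain ⟨c', hc', h⟩ := h (5 * c + 1) (by positivity)
    exact ⟨⌈c'⌉₊, fun n hn x y x' y' h1 h2 h3 h4 h5 h6 =>
      (cz_of_close (h n hn x y x' y' h1 h2 h3 h4 (close_of_cz h5 h6 (k2 c n hn))) (k1 c' hc' n)).1⟩
  · intro h c hc
    obtain ⟨c', h⟩ := h ⌈c⌉₊
    refine ⟨5 * c' + 1, by positivity, fun n hn x y x' y' h1 h2 h3 h4 h5 => ?_⟩
    obtain ⟨h6, h7⟩ := cz_of_close h5 (k1 c hc n)
    exact close_of_cz (h n hn x y x' y' h1 h2 h3 h4 h6 h7) (h n hn x' y' x y h3 h4 h1 h2 h7 h6)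
      (k2 c' n hn)

variable {Ω : Type} {ℓ : Ω → ℕ} {U : Str → Str →. Str} {e : Str × Str → Str}
variable {α β : Type} [Primcodable α] [Primcodable β]

theorem ck (hU : Optimal U) {c1 : α → Str} {c2 : β → Str} (h1 : Computable c1)
    (i1 : Function.Injective c1) (h2 : Computable c2) (i2 : Function.Injective c2) {a : Ω → α}
    {b : Ω → β} : Le ℓ (fun ω => C U (c1 (a ω)) (c2 (b ω))) (fun ω => K U (a ω) (b ω)) ∧
      Le ℓ (fun ω => K U (a ω) (b ω)) fun ω => C U (c1 (a ω)) (c2 (b ω)) := by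
  obtain ⟨c, hc⟩ := Cg_K hU h1 i1 h2 i2
  constructor <;> filter_upwards [ev_ge c] with w h <;> have := hc (a w.1) (b w.1) <;> omega

theorem nil_inj : Function.Injective fun _ : Unit => ([] : Str) := fun _ _ _ => rfl

theorem ck1 (hU : Optimal U) (a b : Ω → Str) :
    Le ℓ (fun ω => C U (a ω) (b ω)) (fun ω => K U (a ω) (b ω)) ∧
      Le ℓ (fun ω => K U (a ω) (b ω)) fun ω => C U (a ω) (b ω) :=
  ck hU Computable.id Function.injective_id Computable.id Function.injective_id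

theorem ck0 (hU : Optimal U) (a : Ω → Str) : Le ℓ (fun ω => C U (a ω) []) (fun ω => K U (a ω) ()) ∧
    Le ℓ (fun ω => K U (a ω) ()) fun ω => C U (a ω) [] :=
  ck hU Computable.id Function.injective_id (Computable.const _) nil_inj (b := fun _ => ())

theorem ck2 (hU : Optimal U) (he : Computable e) (hi : Function.Injective e) (a b c : Ω → Str) :
    Le ℓ (fun ω => C U (e (a ω, b ω)) (c ω)) (fun ω => K U (a ω, b ω) (c ω)) ∧
      Le ℓ (fun ω => K U (a ω, b ω) (c ω)) fun ω => C U (e (a ω, b ω)) (c ω) :=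
  ck hU he hi Computable.id Function.injective_id

theorem ck20 (hU : Optimal U) (he : Computable e) (hi : Function.Injective e) (a b : Ω → Str) :
    Le ℓ (fun ω => C U (e (a ω, b ω)) []) (fun ω => K U (a ω, b ω) ()) ∧
      Le ℓ (fun ω => K U (a ω, b ω) ()) fun ω => C U (e (a ω, b ω)) [] :=
  ck hU he hi (Computable.const _) nil_inj (b := fun _ => ())

theorem ck30 (hU : Optimal U) (he : Computable e) (hi : Function.Injective e) (a b c : Ω → Str) :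
    Le ℓ (fun ω => C U (e (a ω, e (b ω, c ω))) []) (fun ω => K U (a ω, b ω, c ω) ()) ∧
      Le ℓ (fun ω => K U (a ω, b ω, c ω) ()) fun ω => C U (e (a ω, e (b ω, c ω))) [] :=
  ck hU (c1 := fun z : Str × Str × Str => e (z.1, e z.2)) (by fun_prop)
    (fun z z' h => by
      have := hi h
      simp only [Prod.mk.injEq] at this
      exact Prod.ext this.1 (hi this.2)) (Computable.const _) nil_inj
    (a := fun ω => (a ω, b ω, c ω)) (b := fun _ => ())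

theorem le_abs {f g : Ω → ℕ} {c : ℕ} (h : ∀ ω, |(f ω : ℤ) - g ω| ≤ (c * (ℓ ω + 1) : ℕ)) :
    Le ℓ f g ∧ Le ℓ g f :=
  ⟨le_iff.2 ⟨c, fun ω => by have := abs_le.1 (h ω); omega⟩,
    le_iff.2 ⟨c, fun ω => by have := abs_le.1 (h ω); omega⟩⟩

theorem gw_near {x y x' y' r : Str} {D : ℕ} (h : CZ D (GW U x y) (GW U x' y')) :
    ∃ r', C U r' [] ≤ C U r [] + D ∧ C U x' r' ≤ C U x r + D ∧ C U y' r' ≤ C U y r + D := by
  obtain ⟨b, ⟨r', h1, h2, h3⟩, h⟩ := h ![C U x r, C U y r, C U r []] ⟨r, by simp⟩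
  have h4 := abs_le.1 (h 0)
  have h5 := abs_le.1 (h 1)
  have h6 := abs_le.1 (h 2)
  simp at h4 h5 h6
  exact ⟨r', by omega, by omega, by omega⟩

theorem gwle_of_cz (hU : Optimal U) {x y x' y' : Ω → Str} {c : ℕ}
    (h : ∀ ω, CZ (c * (ℓ ω + 1)) (GW U (x ω) (y ω)) (GW U (x' ω) (y' ω))) :
    GWle ℓ U x y x' y' := by
  intro r
  choose r' h1 h2 h3 using fun ω => gw_near (r := r ω) (h ω)
  exact ⟨r', le_tr (ck0 hU _).2 (le_tr (le_iff.2 ⟨c, h1⟩) (ck0 hU _).1),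
    le_tr (ck1 hU _ _).2 (le_tr (le_iff.2 ⟨c, h2⟩) (ck1 hU _ _).1),
    le_tr (ck1 hU _ _).2 (le_tr (le_iff.2 ⟨c, h3⟩) (ck1 hU _ _).1)⟩

theorem sm_size {n : Ω → ℕ} : Sm (fun ω => (n ω).size) n := by
  filter_upwards [ev_l] with w h
  exact (Nat.lt_size_self _).trans_le (Nat.pow_le_pow_right (by norm_num) h.le)

/-- the family of all instances with close Gray-Wyner profiles -/
structure Inst (U : Str → Str →. Str) (c : ℕ) where
  n : ℕ
  x : Str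
  y : Str
  x' : Str
  y' : Str
  q : Str
  hx : x.length ≤ n
  hy : y.length ≤ n
  h : CZ (c * (n.size + 1)) (GW U x y) (GW U x' y')
  h' : CZ (c * (n.size + 1)) (GW U x' y') (GW U x y)

theorem det_GW_W (hU : Optimal U) (he : Computable e) (hi : Function.Injective e) :
    Det (fun _ => GW U) fun _ => W U e := by
  refine det_iff.2 fun c => ?_
  obtain ⟨q', h1, h2⟩ := wy_match (Ω := Inst U c) (ℓ := fun ω => ω.n.size) hU
    (gwle_of_cz hU fun ω => ω.h) (gwle_of_cz hU fun ω => ω.h') (sk_str hU sm_size fun ω => ω.hx)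
    (sk_str hU sm_size fun ω => ω.hy) fun ω => ω.q
  obtain ⟨c1, h1⟩ := le_iff.1 (le_tr (ck0 hU _).1 (le_tr h1 (ck0 hU _).2))
  have h3 : Le (fun ω : Inst U c => ω.n.size)
      (fun ω => C U ω.x' (q' ω) + C U ω.y' (q' ω) + C U (e (ω.x, ω.y)) ω.q)
      fun ω => C U ω.x ω.q + C U ω.y ω.q + C U (e (ω.x', ω.y')) (q' ω) := by
    refine le_of_mul 7 ?_
    filter_upwards [h2, (ck1 hU (fun ω : Inst U c => ω.x') q').1, (ck1 hU (fun ω => ω.y') q').1,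
      (ck2 hU he hi (fun ω => ω.x) (fun ω => ω.y) fun ω => ω.q).1,
      (ck1 hU (fun ω => ω.x) fun ω => ω.q).2, (ck1 hU (fun ω => ω.y) fun ω => ω.q).2,
      (ck2 hU he hi (fun ω => ω.x') (fun ω => ω.y') q').2] with w e1 e2 e3 e4 e5 e6 e7
    omega
  obtain ⟨c2, h3⟩ := le_iff.1 h3
  refine ⟨c1 + c2, fun n _ x y x' y' hx hy _ _ h h' a ⟨q, ha1, ha2⟩ => ?_⟩
  have h4 := h1 ⟨n, x, y, x', y', q, hx, hy, h, h'⟩
  have h5 := h3 ⟨n, x, y, x', y', q, hx, hy, h, h'⟩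
  simp only at h4 h5
  rw [add_mul]
  generalize c1 * (n.size + 1) = D1 at *
  generalize c2 * (n.size + 1) = D2 at *
  refine ⟨fun i => a i + (D1 + D2 : ℕ), ⟨q' ⟨n, x, y, x', y', q, hx, hy, h, h'⟩, ?_, ?_⟩,
    fun i => by simp [abs_le]; omega⟩ <;> beta_reduce <;> omega

theorem det_GW_E (hU : Optimal U) (he : Computable e) (hi : Function.Injective e) (d : ℕ) :
    Det (fun _ => GW U) fun n => E U e (n ^ d : ℕ) := by
  refine det_iff.2 fun c => ?_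
  let Ω := {ω : Inst U c // ω.q.length ≤ ω.n ^ d}
  have g : GWle (fun ω : Ω => ω.1.n.size) U _ _ _ _ := gwle_of_cz hU fun ω => ω.1.h
  have g' : GWle (fun ω : Ω => ω.1.n.size) U _ _ _ _ := gwle_of_cz hU fun ω => ω.1.h'
  obtain ⟨q', h0, ⟨a1, a2⟩, ⟨a3, a4⟩, ⟨a5, a6⟩, a7, a8⟩ := ext_match hU g g'
    (sk_str hU sm_size fun ω => ω.1.hx) (sk_str hU sm_size fun ω => ω.1.hy) (sm_pow sm_size d)
    fun ω => ω.2
  obtain ⟨b1, b3, b5⟩ := g.basic hU
  obtain ⟨b2, b4, b6⟩ := g'.basic hU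
  have : ∀ᶠ w in Ev fun ω : Ω => ω.1.n.size, ∀ i, |![(C U w.1.1.x [] : ℤ), C U w.1.1.y [],
      C U w.1.1.q [], C U (e (w.1.1.x, w.1.1.y)) [], C U (e (w.1.1.x, w.1.1.q)) [],
      C U (e (w.1.1.y, w.1.1.q)) [], C U (e (w.1.1.x, e (w.1.1.y, w.1.1.q))) []] i -
      ![(C U w.1.1.x' [] : ℤ), C U w.1.1.y' [], C U (q' w.1) [], C U (e (w.1.1.x', w.1.1.y')) [],
      C U (e (w.1.1.x', q' w.1)) [], C U (e (w.1.1.y', q' w.1)) [],
      C U (e (w.1.1.x', e (w.1.1.y', q' w.1))) []] i| ≤ w.2 := by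
    filter_upwards [le_tr (ck0 hU _).1 (le_tr a1 (ck0 hU _).2),
      le_tr (ck0 hU _).1 (le_tr a2 (ck0 hU _).2), le_tr (ck0 hU _).1 (le_tr b1 (ck0 hU _).2),
      le_tr (ck0 hU _).1 (le_tr b2 (ck0 hU _).2), le_tr (ck0 hU _).1 (le_tr b3 (ck0 hU _).2),
      le_tr (ck0 hU _).1 (le_tr b4 (ck0 hU _).2),
      le_tr (ck20 hU he hi _ _).1 (le_tr a3 (ck20 hU he hi _ _).2),
      le_tr (ck20 hU he hi _ _).1 (le_tr a4 (ck20 hU he hi _ _).2),
      le_tr (ck20 hU he hi _ _).1 (le_tr a5 (ck20 hU he hi _ _).2),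
      le_tr (ck20 hU he hi _ _).1 (le_tr a6 (ck20 hU he hi _ _).2),
      le_tr (ck20 hU he hi _ _).1 (le_tr b5 (ck20 hU he hi _ _).2),
      le_tr (ck20 hU he hi _ _).1 (le_tr b6 (ck20 hU he hi _ _).2),
      le_tr (ck30 hU he hi _ _ _).1 (le_tr a7 (ck30 hU he hi _ _ _).2),
      le_tr (ck30 hU he hi _ _ _).1 (le_tr a8 (ck30 hU he hi _ _ _).2)]
      with w e1 e2 e3 e4 e5 e6 e7 e8 e9 f1 f2 f3 f4 f5 i
    fin_cases i <;> simp [abs_le] <;> omega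
  obtain ⟨c', hc'⟩ := ev_iff.1 this
  refine ⟨c', fun n _ x y x' y' hx hy _ _ h h' a ⟨q, hq, ha⟩ => ?_⟩
  let ω : Ω := ⟨⟨n, x, y, x', y', q, hx, hy, h, h'⟩, by exact_mod_cast hq⟩
  exact ⟨_, ⟨q' ω, by exact_mod_cast h0 ω, rfl⟩, ha ▸ hc' ω _ le_rfl⟩

theorem le_comp {Ω' : Type} (φ : Ω' → Ω) {f g : Ω → ℕ} (h : Le ℓ f g) :
    Le (fun ω => ℓ (φ ω)) (fun ω => f (φ ω)) fun ω => g (φ ω) :=
  let ⟨c, hc⟩ := le_iff.1 h
  le_iff.2 ⟨c, fun _ => hc _⟩

theorem not_le_size : ¬ Le (fun N : ℕ => (5 * N + 2).size) (fun N => N) fun _ => 0 := by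
  intro h
  obtain ⟨c, hc⟩ := le_iff.1 h
  obtain ⟨m, hm⟩ : ∃ m, m = 2 * c + 2 := ⟨_, rfl⟩
  have h1 := hc (2 ^ (2 * m))
  have h2 : (5 * 2 ^ (2 * m) + 2).size ≤ 2 * m + 3 := Nat.size_le.2 (by
    have : 0 < 2 ^ (2 * m) := by positivity
    rw [pow_add]
    omega)
  have h3 : m < 2 ^ m := Nat.lt_two_pow_self
  have h4 : c * ((5 * 2 ^ (2 * m) + 2).size + 1) ≤ c * (2 * m + 4) :=
    Nat.mul_le_mul_left _ (by omega)
  have h5 : m * m < 2 ^ (2 * m) := by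
    rw [two_mul, pow_add]
    exact Nat.mul_lt_mul'' h3 h3
  simp only [zero_add] at h1
  nlinarith

theorem sm_N : Sm (fun N : ℕ => (5 * N + 2).size) fun N => N :=
  sm_mono (fun N => by omega) (sm_size (n := fun N => 5 * N + 2))

theorem cz_gw_nil (hU : Optimal U) {x x' : Ω → Str} (hx : Sk ℓ U x)
    (h : Le ℓ (fun ω => K U (x' ω) ()) fun ω => K U (x ω) ()) :
    ∃ c, ∀ ω D, c * (ℓ ω + 1) ≤ D → CZ D (GW U (x ω) []) (GW U (x' ω) []) := by
  obtain ⟨c0, h0⟩ := ev_iff.1 hx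
  obtain ⟨r', h1, h2, h3⟩ := gw_nil (ℓ := fun z : Ω × Str => ℓ z.1) hU (x := fun z => x z.1)
    (ev_iff.2 ⟨c0, fun z => h0 z.1⟩) (le_comp Prod.fst h) fun z => z.2
  obtain ⟨c, hc⟩ := ev_iff.1 ((le_tr (ck0 hU _).1 (le_tr h1 (ck0 hU _).2)).and
    ((le_tr (ck1 hU _ _).1 (le_tr h2 (ck1 hU _ _).2)).and
      (le_tr (ck1 hU _ _).1 (le_tr h3 (ck1 hU _ _).2))))
  refine ⟨c, fun ω D hD a ⟨q, a1, a2, a3⟩ => ?_⟩
  obtain ⟨h4, h5, h6⟩ := hc (ω, q) D hD
  simp only at h4 h5 h6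
  refine ⟨fun i => a i + D, ⟨r' (ω, q), ?_, ?_, ?_⟩, fun i => by simp⟩ <;> beta_reduce <;> omega

theorem e_near {x y x' y' q : Str} {D : ℕ} {L : ℕ∞} (hq : q.length ≤ L)
    (h : CZ D (E U e L x y) (E U e L x' y')) : ∃ q', |(C U q [] : ℤ) - C U q' []| ≤ D ∧
      |(C U (e (x, q)) [] : ℤ) - C U (e (x', q')) []| ≤ D ∧
      |(C U (e (y, q)) [] : ℤ) - C U (e (y', q')) []| ≤ D := by
  obtain ⟨b, ⟨q', -, rfl⟩, h⟩ := h _ ⟨q, hq, rfl⟩
  exact ⟨q', by simpa using h 2, by simpa using h 4, by simpa using h 5⟩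

theorem not_det_GW_E (hU : Optimal U) (he : Computable e) (hi : Function.Injective e) :
    ¬ Det (fun _ => GW U) fun _ => E U e ⊤ := by
  intro h
  obtain ⟨x, x', q, x1, x2, h1, h2, h3⟩ := huge hU (sm_size (n := fun N : ℕ => 5 * N + 2))
  obtain ⟨c1, g1⟩ := cz_gw_nil hU (sk_str hU sm_size x1) h1
  obtain ⟨c2, g2⟩ := cz_gw_nil hU (sk_str hU sm_size x2) h2
  obtain ⟨c, hc⟩ := det_iff.1 h (c1 + c2)
  choose q' a1 a2 _ using fun N => e_near (q := q N) le_top (hc (5 * N + 2) (by omega) (x N) []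
    (x' N) [] (x1 N) (by simp) (x2 N) (by simp) (g1 N _ (by rw [add_mul]; omega))
    (g2 N _ (by rw [add_mul]; omega)))
  exact not_le_size (le_tr (le_of_le fun N => by omega)
    (h3 q' (le_tr (ck0 hU _).2 (le_tr (le_abs a1).2 (ck0 hU _).1))
      (le_tr (ck0 hU _).2 (le_tr (le_abs a1).1 (ck0 hU _).1))
      (le_tr (ck20 hU he hi _ _).2 (le_tr (le_abs a2).1 (ck20 hU he hi _ _).1))))

theorem cz_wp (hU : Optimal U) (he : Computable e) (hi : Function.Injective e) {x y : Ω → Str}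
    (h : Le ℓ (fun ω => K U (x ω) ()) fun ω => K U (y ω) ())
    (h' : Le ℓ (fun ω => K U (y ω) ()) fun ω => K U (x ω) ()) :
    ∃ c, ∀ ω D, c * (ℓ ω + 1) ≤ D → CZ D (WP U e (x ω) (y ω)) (WP U e (y ω) (x ω)) := by
  obtain ⟨c1, h1⟩ := ev_iff.1 ((le_tr (ck0 hU _).1 (le_tr h (ck0 hU _).2)).and
    ((le_tr (ck0 hU _).1 (le_tr h' (ck0 hU _).2)).and
    ((le_tr (ck20 hU he hi x y).1 (le_tr (k_si hU (si_swap hU)) (ck20 hU he hi y x).2)).and
    (le_tr (ck20 hU he hi y x).1 (le_tr (k_si hU (si_swap hU)) (ck20 hU he hi x y).2)))))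
  obtain ⟨c2, h2⟩ := ev_iff.1 (le_tr (ck2 (ℓ := fun z : Ω × Str => ℓ z.1) hU he hi
    (fun z => x z.1) (fun z => y z.1) fun z => z.2).1 (le_tr (k_si hU (si_swap hU))
    (ck2 hU he hi (fun z : Ω × Str => y z.1) (fun z => x z.1) fun z => z.2).2))
  refine ⟨c1 + c2, fun ω D hD a ⟨⟨q, a1, a2⟩, a3, a4, a5⟩ => ?_⟩
  rw [add_mul] at hD
  obtain ⟨b1, b2, b3, b4⟩ := h1 ω D (by omega)
  have b5 := h2 (ω, q) D (by simp only; omega)
  simp only [Matrix.cons_val_zero, Matrix.cons_val_one] at a1 a2 b1 b2 b3 b4 b5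
  refine ⟨![a 0, a 1 + D, C U (y ω) [], C U (x ω) [], C U (e (y ω, x ω)) []],
    ⟨⟨q, by simpa using a1, by simp; omega⟩, by simp, by simp, by simp⟩, fun i => ?_⟩
  fin_cases i <;> simp [abs_le] <;> omega

theorem not_det_WP (hU : Optimal U) (he : Computable e) (hi : Function.Injective e) :
    (¬ Det (fun _ => WP U e) fun _ => GW U) ∧ ∀ L : ℕ → ℕ∞, (∀ n : ℕ, (n : ℕ∞) ≤ L n) →
      ¬ Det (fun _ => WP U e) fun n => E U e (L n) := by
  obtain ⟨x, y, q, x1, y1, q1, h1, h2, h3⟩ := k22 hU sm_N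
  obtain ⟨c1, g1⟩ := cz_wp hU he hi h1 h2
  obtain ⟨c2, g2⟩ := cz_wp hU he hi h2 h1
  have x2 : ∀ N, (x N).length ≤ 5 * N + 2 := fun N => (x1 N).trans (by omega)
  have y2 : ∀ N, (y N).length ≤ 5 * N + 2 := fun N => (y1 N).trans (by omega)
  have q2 : ∀ N, (q N).length ≤ 5 * N + 2 := fun N => (q1 N).trans (by omega)
  refine ⟨fun h => ?_, fun L hL h => ?_⟩
  · obtain ⟨c, hc⟩ := det_iff.1 h (c1 + c2)
    obtain ⟨q', a1, a2, a3⟩ := gwle_of_cz hU (fun N => hc (5 * N + 2) (by omega) (x N) (y N) (y N)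
      (x N) (x2 N) (y2 N) (y2 N) (x2 N) (g1 N _ (by rw [add_mul]; omega))
      (g2 N _ (by rw [add_mul]; omega))) q
    exact not_le_size (h3 q' a1 a2 a3)
  · obtain ⟨c, hc⟩ := det_iff.1 h (c1 + c2)
    choose q' a1 a2 a3 using fun N => e_near (q := q N)
      (le_trans (by exact_mod_cast q2 N) (hL (5 * N + 2))) (hc (5 * N + 2) (by omega) (x N) (y N)
      (y N) (x N) (x2 N) (y2 N) (y2 N) (x2 N) (g1 N _ (by rw [add_mul]; omega))
      (g2 N _ (by rw [add_mul]; omega)))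
    have b1 := le_tr (ck0 hU _).2 (le_tr (le_abs a1).2 (ck0 hU _).1)
    have b2 := le_tr (ck0 hU _).2 (le_tr (le_abs a1).1 (ck0 hU _).1)
    have b3 := le_tr (ck20 hU he hi _ _).2 (le_tr (le_abs a2).2 (ck20 hU he hi _ _).1)
    have b4 := le_tr (ck20 hU he hi _ _).2 (le_tr (le_abs a3).2 (ck20 hU he hi _ _).1)
    have sq := sk_str hU sm_size q2
    have sq' := sm_of_le b1 sq
    refine not_le_size (h3 q' b1 (le_of_mul 10 ?_) (le_of_mul 10 ?_))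
    · filter_upwards [b2, b3, k_symm0 hU sq' (sk_str hU sm_size y2), k_pair0 hU (b := x) sq,
        k_si hU (c := fun _ => ()) (si_swap hU (a := q') (b := y)),
        k_si hU (c := fun _ => ()) (si_swap hU (a := x) (b := q))] with w e1 e2 e3 e4 e5 e6
      omega
    · filter_upwards [b2, b4, k_symm0 hU sq' (sk_str hU sm_size x2), k_pair0 hU (b := y) sq,
        k_si hU (c := fun _ => ()) (si_swap hU (a := q') (b := x)),
        k_si hU (c := fun _ => ()) (si_swap hU (a := y) (b := q))] with w e1 e2 e3 e4 e5 e6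
      omega

theorem det_WP {d : ℕ} {P : ℕ → Str → Str → Set (Fin d → ℤ)} (h : Det (fun _ => W U e) P) :
    Det (fun _ => WP U e) P := by
  have key : ∀ {D x y x' y'}, CZ D (WP U e x y) (WP U e x' y') → CZ D (W U e x y) (W U e x' y') := by
    intro D x y x' y' h a ha
    obtain ⟨b, hb, h⟩ := h ![a 0, a 1, C U x [], C U y [], C U (e (x, y)) []]
      ⟨by obtain ⟨q, h1, h2⟩ := ha; exact ⟨q, h1, h2⟩, rfl, rfl, rfl⟩
    refine ⟨_, hb.1, fun i => ?_⟩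
    fin_cases i
    · exact h 0
    · exact h 1
  refine det_iff.2 fun c => ?_
  obtain ⟨c', hc⟩ := det_iff.1 h c
  exact ⟨c', fun n hn x y x' y' h1 h2 h3 h4 h5 h6 => hc n hn x y x' y' h1 h2 h3 h4 (key h5) (key h6)⟩

end Pool.Agent.Lib.MP_e57333_lc
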