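import Mathlib

set_option autoImplicit false

namespace Pool.Agent.Lib.MP_e57333_lc

/-- conditional plain complexity `C_U(x | y)`: least length of a program `p` with `U(p, y) = x` -/
noncomputable def C (U : List Bool → List Bool →. List Bool) (x y : List Bool) : ℕ :=
  sInf {n | ∃ p : List Bool, p.length = n ∧ x ∈ U p y}

/-- `U` is an optimal machine -/
def Optimal (U : List Bool → List Bool →. List Bool) : Prop :=
  Partrec₂ U ∧ ∀ D : List Bool → List Bool →. List Bool, Partrec₂ D →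
    ∃ c : ℕ, ∀ p y x, x ∈ D p y → ∃ p', x ∈ U p' y ∧ p'.length ≤ p.length + c

/-- Gray-Wyner profile -/
def GW (U : List Bool → List Bool →. List Bool) (x y : List Bool) : Set (Fin 3 → ℤ) :=
  {v | ∃ q, (C U x q : ℤ) ≤ v 0 ∧ (C U y q : ℤ) ≤ v 1 ∧ (C U q [] : ℤ) ≤ v 2}

/-- Wyner profile -/
def W (U : List Bool → List Bool →. List Bool) (e : List Bool × List Bool → List Bool)
    (x y : List Bool) : Set (Fin 2 → ℤ) :=
  {v | ∃ q, (C U q [] : ℤ) ≤ v 0 ∧ (C U x q : ℤ) + C U y q - C U (e (x, y)) q ≤ v 1}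

/-- Wyner profile together with the complexity profile of the pair -/
def WP (U : List Bool → List Bool →. List Bool) (e : List Bool × List Bool → List Bool)
    (x y : List Bool) : Set (Fin 5 → ℤ) :=
  {v | ![v 0, v 1] ∈ W U e x y ∧ v 2 = C U x [] ∧ v 3 = C U y [] ∧ v 4 = C U (e (x, y)) []}

/-- extended profile over all `q` of length at most `L` -/
def E (U : List Bool → List Bool →. List Bool) (e : List Bool × List Bool → List Bool)
    (L : ℕ∞) (x y : List Bool) : Set (Fin 7 → ℤ) :=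
  {v | ∃ q : List Bool, (q.length : ℕ∞) ≤ L ∧
    v = ![(C U x [] : ℤ), C U y [], C U q [], C U (e (x, y)) [], C U (e (x, q)) [],
      C U (e (y, q)) [], C U (e (x, e (y, q))) []]}

/-- each point of either set is within sup-distance `δ` of a point of the other -/
def Close {d : ℕ} (δ : ℝ) (S T : Set (Fin d → ℤ)) : Prop :=
  (∀ a ∈ S, ∃ b ∈ T, ∀ i, |(a i : ℝ) - b i| ≤ δ) ∧ (∀ b ∈ T, ∃ a ∈ S, ∀ i, |(a i : ℝ) - b i| ≤ δ)

/-- the profile `P` determines the profile `P'` (profiles may depend on the length bound `n`) -/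
def Det {d d' : ℕ} (P : ℕ → List Bool → List Bool → Set (Fin d → ℤ))
    (P' : ℕ → List Bool → List Bool → Set (Fin d' → ℤ)) : Prop :=
  ∀ c : ℝ, 0 < c → ∃ c' : ℝ, 0 < c' ∧ ∀ n : ℕ, 2 ≤ n → ∀ x y x' y' : List Bool,
    x.length ≤ n → y.length ≤ n → x'.length ≤ n → y'.length ≤ n →
    Close (c * Real.log n) (P n x y) (P n x' y') → Close (c' * Real.log n) (P' n x y) (P' n x' y')

end Pool.Agent.Lib.MP_e57333_lc
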