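import Pool.Agent.Lib.MP_e57333_lc.Kolm

set_option autoImplicit false

/-! Inequalities with logarithmic precision, for families of objects. -/

namespace Pool.Agent.Lib.MP_e57333_lc

open Encodable Denumerable Pool.Agent.Lib.MP_a0087d_lc Filter

variable {Ω : Type}

/-- the filter of pairs `(ω, E)` with `E` a large multiple of `ℓ ω + 1` -/
def Ev (ℓ : Ω → ℕ) : Filter (Ω × ℕ) where
  sets := {S | ∃ c : ℕ, ∀ ω E, c * (ℓ ω + 1) ≤ E → (ω, E) ∈ S}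
  univ_sets := ⟨0, fun _ _ _ => trivial⟩
  sets_of_superset := fun ⟨c, hc⟩ h => ⟨c, fun ω E hE => h (hc ω E hE)⟩
  inter_sets := fun ⟨c, hc⟩ ⟨d, hd⟩ => ⟨c + d, fun ω E hE =>
    ⟨hc ω E (by rw [add_mul] at hE; omega), hd ω E (by rw [add_mul] at hE; omega)⟩⟩

abbrev Le (ℓ : Ω → ℕ) (f g : Ω → ℕ) : Prop := ∀ᶠ z in Ev ℓ, f z.1 ≤ g z.1 + z.2
abbrev Sm (ℓ : Ω → ℕ) (m : Ω → ℕ) : Prop := ∀ᶠ z in Ev ℓ, m z.1 < 2 ^ z.2

variable {ℓ : Ω → ℕ}

theorem ev_iff {P : Ω × ℕ → Prop} :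
    (∀ᶠ z in Ev ℓ, P z) ↔ ∃ c : ℕ, ∀ ω E, c * (ℓ ω + 1) ≤ E → P (ω, E) := Iff.rfl

theorem ev_ge (c : ℕ) : ∀ᶠ z in Ev ℓ, c ≤ z.2 :=
  ev_iff.2 ⟨c, fun ω E h => by rw [mul_add] at h; simp only; omega⟩

theorem ev_l : ∀ᶠ z in Ev ℓ, ℓ z.1 < z.2 :=
  ev_iff.2 ⟨1, fun ω E h => by simp only; omega⟩

theorem ev_scale (M : ℕ) {P : Ω → ℕ → Prop} (mono : ∀ ω E E', E ≤ E' → P ω E → P ω E')
    (h : ∀ᶠ z in Ev ℓ, P z.1 (M * z.2)) : ∀ᶠ z in Ev ℓ, P z.1 z.2 := by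
  obtain ⟨c, hc⟩ := ev_iff.1 h
  exact ev_iff.2 ⟨M * c, fun ω E hE => mono ω _ _ (by rwa [mul_assoc] at hE) (hc ω _ le_rfl)⟩

theorem le_of_mul (M : ℕ) {f g : Ω → ℕ} (h : ∀ᶠ z in Ev ℓ, f z.1 ≤ g z.1 + M * z.2) : Le ℓ f g :=
  ev_scale M (P := fun ω E => f ω ≤ g ω + E) (fun _ _ _ h1 h2 => by omega) h

theorem sm_of_mul (M : ℕ) {m : Ω → ℕ} (h : ∀ᶠ z in Ev ℓ, m z.1 < 2 ^ (M * z.2)) : Sm ℓ m :=
  ev_scale M (P := fun ω E => m ω < 2 ^ E)
    (fun _ _ _ h1 h2 => h2.trans_le (Nat.pow_le_pow_right (by norm_num) h1)) h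

theorem le_iff {f g : Ω → ℕ} : Le ℓ f g ↔ ∃ c : ℕ, ∀ ω, f ω ≤ g ω + c * (ℓ ω + 1) :=
  ⟨fun h => let ⟨c, hc⟩ := ev_iff.1 h; ⟨c, fun ω => hc ω _ le_rfl⟩,
    fun ⟨c, hc⟩ => ev_iff.2 ⟨c, fun ω E h => (hc ω).trans (by simp only; omega)⟩⟩

theorem le_of_le {f g : Ω → ℕ} (h : ∀ ω, f ω ≤ g ω) : Le ℓ f g :=
  Eventually.of_forall fun z => (h z.1).trans (Nat.le_add_right _ _)

theorem le_tr {f g h : Ω → ℕ} (h1 : Le ℓ f g) (h2 : Le ℓ g h) : Le ℓ f h := by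
  refine le_of_mul 2 ?_
  filter_upwards [h1, h2] with z h1 h2
  omega

theorem sm_const (c : ℕ) : Sm ℓ fun _ => c := by
  filter_upwards [ev_ge c] with z h
  exact Nat.lt_two_pow_self.trans_le (Nat.pow_le_pow_right (by norm_num) h)

theorem sm_mul {f g : Ω → ℕ} (hf : Sm ℓ f) (hg : Sm ℓ g) : Sm ℓ fun ω => f ω * g ω := by
  refine sm_of_mul 2 ?_
  filter_upwards [hf, hg] with z h1 h2
  rw [two_mul, pow_add]
  exact Nat.mul_lt_mul'' h1 h2

theorem sm_of_le {f g : Ω → ℕ} (h : Le ℓ f g) (hg : Sm ℓ g) : Sm ℓ f := by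
  refine sm_of_mul 2 ?_
  filter_upwards [h, hg, ev_ge 1] with z h1 h2 h3
  have h4 : z.2 < 2 ^ z.2 := Nat.lt_two_pow_self
  have h5 : 2 ^ (z.2 + 1) ≤ 2 ^ (2 * z.2) := Nat.pow_le_pow_right (by norm_num) (by omega)
  rw [pow_succ] at h5
  omega

theorem sm_mono {f g : Ω → ℕ} (h : ∀ ω, f ω ≤ g ω) (hg : Sm ℓ g) : Sm ℓ f :=
  sm_of_le (le_of_le h) hg

theorem sm_add {f g : Ω → ℕ} (hf : Sm ℓ f) (hg : Sm ℓ g) : Sm ℓ fun ω => f ω + g ω := by
  refine sm_of_mul 2 ?_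
  filter_upwards [hf, hg, ev_ge 1] with z h1 h2 h3
  have h5 : 2 ^ (z.2 + 1) ≤ 2 ^ (2 * z.2) := Nat.pow_le_pow_right (by norm_num) (by omega)
  rw [pow_succ] at h5
  omega

theorem sm_pow {f : Ω → ℕ} (hf : Sm ℓ f) (d : ℕ) : Sm ℓ fun ω => f ω ^ d := by
  induction d with
  | zero => simpa using sm_const 1
  | succ d ih => simpa only [pow_succ] using sm_mul ih hf

theorem sm_log {f : Ω → ℕ} (hf : Sm ℓ f) : Le ℓ (fun ω => Nat.size (f ω)) fun _ => 0 := by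
  filter_upwards [hf] with z h
  simpa using Nat.size_le.2 h

variable {α β γ δ : Type} [Primcodable α] [Primcodable β] [Primcodable γ] [Primcodable δ]
variable {U : Str → Str →. Str}

/-- `a` is simple given `b` -/
abbrev Si (ℓ : Ω → ℕ) (U : Str → Str →. Str) (a : Ω → α) (b : Ω → β) : Prop :=
  Le ℓ (fun ω => K U (a ω) (b ω)) fun _ => 0

theorem k_prog (hU : Optimal U) {D : (ℕ × ℕ) × β →. α} (hD : Partrec D) {s m k : Ω → ℕ}
    {a : Ω → α} {b : Ω → β} (hm : ∀ ω, m ω < 2 ^ s ω) (hk : Sm ℓ k)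
    (h : ∀ ω, a ω ∈ D ((m ω, k ω), b ω)) : Le ℓ (fun ω => K U (a ω) (b ω)) s := by
  obtain ⟨c, hc⟩ := K_num hU hD
  refine le_of_mul 3 ?_
  filter_upwards [hk, ev_ge c] with z h1 h2
  have := hc _ _ _ _ _ _ (hm z.1) h1 (h z.1)
  omega

theorem si_part (hU : Optimal U) {D : β →. α} (hD : Partrec D) {a : Ω → α} {b : Ω → β}
    (h : ∀ ω, a ω ∈ D (b ω)) : Si ℓ U a b :=
  k_prog hU (D := fun x => D x.2) (hD.comp Computable.snd) (m := fun _ => 0) (k := fun _ => 0)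
    (by simp) (sm_const 0) h

theorem si_comp (hU : Optimal U) (f : β → α) (hf : Computable f) {a : Ω → α} {b : Ω → β}
    (h : ∀ ω, f (b ω) = a ω) : Si ℓ U a b :=
  si_part hU hf.partrec fun ω => by simp [h]

theorem si_sm (hU : Optimal U) {m : Ω → ℕ} (hm : Sm ℓ m) {b : Ω → β} : Si ℓ U m b :=
  k_prog hU (D := fun x => Part.some x.1.2) (Computable.partrec (by fun_prop)) (m := fun _ => 0)
    (by simp) hm (by simp)

theorem k_num (hU : Optimal U) {m s : Ω → ℕ} (hm : ∀ ω, m ω < 2 ^ s ω) {b : Ω → β} :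
    Le ℓ (fun ω => K U (m ω) (b ω)) s :=
  k_prog hU (D := fun x => Part.some x.1.1) (Computable.partrec (by fun_prop)) hm (sm_const 0)
    (by simp)

theorem k_pair (hU : Optimal U) {a : Ω → α} {b : Ω → β} {c : Ω → γ}
    (h : Sm ℓ (fun ω => K U (a ω) (c ω)) ∨ Sm ℓ fun ω => K U (b ω) (a ω, c ω)) :
    Le ℓ (fun ω => K U (a ω, b ω) (c ω)) fun ω => K U (a ω) (c ω) + K U (b ω) (a ω, c ω) := by
  obtain ⟨V, hV, hV'⟩ := K_univ (α := α) (β := γ) hU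
  obtain ⟨V', hW, hW'⟩ := K_univ (α := β) (β := α × γ) hU
  choose m1 h1 h1' using fun ω => (hV' (a ω) (c ω) _).1 le_rfl
  choose m2 h2 h2' using fun ω => (hW' (b ω) (a ω, c ω) _).1 le_rfl
  have key : ∀ {f g : (ℕ × ℕ) × γ → ℕ}, Computable f → Computable g → Partrec fun x =>
      (V (f x, x.2)).bind fun a => (V' (g x, (a, x.2))).map fun b => (a, b) := by
    intro f g hf hg
    refine Partrec.bind (hV.comp (by fun_prop)) ?_
    refine Partrec.map (hW.comp (g := fun x : ((ℕ × ℕ) × γ) × α => (g x.1, (x.2, x.1.2)))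
      (by fun_prop)) ?_
    unfold Computable₂
    fun_prop
  have hb : ∀ m n s t : ℕ, m < 2 ^ s → n < 2 ^ t → m * 2 ^ t + n < 2 ^ (s + t) := by
    intro m n s t h1 h2
    rw [pow_add]
    nlinarith
  have : Le ℓ (fun ω => K U (a ω, b ω) (c ω))
      fun ω => K U (a ω) (c ω) + K U (b ω) (a ω, c ω) + 2 := by
    rcases h with h | h
    · refine k_prog hU (key (f := fun x => x.1.1 % 2 ^ (x.1.2 + 1))
        (g := fun x => x.1.1 / 2 ^ (x.1.2 + 1)) (by fun_prop) (by fun_prop))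
        (m := fun ω => m2 ω * 2 ^ (K U (a ω) (c ω) + 1) + m1 ω) (fun ω => ?_) h fun ω => ?_
      · have := hb _ _ _ _ (h2 ω) (h1 ω)
        rwa [show K U (b ω) (a ω, c ω) + 1 + (K U (a ω) (c ω) + 1) =
          K U (a ω) (c ω) + K U (b ω) (a ω, c ω) + 2 by ring] at this
      · simp only [Part.mem_bind_iff, Part.mem_map_iff]
        refine ⟨a ω, ?_, b ω, ?_, rfl⟩
        · rw [Nat.mul_add_mod_of_lt (h1 ω)]; exact h1' ω
        · rw [add_comm, Nat.add_mul_div_right _ _ (by positivity), Nat.div_eq_of_lt (h1 ω),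
            zero_add]
          exact h2' ω
    · refine k_prog hU (key (f := fun x => x.1.1 / 2 ^ (x.1.2 + 1))
        (g := fun x => x.1.1 % 2 ^ (x.1.2 + 1)) (by fun_prop) (by fun_prop))
        (m := fun ω => m1 ω * 2 ^ (K U (b ω) (a ω, c ω) + 1) + m2 ω) (fun ω => ?_) h fun ω => ?_
      · have := hb _ _ _ _ (h1 ω) (h2 ω)
        rwa [show K U (a ω) (c ω) + 1 + (K U (b ω) (a ω, c ω) + 1) =
          K U (a ω) (c ω) + K U (b ω) (a ω, c ω) + 2 by ring] at this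
      · simp only [Part.mem_bind_iff, Part.mem_map_iff]
        refine ⟨a ω, ?_, b ω, ?_, rfl⟩
        · rw [add_comm, Nat.add_mul_div_right _ _ (by positivity), Nat.div_eq_of_lt (h2 ω),
            zero_add]
          exact h1' ω
        · rw [Nat.mul_add_mod_of_lt (h2 ω)]; exact h2' ω
  refine le_of_mul 2 ?_
  filter_upwards [this, ev_ge 2] with z h1 h2
  omega

theorem k_map (hU : Optimal U) (f : α × β → γ) (hf : Computable f) {a : Ω → α} {b : Ω → β}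
    {c : Ω → γ} (h : ∀ ω, f (a ω, b ω) = c ω) :
    Le ℓ (fun ω => K U (c ω) (b ω)) fun ω => K U (a ω) (b ω) := by
  obtain ⟨V, hV, hV'⟩ := K_univ (α := α) (β := β) hU
  choose m1 h1 h1' using fun ω => (hV' (a ω) (b ω) _).1 le_rfl
  have hD : Partrec fun x : (ℕ × ℕ) × β => (V (x.1.1, x.2)).map fun a => f (a, x.2) := by
    refine Partrec.map (hV.comp (by fun_prop)) ?_
    unfold Computable₂
    fun_prop
  have := k_prog (ℓ := ℓ) hU hD (a := c) (b := b) h1 (sm_const 0) fun ω => by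
    simp only [Part.mem_map_iff]
    exact ⟨a ω, h1' ω, h ω⟩
  refine le_of_mul 2 ?_
  filter_upwards [this, ev_ge 1] with z h1 h2
  omega

theorem k_cond (hU : Optimal U) (f : γ → β) (hf : Computable f) {a : Ω → α} {b : Ω → β}
    {c : Ω → γ} (h : ∀ ω, f (c ω) = b ω) :
    Le ℓ (fun ω => K U (a ω) (c ω)) fun ω => K U (a ω) (b ω) := by
  obtain ⟨V, hV, hV'⟩ := K_univ (α := α) (β := β) hU
  choose m1 h1 h1' using fun ω => (hV' (a ω) (b ω) _).1 le_rfl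
  have hD : Partrec fun x : (ℕ × ℕ) × γ => V (x.1.1, f x.2) := hV.comp (by fun_prop)
  have := k_prog (ℓ := ℓ) hU hD (a := a) (b := c) h1 (sm_const 0) fun ω => by
    simpa only [h] using h1' ω
  refine le_of_mul 2 ?_
  filter_upwards [this, ev_ge 1] with z h1 h2
  omega

theorem k_trans (hU : Optimal U) {a : Ω → α} {b : Ω → β} {c : Ω → γ}
    (h : Sm ℓ (fun ω => K U (a ω) (c ω)) ∨ Sm ℓ fun ω => K U (b ω) (a ω, c ω)) :
    Le ℓ (fun ω => K U (b ω) (c ω)) fun ω => K U (a ω) (c ω) + K U (b ω) (a ω, c ω) :=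
  le_tr (k_map hU (fun x : (α × β) × γ => x.1.2) (by fun_prop) fun _ => rfl) (k_pair hU h)

theorem sm_si {a : Ω → α} {b : Ω → β} (h : Si ℓ U a b) : Sm ℓ fun ω => K U (a ω) (b ω) :=
  sm_of_le h (sm_const 0)

/-- master monotonicity lemma -/
theorem k_mono (hU : Optimal U) {a : Ω → α} {c : Ω → β} {a' : Ω → γ} {c' : Ω → δ}
    (h1 : Si ℓ U a' fun ω => (a ω, c' ω)) (h2 : Si ℓ U c c') :
    Le ℓ (fun ω => K U (a' ω) (c' ω)) fun ω => K U (a ω) (c ω) := by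
  have e1 := k_trans hU (a := a) (b := a') (c := c') (Or.inr (sm_si h1))
  have e2 := k_trans hU (a := c) (b := a) (c := c') (Or.inl (sm_si h2))
  have e3 := k_cond (ℓ := ℓ) hU (fun x : β × δ => x.1) (by fun_prop) (a := a) (b := c)
    (c := fun ω => (c ω, c' ω)) fun _ => rfl
  refine le_of_mul 5 ?_
  filter_upwards [e1, e2, e3, h1, h2] with z e1 e2 e3 h1 h2
  omega

theorem si_refl (hU : Optimal U) {a : Ω → α} : Si ℓ U a a :=
  si_comp hU (fun x => x) (by fun_prop) fun _ => rfl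

theorem si_trans (hU : Optimal U) {a : Ω → α} {b : Ω → β} {c : Ω → γ} (h1 : Si ℓ U a b)
    (h2 : Si ℓ U b c) : Si ℓ U a c :=
  le_tr (k_mono hU (si_comp hU (fun x : α × γ => x.1) (by fun_prop) fun _ => rfl) h2) h1

theorem si_pair (hU : Optimal U) {a : Ω → α} {b : Ω → β} {c : Ω → γ} (h1 : Si ℓ U a c)
    (h2 : Si ℓ U b c) : Si ℓ U (fun ω => (a ω, b ω)) c := by
  have e1 := k_pair hU (a := a) (b := b) (c := c) (Or.inl (sm_si h1))
  have e3 := k_cond (ℓ := ℓ) hU (fun x : α × γ => x.2) (by fun_prop) (a := b) (b := c)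
    (c := fun ω => (a ω, c ω)) fun _ => rfl
  refine le_of_mul 4 ?_
  filter_upwards [e1, e3, h1, h2] with z e1 e3 h1 h2
  omega

theorem si_unit (hU : Optimal U) {c : Ω → γ} : Si ℓ U (fun _ => ()) c :=
  si_comp hU (fun _ => ()) (by fun_prop) fun _ => rfl

/-- simple given `b`, after applying a computable function to objects simple given `b` -/
theorem si_map (hU : Optimal U) (f : γ → α) (hf : Computable f) {a : Ω → α} {b : Ω → β}
    {c : Ω → γ} (hc : Si ℓ U c b) (h : ∀ ω, f (c ω) = a ω) : Si ℓ U a b :=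
  si_trans hU (si_comp hU f hf h) hc

theorem k_small [Inhabited α] (hU : Optimal U) (q : β → α → ℕ → Prop)
    (hq : ComputablePred fun x : β × α × ℕ => q x.1 x.2.1 x.2.2) {a : Ω → α} {b : Ω → β}
    {s : Ω → ℕ} (hT : ∀ ω (T : Finset α), (∀ a ∈ T, ∃ w, q (b ω) a w) → T.card ≤ 2 ^ s ω)
    (h : ∀ ω, ∃ w, q (b ω) (a ω) w) : Le ℓ (fun ω => K U (a ω) (b ω)) s := by
  obtain ⟨c, hc⟩ := K_small hU hq
  filter_upwards [ev_ge c] with z h1
  have := hc _ _ _ (hT z.1) (h z.1)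
  omega

theorem k_choose [Inhabited α] (hU : Optimal U) (q : β → α → ℕ → Prop)
    (hq : ComputablePred fun x : β × α × ℕ => q x.1 x.2.1 x.2.2) {b : Ω → β}
    (h : ∀ ω, ∃ a w, q (b ω) a w) : ∃ a : Ω → α, (∀ ω, ∃ w, q (b ω) (a ω) w) ∧ Si ℓ U a b := by
  obtain ⟨L, hL, -, hs, hn, hm⟩ := exists_enum hq
  have hD : Partrec fun x : β => Nat.rfindOpt fun t => (L x t)[0]? := by
    refine Partrec.rfindOpt ?_
    unfold Computable₂
    fun_prop
  have : ∀ ω, ∃ a, a ∈ Nat.rfindOpt fun t => (L (b ω) t)[0]? := fun ω => by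
    obtain ⟨a, ha⟩ := h ω
    obtain ⟨t, ht⟩ := (hm _ _).1 ha
    refine Part.dom_iff_mem.1 (Nat.rfindOpt_dom.2 ⟨t, (L (b ω) t)[0]'(List.length_pos_of_mem ht), ?_⟩)
    simp
  choose a ha using this
  refine ⟨a, fun ω => ?_, si_part hU hD ha⟩
  obtain ⟨t, ht⟩ := Nat.rfindOpt_spec (ha ω)
  exact (hm _ _).2 ⟨t, List.mem_of_getElem? ht⟩

theorem k_symm [Inhabited α] [Inhabited β] (hU : Optimal U) {a : Ω → α} {b : Ω → β} {c : Ω → γ}
    (h : Sm ℓ fun ω => K U (a ω, b ω) (c ω)) :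
    Le ℓ (fun ω => K U (a ω) (c ω) + K U (b ω) (a ω, c ω)) fun ω => K U (a ω, b ω) (c ω) := by
  obtain ⟨d, hd⟩ := K_symm (α := α) (β := β) (γ := γ) hU
  choose j h1 h2 h3 using fun ω => hd (a ω) (b ω) (c ω) _ le_rfl
  have hj : Sm ℓ j := sm_mono h1 (sm_add h (sm_const 1))
  have e1 := k_mono hU (a := a) (a' := a) (c' := c)
    (c := fun ω => (c ω, K U (a ω, b ω) (c ω), j ω))
    (si_comp hU (fun x => x.1) (by fun_prop) fun _ => rfl)
    (si_pair hU (si_refl hU) (si_pair hU (si_sm hU h) (si_sm hU hj)))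
  have e2 := k_mono hU (a := b) (a' := b) (c' := fun ω => (a ω, c ω))
    (c := fun ω => (a ω, c ω, K U (a ω, b ω) (c ω)))
    (si_comp hU (fun x => x.1) (by fun_prop) fun _ => rfl)
    (si_pair hU (si_comp hU (fun x => x.1) (by fun_prop) fun _ => rfl)
      (si_pair hU (si_comp hU (fun x => x.2) (by fun_prop) fun _ => rfl) (si_sm hU h)))
  refine le_of_mul 4 ?_
  filter_upwards [e1, e2, ev_ge d] with z e1 e2 e3
  have := h2 z.1
  have := h3 z.1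
  omega

/-- a shortest description, as a number -/
theorem k_short (hU : Optimal U) {a : Ω → α} {b : Ω → β} (h : Sm ℓ fun ω => K U (a ω) (b ω)) :
    ∃ p : Ω → ℕ, (∀ ω, p ω < 2 ^ (K U (a ω) (b ω) + 1)) ∧ Si ℓ U a (fun ω => (p ω, b ω)) ∧
      Si ℓ U p fun ω => (a ω, b ω) := by
  obtain ⟨V, hV, hV'⟩ := K_univ (α := α) (β := β) hU
  obtain ⟨e, he⟩ := re_mem hV
  obtain ⟨p, h1, h2⟩ := k_choose (ℓ := ℓ) hU (fun (x : α × β × ℕ) (m : ℕ) w =>
    m < 2 ^ (x.2.2 + 1) ∧ Wst e w (encode ((m, x.2.1), x.1))) (by fun_prop)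
    (b := fun ω => (a ω, b ω, K U (a ω) (b ω))) fun ω => by
      obtain ⟨m, hm, hm'⟩ := (hV' (a ω) (b ω) _).1 le_rfl
      obtain ⟨t, ht⟩ := (he _ _).1 hm'
      exact ⟨m, t, hm, ht⟩
  refine ⟨p, fun ω => (h1 ω).choose_spec.1,
    si_part hU hV fun ω => (he _ _).2 ⟨_, (h1 ω).choose_spec.2⟩, si_trans hU h2 ?_⟩
  exact si_pair hU (si_comp hU (fun x => x.1) (by fun_prop) fun _ => rfl)
    (si_pair hU (si_comp hU (fun x => x.2) (by fun_prop) fun _ => rfl) (si_sm hU h))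

end Pool.Agent.Lib.MP_e57333_lc
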