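import Mathlib

set_option autoImplicit false

/-! Online sets, ranks and dyadic portions. -/

namespace Pool.Agent.Lib.MP_e57333_lc

open Finset

variable {ε τ : Type} [DecidableEq τ]

/-- a finite set growing along histories -/
def Mono (S : List ε → Finset τ) : Prop := ∀ h h', h <+: h' → S h ⊆ S h'

/-- order of appearance (on reversed histories) -/
noncomputable def ord (S : List ε → Finset τ) : List ε → List τ
  | [] => (S []).toList
  | e :: r => ord S r ++ (S (e :: r).reverse \ S r.reverse).toList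

theorem ord_spec {S : List ε → Finset τ} (hS : Mono S) (r : List ε) :
    (ord S r).Nodup ∧ ∀ t, t ∈ ord S r ↔ t ∈ S r.reverse := by
  induction r with
  | nil => exact ⟨nodup_toList _, by simp [ord]⟩
  | cons e r ih =>
    have h1 : S r.reverse ⊆ S (e :: r).reverse := hS _ _ (by simp)
    refine ⟨?_, fun t => ?_⟩
    · rw [ord, List.nodup_append]
      refine ⟨ih.1, nodup_toList _, ?_⟩
      rintro a ha b hb rfl
      exact (mem_sdiff.1 (mem_toList.1 hb)).2 ((ih.2 a).1 ha)
    · rw [ord, List.mem_append, ih.2, mem_toList, mem_sdiff]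
      have := @h1 t
      tauto

theorem ord_pre (S : List ε → Finset τ) (r l : List ε) : ord S r <+: ord S (l ++ r) := by
  induction l with
  | nil => exact List.prefix_rfl
  | cons e l ih => exact ih.trans (List.prefix_append _ _)

/-- rank in the order of appearance -/
noncomputable def rk (S : List ε → Finset τ) (h : List ε) (t : τ) : ℕ := (ord S h.reverse).idxOf t

variable {S : List ε → Finset τ} {h h' : List ε}

theorem ord_mem (hS : Mono S) (h : List ε) (t : τ) : t ∈ ord S h.reverse ↔ t ∈ S h := by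
  simpa using (ord_spec hS h.reverse).2 t

theorem ord_len (hS : Mono S) (h : List ε) : (ord S h.reverse).length = (S h).card := by
  rw [← List.toFinset_card_of_nodup (ord_spec hS _).1]
  congr 1
  ext t
  simp [ord_mem hS]

theorem ord_pre' (S : List ε → Finset τ) (hh : h <+: h') : ord S h.reverse <+: ord S h'.reverse := by
  obtain ⟨l, rfl⟩ := hh
  rw [List.reverse_append]
  exact ord_pre _ _ _

theorem rk_stable (hS : Mono S) (hh : h <+: h') {t : τ} (ht : t ∈ S h) : rk S h' t = rk S h t := by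
  obtain ⟨l, hl⟩ := ord_pre' S hh
  rw [rk, rk, ← hl, List.idxOf_append_of_mem ((ord_mem hS h t).2 ht)]

theorem rk_new (hS : Mono S) (hh : h <+: h') {t : τ} (ht : t ∉ S h) : (S h).card ≤ rk S h' t := by
  obtain ⟨l, hl⟩ := ord_pre' S hh
  rw [rk, ← hl, List.idxOf_append_of_notMem (by rwa [ord_mem hS]), ord_len hS]
  omega

theorem rk_lt (hS : Mono S) {t : τ} (ht : t ∈ S h) : rk S h t < (S h).card := by
  rw [← ord_len hS]
  exact List.idxOf_lt_length_of_mem ((ord_mem hS h t).2 ht)

theorem rk_inj (hS : Mono S) {t t' : τ} (ht : t ∈ S h) (e : rk S h t = rk S h t') : t = t' :=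
  (List.idxOf_inj ((ord_mem hS h t).2 ht)).1 e

/-- dyadic portion -/
noncomputable def Por (S : List ε → Finset τ) (h : List ε) (c u : ℕ) : Finset τ :=
  (S h).filter fun t => rk S h t / 2 ^ c = u

theorem por_sub (c u : ℕ) : Por S h c u ⊆ S h := filter_subset _ _

omit [DecidableEq τ] in
theorem cmp_mono (hS : Mono S) (hh : h <+: h') {c u : ℕ} (hc : u < (S h).card / 2 ^ c) :
    u < (S h').card / 2 ^ c :=
  hc.trans_le (Nat.div_le_div_right (card_le_card (hS _ _ hh)))

theorem por_stable (hS : Mono S) (hh : h <+: h') {c u : ℕ} (hc : u < (S h).card / 2 ^ c) :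
    Por S h' c u = Por S h c u := by
  ext t
  simp only [Por, mem_filter]
  constructor
  · rintro ⟨h1, h2⟩
    have ht : t ∈ S h := by
      by_contra hn
      have := Nat.div_le_div_right (c := 2 ^ c) (rk_new hS hh hn)
      omega
    exact ⟨ht, by rwa [rk_stable hS hh ht] at h2⟩
  · rintro ⟨h1, h2⟩
    exact ⟨hS _ _ hh h1, by rwa [rk_stable hS hh h1]⟩

theorem por_card (hS : Mono S) (c u : ℕ) : (Por S h c u).card ≤ 2 ^ c := by
  rw [← card_range (2 ^ c)]
  refine card_le_card_of_injOn (fun t => rk S h t % 2 ^ c)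
    (fun t _ => by simpa using Nat.mod_lt _ (by positivity)) fun t ht t' ht' e => ?_
  have h1 := mem_filter.1 ht
  have h2 := mem_filter.1 ht'
  refine rk_inj hS h1.1 ?_
  rw [← Nat.div_add_mod (rk S h t) (2 ^ c), ← Nat.div_add_mod (rk S h t') (2 ^ c), h1.2, h2.2]
  simp only at e
  rw [e]

theorem exists_bit (D : ℕ) : ∀ e s : ℕ, e < s → s < 2 ^ D → ∃ c < D, e / 2 ^ c + 1 = s / 2 ^ c := by
  induction D with
  | zero => intro e s h1 h2; simp at h2; omega
  | succ D ih =>
    intro e s h1 h2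
    by_cases h : e / 2 = s / 2
    · exact ⟨0, by omega, by simp; omega⟩
    · obtain ⟨c, hc, h3⟩ := ih (e / 2) (s / 2) (by omega) (by rw [pow_succ] at h2; omega)
      refine ⟨c + 1, by omega, ?_⟩
      rwa [Nat.div_div_eq_div_mul, Nat.div_div_eq_div_mul, ← pow_succ'] at h3

theorem pigeon (W : Finset τ) (D : ℕ) (p : ℕ → τ → Prop) [∀ c, DecidablePred (p c)]
    (hW : W.Nonempty) (h : ∀ t ∈ W, ∃ c < D, p c t) :
    ∃ c < D, (W.filter (p c)).Nonempty ∧ W.card ≤ D * (W.filter (p c)).card := by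
  obtain ⟨t0, ht0⟩ := hW
  obtain ⟨c0, hc0, -⟩ := h t0 ht0
  obtain ⟨c, hc, hm⟩ := exists_max_image (range D) (fun c => (W.filter (p c)).card)
    ⟨c0, mem_range.2 hc0⟩
  have h1 : W.card ≤ D * (W.filter (p c)).card := by
    calc W.card ≤ ((range D).biUnion fun c => W.filter (p c)).card := by
          refine card_le_card fun t ht => ?_
          obtain ⟨c, hc, hp⟩ := h t ht
          exact mem_biUnion.2 ⟨c, mem_range.2 hc, mem_filter.2 ⟨ht, hp⟩⟩
      _ ≤ _ := by simpa using card_biUnion_le_card_mul _ _ _ hm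
  refine ⟨c, mem_range.1 hc, ?_, h1⟩
  rw [← card_pos]
  have : 0 < W.card := card_pos.2 ⟨t0, ht0⟩
  by_contra h0
  simp only [not_lt, nonpos_iff_eq_zero] at h0
  rw [h0] at h1
  omega

theorem popular (hS : Mono S) {D : ℕ} (hD : (S h).card < 2 ^ D) {W : Finset τ} (hW : W.Nonempty)
    (hWS : W ⊆ S h) : ∃ c < D, ∃ u < (S h).card / 2 ^ c, ∃ W' ⊆ W, W' ⊆ Por S h c u ∧
      W'.Nonempty ∧ W.card ≤ D * W'.card := by
  obtain ⟨c, hc, h1, h2⟩ := pigeon W D (fun c t => rk S h t / 2 ^ c + 1 = (S h).card / 2 ^ c) hW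
    fun t ht => exists_bit D _ _ (rk_lt hS (hWS ht)) hD
  obtain ⟨t0, ht0⟩ := id h1
  have h3 := (mem_filter.1 ht0).2
  refine ⟨c, hc, rk S h t0 / 2 ^ c, h3 ▸ Nat.lt_succ_self _, _, filter_subset _ _,
    fun t ht => ?_, h1, h2⟩
  have h4 := mem_filter.1 ht
  exact mem_filter.2 ⟨hWS h4.1, Nat.succ_injective (h4.2.trans h3.symm)⟩

omit [DecidableEq τ] in
theorem card_bU {ι : Type} [DecidableEq τ] (s : Finset ι) (t : ι → Finset τ) (r : ℕ) (f : ι → ℕ)
    (h : ∀ i ∈ s, (t i).card * r ≤ f i) : (s.biUnion t).card * r ≤ ∑ i ∈ s, f i :=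
  (Nat.mul_le_mul_right r card_biUnion_le).trans (by rw [sum_mul]; exact sum_le_sum h)

theorem sum_por (N c Q : ℕ) : ∑ _u ∈ range (N / 2 ^ c), 2 ^ c * Q ≤ N * Q := by
  rw [sum_const, card_range, smul_eq_mul, ← mul_assoc]
  exact Nat.mul_le_mul_right _ (Nat.div_mul_le_self _ _)

end Pool.Agent.Lib.MP_e57333_lc
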