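import Pool.Agent.Lib.MP_e57333_lc.Static
import Pool.Agent.Lib.MP_e57333_lc.Rank

set_option autoImplicit false

/-! The online rectangle game. -/

namespace Pool.Agent.Lib.MP_e57333_lc

open Finset

/-- events: side (`true` = A), index, point -/
abbrev Evt := Bool × ℕ × ℕ

theorem static_choice (n D r : ℕ) (hr : 0 < r) :
    ∃ (J : Finset (ℕ × ℕ) → (ℕ × ℕ → Finset ℕ) → Finset (ℕ × ℕ))
      (Cv : Finset (ℕ × ℕ) → (ℕ × ℕ → Finset ℕ) → Finset (ℕ × ℕ) → Finset (ℕ × ℕ)),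
      ∀ P B, P.card < 2 ^ D → (∀ j ∈ P, ∀ y ∈ B j, y < 2 ^ n) →
        (J P B).card * r ≤ P.card * (20 * (n + D + 2) ^ 4) ∧ ∀ I ⊆ P, Cv P B I ⊆ J P B ∧
          (Cv P B I).card * r ≤ I.card * (20 * (n + D + 2) ^ 4) ∧
          ∀ y, r ≤ (I.filter fun j => y ∈ B j).card → ∃ j ∈ Cv P B I, y ∈ B j := by
  choose! J _ h2 h3 using fun P B => static_cover (ι := ℕ × ℕ) P B n D r hr
  choose! Cv h4 h5 h6 using h3
  exact ⟨J, Cv, fun P B hP hB => ⟨h2 P B hP hB, fun I hI =>
    ⟨h4 P B hP hB I hI, h5 P B hP hB I hI, h6 P B hP hB I hI⟩⟩⟩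

/-- points on side `s` of index `i` -/
def Sd (s : Bool) (i : ℕ) (h : List Evt) : Finset ℕ :=
  (h.toFinset.filter fun e => e.1 = s ∧ e.2.1 = i).image fun e => e.2.2

theorem mem_Sd {s : Bool} {i y : ℕ} {h : List Evt} : y ∈ Sd s i h ↔ (s, i, y) ∈ h := by
  simp only [Sd, mem_image, mem_filter, List.mem_toFinset]
  constructor
  · rintro ⟨⟨a, b, c⟩, ⟨h1, rfl, rfl⟩, rfl⟩
    exact h1
  · intro h1
    exact ⟨_, ⟨h1, rfl, rfl⟩, rfl⟩

theorem mono_Sd (s : Bool) (i : ℕ) : Mono (Sd s i) := fun _ _ hh _ hy =>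
  mem_Sd.2 (hh.subset (mem_Sd.1 hy))

/-- complete blocks -/
def CB (k β b : ℕ) (h : List Evt) : Finset (ℕ × ℕ) :=
  (range (2 ^ k) ×ˢ range (2 ^ β)).filter fun p => p.2 < (Sd false p.1 h).card / 2 ^ b

theorem mono_CB (k β b : ℕ) : Mono (CB k β b) := fun _ _ hh _ hp =>
  mem_filter.2 ⟨(mem_filter.1 hp).1, cmp_mono (mono_Sd _ _) hh (mem_filter.1 hp).2⟩

theorem CB_lt (k β b : ℕ) (h : List Evt) : (CB k β b h).card < 2 ^ (k + β + 1) := by
  refine (card_filter_le _ _).trans_lt ?_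
  rw [card_product, card_range, card_range, ← pow_add]
  exact Nat.pow_lt_pow_right (by norm_num) (by omega)

theorem CB_card {k β : ℕ} (b : ℕ) {h : List Evt} (hB : ∀ i, (Sd false i h).card ≤ 2 ^ β) :
    (CB k β b h).card * 2 ^ b ≤ 2 ^ (k + β) := by
  have h1 : CB k β b h ⊆ range (2 ^ k) ×ˢ range (2 ^ β / 2 ^ b) := fun p hp => by
    have h2 := mem_filter.1 hp
    exact mem_product.2 ⟨(mem_product.1 h2.1).1,
      mem_range.2 (h2.2.trans_le (Nat.div_le_div_right (hB _)))⟩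
  refine (Nat.mul_le_mul_right _ (card_le_card h1)).trans ?_
  rw [card_product, card_range, card_range, pow_add, mul_assoc]
  exact Nat.mul_le_mul_left _ (Nat.div_mul_le_self _ _)

/-- content of a block -/
noncomputable def Blk (b : ℕ) (h : List Evt) (p : ℕ × ℕ) : Finset ℕ := Por (Sd false p.1) h b p.2

theorem Blk_stable {k β b : ℕ} {h h' : List Evt} (hh : h <+: h') {p : ℕ × ℕ}
    (hp : p ∈ CB k β b h) : Blk b h' p = Blk b h p :=
  por_stable (mono_Sd _ _) hh (mem_filter.1 hp).2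

/-- the family of blocks of a portion -/
noncomputable def Fm (k β b : ℕ) (h : List Evt) (c u : ℕ) (p : ℕ × ℕ) : Finset ℕ :=
  if p ∈ Por (CB k β b) h c u then Blk b h p else ∅

theorem Fm_stable {k β b c u : ℕ} {h h' : List Evt} (hh : h <+: h')
    (hu : u < (CB k β b h).card / 2 ^ c) : Fm k β b h' c u = Fm k β b h c u := by
  funext p
  rw [Fm, Fm, por_stable (mono_CB _ _ _) hh hu]
  split_ifs with h1
  · exact Blk_stable hh (por_sub _ _ h1)
  · rfl

/-- history before an event -/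
def pre (h : List Evt) (e : Evt) : List Evt := h.take (h.idxOf e)

theorem pre_stable {h h' : List Evt} (hh : h <+: h') {e : Evt} (he : e ∈ h) :
    pre h' e = pre h e := by
  obtain ⟨l, rfl⟩ := hh
  rw [pre, pre, List.idxOf_append_of_mem he,
    List.take_append_of_le_length (List.idxOf_lt_length_of_mem he).le]

theorem pre_pre (h : List Evt) (e : Evt) : pre h e <+: h := List.take_prefix _ _

/-- blocks current when `x` entered -/
def Evx (k β b x : ℕ) (h : List Evt) : Finset (ℕ × ℕ) :=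
  (range (2 ^ k) ×ˢ range (2 ^ β)).filter fun p => (true, p.1, x) ∈ h ∧
    (Sd false p.1 (pre h (true, p.1, x))).card / 2 ^ b = p.2 + 1

theorem mono_Evx (k β b x : ℕ) : Mono (Evx k β b x) := fun _ _ hh _ hp => by
  have h1 := mem_filter.1 hp
  exact mem_filter.2 ⟨h1.1, hh.subset h1.2.1, by rw [pre_stable hh h1.2.1]; exact h1.2.2⟩

theorem Evx_sub (k β b x : ℕ) (h : List Evt) : Evx k β b x h ⊆ CB k β b h := fun p hp => by
  have h1 := mem_filter.1 hp
  exact mem_filter.2 ⟨h1.1, cmp_mono (mono_Sd _ _) (pre_pre h (true, p.1, x))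
    (h1.2.2 ▸ Nat.lt_succ_self _)⟩

theorem Evx_sum {k α β : ℕ} (b n : ℕ) {h : List Evt} (hA : ∀ i, (Sd true i h).card ≤ 2 ^ α) :
    ∑ x ∈ range (2 ^ n), (Evx k β b x h).card ≤ 2 ^ (k + α) := by
  calc ∑ x ∈ range (2 ^ n), (Evx k β b x h).card
      ≤ ∑ x ∈ range (2 ^ n), ((range (2 ^ k)).filter fun i => x ∈ Sd true i h).card := by
        refine sum_le_sum fun x _ => card_le_card_of_injOn Prod.fst (fun p hp => ?_)
          fun p hp q hq e => ?_
        · have h1 := mem_filter.1 hp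
          exact mem_coe.2 (mem_filter.2 ⟨(mem_product.1 h1.1).1, mem_Sd.2 h1.2.1⟩)
        · have h1 := (mem_filter.1 hp).2.2
          have h2 := (mem_filter.1 hq).2.2
          rw [e] at h1
          exact Prod.ext e (Nat.succ_injective (h1.symm.trans h2))
    _ = ∑ i ∈ range (2 ^ k), ((range (2 ^ n)).filter fun x => x ∈ Sd true i h).card := by
        simp only [card_filter]
        exact sum_comm
    _ ≤ ∑ _i ∈ range (2 ^ k), 2 ^ α :=
        sum_le_sum fun i _ => (card_le_card fun x hx => (mem_filter.1 hx).2).trans (hA i)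
    _ = _ := by simp [pow_add]

/-- events of `x` inside a portion -/
noncomputable def Evp (k β b x c u : ℕ) (h : List Evt) : Finset (ℕ × ℕ) :=
  (Evx k β b x h).filter fun p => rk (CB k β b) h p / 2 ^ c = u

theorem mono_Evp (k β b x c u : ℕ) : Mono (Evp k β b x c u) := fun h _ hh _ hp => by
  have h1 := mem_filter.1 hp
  exact mem_filter.2 ⟨mono_Evx _ _ _ _ _ _ hh h1.1, by
    rw [rk_stable (mono_CB _ _ _) hh (Evx_sub _ _ _ _ h h1.1)]; exact h1.2⟩

theorem Evp_sub (k β b x c u : ℕ) (h : List Evt) : Evp k β b x c u h ⊆ Por (CB k β b) h c u :=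
  fun _ hp => mem_filter.2 ⟨Evx_sub _ _ _ _ h (mem_filter.1 hp).1, (mem_filter.1 hp).2⟩

theorem Evp_sum (k β b x c : ℕ) (h : List Evt) (T : Finset ℕ) :
    ∑ u ∈ T, (Evp k β b x c u h).card ≤ (Evx k β b x h).card := by
  unfold Evp
  rw [sum_card_fiberwise_eq_card_filter]
  exact card_filter_le _ _

/-- the polynomial overhead -/
def Qg (k β n : ℕ) : ℕ := ((β + 1) * (k + β + 1) * (k + β + 1)) ^ 2 * (20 * (n + (k + β + 1) + 2) ^ 4)

theorem game (k α β n m : ℕ) : ∃ (N : List Evt → Finset (ℕ × ℕ × ℕ))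
    (Z A : List Evt → Finset ((ℕ × ℕ × ℕ) × ℕ)), Mono N ∧ Mono Z ∧ Mono A ∧ ∀ h : List Evt,
      (∀ e ∈ h, e.2.2 < 2 ^ n) → (∀ i, (Sd true i h).card ≤ 2 ^ α) →
      (∀ i, (Sd false i h).card ≤ 2 ^ β) →
      (∀ b, ((N h).filter fun z => z.1 = b).card * 2 ^ m * 2 ^ b ≤ 2 ^ (k + β) * Qg k β n) ∧
      (∀ z, ((Z h).filter fun w => w.1 = z).card ≤ 2 ^ z.1) ∧
      (A h).card * 2 ^ m ≤ 2 ^ (k + α) * Qg k β n ∧
      ∀ x y, 2 ^ m ≤ ((range (2 ^ k)).filter fun i => (true, i, x) ∈ h ∧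
          h.idxOf (false, i, y) < h.idxOf (true, i, x)).card →
        ∃ z ∈ N h, z.1 ≤ β ∧ (z, x) ∈ A h ∧ (z, y) ∈ Z h := by
  obtain ⟨D, hD⟩ : ∃ D, D = k + β + 1 := ⟨_, rfl⟩
  obtain ⟨M, hM⟩ : ∃ M, M = (β + 1) * D * D := ⟨_, rfl⟩
  obtain ⟨Q, hQ⟩ : ∃ Q, Q = 20 * (n + D + 2) ^ 4 := ⟨_, rfl⟩
  have hD0 : 0 < D := by omega
  have hM0 : 0 < M := by rw [hM]; positivity
  have hQg : Qg k β n = M * M * Q := by rw [Qg, ← hD, ← hM, ← hQ, sq]
  obtain ⟨r, hr0, hr1, hr2⟩ : ∃ r, 0 < r ∧ 2 ^ m ≤ r * M ∧ ∀ w, 2 ^ m ≤ M * w → r ≤ w := by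
    have h0 : 0 < 2 ^ m := by positivity
    refine ⟨(2 ^ m - 1) / M + 1, by positivity, ?_, fun w hw => ?_⟩
    · have := Nat.lt_div_mul_add (a := 2 ^ m - 1) hM0
      rw [add_mul]
      omega
    · rw [Nat.succ_le_iff, Nat.div_lt_iff_lt_mul hM0, mul_comm]
      omega
  obtain ⟨J, Cv, hJ⟩ := static_choice n D r hr0
  rw [← hQ] at hJ
  let Nm : ℕ → List Evt → Finset (ℕ × ℕ) := fun b h => (range D).biUnion fun c =>
    (range ((CB k β b h).card / 2 ^ c)).biUnion fun u =>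
      J (Por (CB k β b) h c u) (Fm k β b h c u)
  let Us : ℕ → ℕ → List Evt → Finset (ℕ × ℕ) := fun b x h => (range D).biUnion fun c =>
    (range ((CB k β b h).card / 2 ^ c)).biUnion fun u => (range D).biUnion fun d =>
      (range ((Evp k β b x c u h).card / 2 ^ d)).biUnion fun v =>
        Cv (Por (CB k β b) h c u) (Fm k β b h c u) (Por (Evp k β b x c u) h d v)
  refine ⟨fun h => (range (β + 1)).biUnion fun b => (Nm b h).image fun p => (b, p),
    fun h => (range (β + 1)).biUnion fun b => (CB k β b h).biUnion fun p =>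
      (Blk b h p).image fun y => ((b, p), y),
    fun h => (range (β + 1)).biUnion fun b => (range (2 ^ n)).biUnion fun x =>
      (Us b x h).image fun p => ((b, p), x), ?_, ?_, ?_, fun h hn hA hB => ?_⟩
  · intro h h' hh
    refine biUnion_mono fun b _ => image_subset_image (biUnion_mono fun c _ p hp => ?_)
    obtain ⟨u, hu, hp⟩ := mem_biUnion.1 hp
    have hu' := mem_range.1 hu
    refine mem_biUnion.2 ⟨u, mem_range.2 (cmp_mono (mono_CB _ _ _) hh hu'), ?_⟩
    rwa [por_stable (mono_CB _ _ _) hh hu', Fm_stable hh hu']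
  · intro h h' hh
    refine biUnion_mono fun b _ w hw => ?_
    obtain ⟨p, hp, hw⟩ := mem_biUnion.1 hw
    exact mem_biUnion.2 ⟨p, mono_CB _ _ _ _ _ hh hp, by rwa [Blk_stable hh hp]⟩
  · intro h h' hh
    refine biUnion_mono fun b _ => biUnion_mono fun x _ =>
      image_subset_image (biUnion_mono fun c _ p hp => ?_)
    obtain ⟨u, hu, hp⟩ := mem_biUnion.1 hp
    have hu' := mem_range.1 hu
    refine mem_biUnion.2 ⟨u, mem_range.2 (cmp_mono (mono_CB _ _ _) hh hu'), ?_⟩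
    refine biUnion_mono (fun d _ p hp => ?_) hp
    obtain ⟨v, hv, hp⟩ := mem_biUnion.1 hp
    have hv' := mem_range.1 hv
    refine mem_biUnion.2 ⟨v, mem_range.2 (cmp_mono (mono_Evp _ _ _ _ _ _) hh hv'), ?_⟩
    rwa [por_stable (mono_CB _ _ _) hh hu', Fm_stable hh hu',
      por_stable (mono_Evp _ _ _ _ _ _) hh hv']
  have hS : ∀ b c u, (J (Por (CB k β b) h c u) (Fm k β b h c u)).card * r ≤
      (Por (CB k β b) h c u).card * Q ∧ ∀ I ⊆ Por (CB k β b) h c u,
        Cv (Por (CB k β b) h c u) (Fm k β b h c u) I ⊆ J (Por (CB k β b) h c u) (Fm k β b h c u) ∧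
        (Cv (Por (CB k β b) h c u) (Fm k β b h c u) I).card * r ≤ I.card * Q ∧
        ∀ y, r ≤ (I.filter fun j => y ∈ Fm k β b h c u j).card →
          ∃ j ∈ Cv (Por (CB k β b) h c u) (Fm k β b h c u) I, y ∈ Fm k β b h c u j := by
    intro b c u
    refine hJ _ _ ((card_le_card (por_sub _ _)).trans_lt (hD ▸ CB_lt _ _ _ _)) fun j hj y hy => ?_
    rw [Fm, if_pos hj] at hy
    exact hn _ (mem_Sd.1 (por_sub _ _ hy))
  refine ⟨fun b => ?_, fun z => ?_, ?_, fun x y hxy => ?_⟩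
  · have h1 : (Nm b h).card * r ≤ D * ((CB k β b h).card * Q) := by
      refine (card_bU _ _ r (fun _ => (CB k β b h).card * Q) fun c _ => ?_).trans (by simp)
      refine (card_bU _ _ r (fun _ => 2 ^ c * Q) fun u _ => ?_).trans (sum_por _ _ _)
      exact (hS b c u).1.trans (Nat.mul_le_mul_right _ (por_card (mono_CB _ _ _) _ _))
    have h2 : (((range (β + 1)).biUnion fun b => (Nm b h).image fun p => (b, p)).filter
        fun z => z.1 = b).card ≤ (Nm b h).card := by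
      refine le_trans (card_le_card fun z hz => ?_) (card_image_le (f := fun p => (b, p)))
      obtain ⟨h3, h4⟩ := mem_filter.1 hz
      obtain ⟨b', -, h5⟩ := mem_biUnion.1 h3
      obtain ⟨p, hp, rfl⟩ := mem_image.1 h5
      cases h4
      exact mem_image_of_mem _ hp
    have h3 := CB_card (k := k) b hB
    have h4 : D ≤ M := by rw [hM]; exact Nat.le_mul_of_pos_left _ (by positivity)
    calc _ ≤ (Nm b h).card * (r * M) * 2 ^ b := by gcongr
      _ = (Nm b h).card * r * M * 2 ^ b := by ring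
      _ ≤ D * ((CB k β b h).card * Q) * M * 2 ^ b := by gcongr
      _ = (CB k β b h).card * 2 ^ b * (D * M * Q) := by ring
      _ ≤ 2 ^ (k + β) * (M * M * Q) := by gcongr
      _ = _ := by rw [hQg]
  · refine le_trans (card_le_card fun w hw => ?_) ((card_image_le (s := Blk z.1 h z.2)
      (f := fun y => (z, y))).trans (por_card (mono_Sd _ _) _ _))
    obtain ⟨h3, h4⟩ := mem_filter.1 hw
    obtain ⟨b', -, h5⟩ := mem_biUnion.1 h3
    obtain ⟨p, -, h6⟩ := mem_biUnion.1 h5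
    obtain ⟨y, hy, rfl⟩ := mem_image.1 h6
    cases h4
    exact mem_image_of_mem _ hy
  · have h1 : ∀ b x, (Us b x h).card * r ≤ (Evx k β b x h).card * (D * D * Q) := by
      intro b x
      refine (card_bU _ _ r (fun _ => (Evx k β b x h).card * (D * Q)) fun c _ => ?_).trans
        (by simp only [sum_const, card_range, smul_eq_mul]; exact le_of_eq (by ring))
      refine (card_bU _ _ r (fun u => (Evp k β b x c u h).card * (D * Q)) fun u _ => ?_).trans
        (by rw [← sum_mul]; exact Nat.mul_le_mul_right _ (Evp_sum _ _ _ _ _ _ _))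
      refine (card_bU _ _ r (fun _ => (Evp k β b x c u h).card * Q) fun d _ => ?_).trans
        (by simp only [sum_const, card_range, smul_eq_mul]; exact le_of_eq (by ring))
      refine (card_bU _ _ r (fun _ => 2 ^ d * Q) fun v _ => ?_).trans (sum_por _ _ _)
      exact ((hS b c u).2 _ ((por_sub _ _).trans (Evp_sub _ _ _ _ _ _ _))).2.1.trans
        (Nat.mul_le_mul_right _ (por_card (mono_Evp _ _ _ _ _ _) _ _))
    have h2 : ((range (β + 1)).biUnion fun b => (range (2 ^ n)).biUnion fun x =>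
        (Us b x h).image fun p => ((b, p), x)).card * r ≤ (β + 1) * (2 ^ (k + α) * (D * D * Q)) := by
      refine (card_bU _ _ r (fun _ => 2 ^ (k + α) * (D * D * Q)) fun b _ => ?_).trans (by simp)
      refine (card_bU _ _ r (fun x => (Evx k β b x h).card * (D * D * Q)) fun x _ => ?_).trans
        (by rw [← sum_mul]; exact Nat.mul_le_mul_right _ (Evx_sum _ _ hA))
      exact (Nat.mul_le_mul_right _ card_image_le).trans (h1 b x)
    refine (Nat.mul_le_mul_left _ hr1).trans ?_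
    rw [← mul_assoc]
    refine (Nat.mul_le_mul_right _ h2).trans (le_of_eq ?_)
    rw [hQg]
    nth_rewrite 2 [hM]
    ring
  · set W0 := (range (2 ^ k)).filter fun i => (true, i, x) ∈ h ∧
      h.idxOf (false, i, y) < h.idxOf (true, i, x) with hW0
    have hne : W0.Nonempty := card_pos.1 (lt_of_lt_of_le (by positivity) hxy)
    have hy : ∀ i ∈ W0, y ∈ Sd false i (pre h (true, i, x)) := fun i hi => by
      have h1 := (mem_filter.1 hi).2
      have h2 := List.idxOf_lt_length_of_mem h1.1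
      have h3 : (false, i, y) ∈ h := List.idxOf_lt_length_iff.1 (h1.2.trans h2)
      rw [mem_Sd, pre]
      exact (List.mem_take_iff_idxOf_lt h3).2 h1.2
    have hs : ∀ i, (Sd false i (pre h (true, i, x))).card ≤ 2 ^ β := fun i =>
      (card_le_card (mono_Sd _ _ _ _ (pre_pre _ _))).trans (hB i)
    obtain ⟨b, hb, hne1, hc1⟩ := pigeon W0 (β + 1) (fun b i =>
      rk (Sd false i) (pre h (true, i, x)) y / 2 ^ b + 1 =
        (Sd false i (pre h (true, i, x))).card / 2 ^ b) hne fun i hi =>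
      exists_bit _ _ _ (rk_lt (mono_Sd _ _) (hy i hi))
        ((hs i).trans_lt (Nat.pow_lt_pow_right (by norm_num) (by omega)))
    set W1 := W0.filter fun i => rk (Sd false i) (pre h (true, i, x)) y / 2 ^ b + 1 =
      (Sd false i (pre h (true, i, x))).card / 2 ^ b with hW1
    let f : ℕ → ℕ × ℕ := fun i => (i, rk (Sd false i) (pre h (true, i, x)) y / 2 ^ b)
    have hf : (W1.image f).card = W1.card :=
      card_image_of_injective _ fun i j e => congrArg Prod.fst e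
    have hW : ∀ p ∈ W1.image f, p ∈ Evx k β b x h ∧ y ∈ Blk b h p := fun p hp => by
      obtain ⟨i, hi, rfl⟩ := mem_image.1 hp
      obtain ⟨h1, h2⟩ := mem_filter.1 hi
      have h3 := mem_filter.1 h1
      refine ⟨mem_filter.2 ⟨mem_product.2 ⟨h3.1, mem_range.2 ?_⟩, h3.2.1, h2.symm⟩,
        mem_filter.2 ⟨mono_Sd _ _ _ _ (pre_pre _ _) (hy i h1), ?_⟩⟩
      · exact (Nat.div_le_self _ _).trans_lt ((rk_lt (mono_Sd _ _) (hy i h1)).trans_le (hs i))
      · rw [rk_stable (mono_Sd _ _) (pre_pre _ _) (hy i h1)]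
    obtain ⟨c, hc, u, hu, W2, hW2, hW2', hne2, hc2⟩ := popular (mono_CB k β b) (D := D)
      (hD ▸ CB_lt _ _ _ _) (hne1.image f) fun p hp => Evx_sub _ _ _ _ _ (hW p hp).1
    obtain ⟨d, hd, v, hv, W3, hW3, hW3', -, hc3⟩ := popular (mono_Evp k β b x c u) (h := h) (D := D)
      ((card_le_card ((Evp_sub _ _ _ _ _ _ _).trans (por_sub _ _))).trans_lt (hD ▸ CB_lt _ _ _ _))
      hne2 fun p hp => mem_filter.2 ⟨(hW p (hW2 hp)).1, (mem_filter.1 (hW2' hp)).2⟩
    have hr3 : r ≤ W3.card := hr2 _ (by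
      rw [hf] at hc2
      calc 2 ^ m ≤ (β + 1) * W1.card := hxy.trans hc1
        _ ≤ (β + 1) * (D * (D * W3.card)) := by
          gcongr
          exact hc2.trans (Nat.mul_le_mul_left _ hc3)
        _ = _ := by rw [hM]; ring)
    obtain ⟨h1, -, h3⟩ := (hS b c u).2 (Por (Evp k β b x c u) h d v)
      ((por_sub _ _).trans (Evp_sub _ _ _ _ _ _ _))
    obtain ⟨j, hj, hyj⟩ := h3 y (hr3.trans (card_le_card fun p hp => mem_filter.2 ⟨hW3' hp, by
      rw [Fm, if_pos (hW2' (hW3 hp))]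
      exact (hW p (hW2 (hW3 hp))).2⟩))
    have hjP : j ∈ Por (CB k β b) h c u := by
      by_contra h0
      rw [Fm, if_neg h0] at hyj
      simp at hyj
    rw [Fm, if_pos hjP] at hyj
    obtain ⟨i0, hi0⟩ := hne
    refine ⟨(b, j), mem_biUnion.2 ⟨b, mem_range.2 hb, mem_image_of_mem _ (mem_biUnion.2
      ⟨c, mem_range.2 hc, mem_biUnion.2 ⟨u, mem_range.2 hu, h1 hj⟩⟩)⟩, by omega,
      mem_biUnion.2 ⟨b, mem_range.2 hb, mem_biUnion.2 ⟨x,
        mem_range.2 (hn _ (mem_filter.1 hi0).2.1), mem_image_of_mem _ (mem_biUnion.2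
      ⟨c, mem_range.2 hc, mem_biUnion.2 ⟨u, mem_range.2 hu, mem_biUnion.2 ⟨d, mem_range.2 hd,
        mem_biUnion.2 ⟨v, mem_range.2 hv, hj⟩⟩⟩⟩)⟩⟩,
      mem_biUnion.2 ⟨b, mem_range.2 hb, mem_biUnion.2 ⟨j, por_sub _ _ hjP,
        mem_image_of_mem _ hyj⟩⟩⟩

end Pool.Agent.Lib.MP_e57333_lc
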