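import Pool.Agent.Lib.MP_e57333_lc.Defs
import Pool.Agent.Lib.MP_e57333_lc.FP

set_option autoImplicit false

/-! Typed Kolmogorov complexity: explicit-constant lemmas. -/

namespace Pool.Agent.Lib.MP_e57333_lc

open Encodable Denumerable Pool.Agent.Lib.MP_a0087d_lc

abbrev Str := List Bool

variable {α β γ σ : Type} [Primcodable α] [Primcodable β] [Primcodable γ] [Primcodable σ]

theorem exists_inv {f : α → σ} (hf : Computable f) (hi : Function.Injective f) :
    ∃ g : σ →. α, Partrec g ∧ ∀ a s, a ∈ g s ↔ f a = s := by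
  classical
  let F : σ → ℕ → Option α := fun s n =>
    (decode n : Option α).bind fun a => if f a = s then some a else none
  have hF : Computable₂ F := by
    unfold Computable₂
    simp only [F]
    fun_prop
  refine ⟨fun s => Nat.rfindOpt (F s), Partrec.rfindOpt hF, fun a s => ⟨fun h => ?_, fun h => ?_⟩⟩
  · obtain ⟨n, hn⟩ := Nat.rfindOpt_spec h
    simp only [F, Option.mem_def, Option.bind_eq_some_iff] at hn
    obtain ⟨b, -, hb⟩ := hn
    split_ifs at hb with h1
    cases hb
    exact h1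
  · have hd : (Nat.rfindOpt (F s)).Dom :=
      Nat.rfindOpt_dom.2 ⟨encode a, a, by simp [F, h]⟩
    obtain ⟨b, hb⟩ := Part.dom_iff_mem.1 hd
    obtain ⟨n, hn⟩ := Nat.rfindOpt_spec hb
    simp only [F, Option.mem_def, Option.bind_eq_some_iff] at hn
    obtain ⟨b', -, hb'⟩ := hn
    split_ifs at hb' with h1
    cases hb'
    rw [← hi (h1.trans h.symm)]
    exact hb

/-- value of a bit string on top of `k` -/
def val (k : ℕ) (p : Str) : ℕ := p.foldr (fun b n => 2 * n + b.toNat) k

@[fun_prop] theorem c_val {k : α → ℕ} {p : α → Str} (hk : Computable k) (hp : Computable p) :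
    Computable fun a => val (k a) (p a) := by
  unfold val; fun_prop

@[simp] theorem val_nil (k : ℕ) : val k [] = k := rfl
@[simp] theorem val_cons (k : ℕ) (b : Bool) (p : Str) :
    val k (b :: p) = 2 * val k p + b.toNat := rfl

theorem val_one_lt (p : Str) : val 1 p < 2 ^ (p.length + 1) := by
  induction p with
  | nil => simp
  | cons b p ih =>
    have := Bool.toNat_le b
    simp only [val_cons, List.length_cons, pow_succ] at *
    omega

theorem le_val_one (p : Str) : 2 ^ p.length ≤ val 1 p := by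
  induction p with
  | nil => simp
  | cons b p ih =>
    simp only [val_cons, List.length_cons, pow_succ] at *
    omega

theorem val_one_inj : Function.Injective (val 1) := by
  intro p
  induction p with
  | nil =>
    intro q h
    cases q with
    | nil => rfl
    | cons b q =>
      have := le_val_one q
      have : 0 < 2 ^ q.length := by positivity
      simp at h
      omega
  | cons a p ih =>
    intro q h
    cases q with
    | nil =>
      have := le_val_one p
      have : 0 < 2 ^ p.length := by positivity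
      simp at h
      omega
    | cons b q =>
      simp only [val_cons] at h
      have h1 : val 1 p = val 1 q := by
        have := Bool.toNat_le a
        have := Bool.toNat_le b
        omega
      have h2 : a = b := by
        rw [h1] at h
        cases a <;> cases b <;> simp_all
      rw [ih h1, h2]

theorem exists_bits (s m : ℕ) (h : m < 2 ^ s) : ∃ p : Str, p.length = s ∧ val 0 p = m := by
  induction s generalizing m with
  | zero => exact ⟨[], rfl, by simp at h; simp [h]⟩
  | succ s ih =>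
    obtain ⟨p, h1, h2⟩ := ih (m / 2) (by rw [pow_succ] at h; omega)
    refine ⟨decide (m % 2 = 1) :: p, by simp [h1], ?_⟩
    by_cases h3 : m % 2 = 1 <;> simp [h2, h3] <;> omega

variable {U : Str → Str →. Str}

theorem C_le {x y p : Str} (h : x ∈ U p y) : C U x y ≤ p.length :=
  Nat.sInf_le ⟨p, rfl, h⟩

theorem C_spec (hU : Optimal U) (x y : Str) : ∃ p : Str, p.length = C U x y ∧ x ∈ U p y := by
  obtain ⟨c, hc⟩ := hU.2 (fun p _ => Part.some p) (Computable.fst.partrec)
  obtain ⟨p', h, -⟩ := hc x y x (by simp)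
  exact Nat.sInf_mem (s := {n | ∃ p : Str, p.length = n ∧ x ∈ U p y}) ⟨_, p', rfl, h⟩

theorem Cg_le (hU : Optimal U) {c1 : α → Str} {c2 : β → Str} (h1 : Computable c1)
    (h2 : Computable c2) (i2 : Function.Injective c2) {D : Str × β →. α} (hD : Partrec D) :
    ∃ c, ∀ p b a, a ∈ D (p, b) → C U (c1 a) (c2 b) ≤ p.length + c := by
  obtain ⟨g, hg, hg'⟩ := exists_inv h2 i2
  have hP : Partrec₂ fun (p s : Str) => (g s).bind fun b => (D (p, b)).map c1 := by
    refine Partrec.bind (hg.comp Computable.snd) ?_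
    refine Partrec.map (hD.comp (g := fun x : (Str × Str) × β => (x.1.1, x.2)) (by fun_prop)) ?_
    exact (h1.comp Computable.snd).to₂
  obtain ⟨c, hc⟩ := hU.2 _ hP
  refine ⟨c, fun p b a ha => ?_⟩
  obtain ⟨p', h, hl⟩ := hc p (c2 b) (c1 a) (by
    simp only [Part.mem_bind_iff, Part.mem_map_iff]
    exact ⟨b, (hg' _ _).2 rfl, a, ha, rfl⟩)
  exact (C_le h).trans hl

theorem Cg_univ (hU : Optimal U) {c1 : α → Str} {c2 : β → Str} (h1 : Computable c1)
    (i1 : Function.Injective c1) (h2 : Computable c2) :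
    ∃ V : ℕ × β →. α, Partrec V ∧ ∀ a b s,
      C U (c1 a) (c2 b) ≤ s ↔ ∃ m < 2 ^ (s + 1), a ∈ V (m, b) := by
  obtain ⟨g, hg, hg'⟩ := exists_inv h1 i1
  obtain ⟨v, hv, hv'⟩ := exists_inv (f := val 1) (by fun_prop) val_one_inj
  refine ⟨fun x => (v x.1).bind fun p => (U p (c2 x.2)).bind g, ?_, fun a b s => ⟨fun h => ?_, ?_⟩⟩
  · refine Partrec.bind (hv.comp Computable.fst) ?_
    refine Partrec.bind (hU.1.comp (g := fun x : (ℕ × β) × Str => x.2)
      (h := fun x : (ℕ × β) × Str => c2 x.1.2) (by fun_prop) (by fun_prop)) ?_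
    exact (hg.comp Computable.snd).to₂
  · obtain ⟨p, hp, hp'⟩ := C_spec hU (c1 a) (c2 b)
    refine ⟨val 1 p, (val_one_lt p).trans_le (Nat.pow_le_pow_right (by norm_num) (by omega)), ?_⟩
    simp only [Part.mem_bind_iff]
    exact ⟨p, (hv' _ _).2 rfl, c1 a, hp', (hg' _ _).2 rfl⟩
  · rintro ⟨m, hm, h⟩
    simp only [Part.mem_bind_iff] at h
    obtain ⟨p, hp, x, hx, ha⟩ := h
    rw [hv'] at hp
    rw [hg'] at ha
    subst ha hp
    have h3 := (le_val_one p).trans_lt hm
    rw [Nat.pow_lt_pow_iff_right (by norm_num)] at h3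
    exact (C_le hx).trans (by omega)

theorem Cg_num (hU : Optimal U) {c1 : α → Str} {c2 : β → Str} (h1 : Computable c1)
    (h2 : Computable c2) (i2 : Function.Injective c2) {D : (ℕ × ℕ) × β →. α} (hD : Partrec D) :
    ∃ c, ∀ s t m k b a, m < 2 ^ s → k < 2 ^ t → a ∈ D ((m, k), b) →
      C U (c1 a) (c2 b) ≤ s + 2 * t + c := by
  have hP : Partrec fun x : Str × β => D ((val 0 (x.1.drop (2 * x.1.idxOf false + 1)),
      val 0 ((x.1.drop (x.1.idxOf false + 1)).take (x.1.idxOf false))), x.2) :=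
    hD.comp (by fun_prop)
  obtain ⟨c, hc⟩ := Cg_le hU h1 h2 i2 hP
  refine ⟨c + 1, fun s t m k b a hm hk ha => ?_⟩
  obtain ⟨p, hp, hp'⟩ := exists_bits s m hm
  obtain ⟨r, hr, hr'⟩ := exists_bits t k hk
  have hi : (List.replicate t true ++ false :: (r ++ p)).idxOf false = t := by
    rw [List.idxOf_append_of_notMem (by simp)]
    simp
  have := hc (List.replicate t true ++ false :: (r ++ p)) b a (by
    simp only [hi]
    have e1 : (List.replicate t true ++ false :: (r ++ p)).drop (t + 1) = r ++ p := by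
      rw [List.drop_append]
      simp
    have e2 : (List.replicate t true ++ false :: (r ++ p)).drop (2 * t + 1) = p := by
      rw [show 2 * t + 1 = (t + 1) + t by ring, ← List.drop_drop, e1, ← hr]
      simp
    rw [e1, e2, ← hr]
    simpa [hp', hr'] using ha)
  simp [hp, hr] at this
  omega

/-- unary code -/
def code (a : α) : Str := List.replicate (encode a) true

theorem c_code : Computable (code : α → Str) := by
  unfold code; fun_prop

theorem code_inj : Function.Injective (code : α → Str) := by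
  intro a b h
  have := congrArg List.length h
  simpa [code] using this

/-- typed conditional complexity -/
noncomputable def K (U : Str → Str →. Str) (a : α) (b : β) : ℕ := C U (code a) (code b)

theorem K_num (hU : Optimal U) {D : (ℕ × ℕ) × β →. α} (hD : Partrec D) :
    ∃ c, ∀ s t m k b a, m < 2 ^ s → k < 2 ^ t → a ∈ D ((m, k), b) → K U a b ≤ s + 2 * t + c :=
  Cg_num hU c_code c_code code_inj hD

theorem K_univ (hU : Optimal U) : ∃ V : ℕ × β →. α, Partrec V ∧ ∀ a b s,
      K U a b ≤ s ↔ ∃ m < 2 ^ (s + 1), a ∈ V (m, b) :=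
  Cg_univ hU c_code code_inj c_code

theorem Cg_K (hU : Optimal U) {c1 : α → Str} {c2 : β → Str} (h1 : Computable c1)
    (i1 : Function.Injective c1) (h2 : Computable c2) (i2 : Function.Injective c2) :
    ∃ c, ∀ a b, C U (c1 a) (c2 b) ≤ K U a b + c ∧ K U a b ≤ C U (c1 a) (c2 b) + c := by
  obtain ⟨V, hV, hV'⟩ := K_univ (α := α) (β := β) hU
  obtain ⟨V', hW, hW'⟩ := Cg_univ hU h1 i1 h2
  obtain ⟨c, hc⟩ := Cg_num hU h1 h2 i2 (D := fun x => V (x.1.1, x.2)) (hV.comp (by fun_prop))
  obtain ⟨d, hd⟩ := K_num hU (D := fun x : (ℕ × ℕ) × β => V' (x.1.1, x.2)) (hW.comp (by fun_prop))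
  refine ⟨c + d + 1, fun a b => ⟨?_, ?_⟩⟩
  · obtain ⟨m, hm, h⟩ := (hV' a b _).1 le_rfl
    have := hc _ 0 m 0 b a hm (by simp) h
    omega
  · obtain ⟨m, hm, h⟩ := (hW' a b _).1 le_rfl
    have := hd _ 0 m 0 b a hm (by simp) h
    omega

theorem K_card (hU : Optimal U) (b : β) (s : ℕ) (T : Finset α) (hT : ∀ a ∈ T, K U a b ≤ s) :
    T.card ≤ 2 ^ (s + 1) := by
  classical
  obtain ⟨V, -, hV⟩ := K_univ (α := α) (β := β) hU
  choose! m hm hm' using fun a (ha : a ∈ T) => (hV a b s).1 (hT a ha)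
  rw [← Finset.card_range (2 ^ (s + 1))]
  refine Finset.card_le_card_of_injOn m (fun a ha => by simpa using hm a ha) fun a ha a' ha' h => ?_
  exact Part.mem_unique (hm' a ha) (h ▸ hm' a' ha')

theorem re_mem {f : α →. σ} (hf : Partrec f) : ∃ e : ℕ, ∀ a s, s ∈ f a ↔ ∃ t, Wst e t (encode (a, s)) := by
  classical
  have h1 : Partrec fun x : α × σ =>
      (f x.1).bind fun s => ((if s = x.2 then some () else none : Option Unit) : Part Unit) := by
    refine Partrec.bind (hf.comp Computable.fst) ?_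
    refine Computable.ofOption ?_
    fun_prop
  obtain ⟨e, he⟩ := re_index h1.dom_re
  refine ⟨e, fun a s => ?_⟩
  rw [← he (a, s), Part.dom_iff_mem]
  simp only [Part.mem_bind_iff, Part.mem_ofOption]
  constructor
  · intro h
    exact ⟨(), s, h, by simp⟩
  · rintro ⟨u, s', h, h'⟩
    split_ifs at h' with h2
    · exact h2 ▸ h
    · simp at h'

theorem K_approx (hU : Optimal U) : ∃ A : ℕ → α → β → ℕ → Prop,
    (ComputablePred fun x : ℕ × α × β × ℕ => A x.1 x.2.1 x.2.2.1 x.2.2.2) ∧
    (∀ t t' a b s, t ≤ t' → A t a b s → A t' a b s) ∧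
    ∀ a b s, K U a b ≤ s ↔ ∃ t, A t a b s := by
  obtain ⟨V, hV, hV'⟩ := K_univ (α := α) (β := β) hU
  obtain ⟨e, he⟩ := re_mem hV
  refine ⟨fun t a b s => Bex (List.range (2 ^ (s + 1))) fun m => Wst e t (encode ((m, b), a)),
    by fun_prop, ?_, fun a b s => ?_⟩
  · rintro t t' a b s h ⟨m, hm, h'⟩
    exact ⟨m, hm, Wst_mono h h'⟩
  · rw [hV']
    simp only [he, Bex, List.mem_range]
    constructor
    · rintro ⟨m, hm, t, h⟩
      exact ⟨t, m, hm, h⟩
    · rintro ⟨t, m, hm, h⟩
      exact ⟨m, hm, t, h⟩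

omit [Primcodable β] in
theorem flt_append (l l' : List β) (p : β → Prop) : flt (l ++ l') p = flt l p ++ flt l' p := by
  simp [flt]

omit [Primcodable β] in
@[simp] theorem mem_flt {l : List β} {p : β → Prop} {b : β} : b ∈ flt l p ↔ b ∈ l ∧ p b := by
  simp [flt]

omit [Primcodable β] in
theorem flt_len_le_card {l : List β} {p : β → Prop} (hl : l.Nodup) {T : Finset β}
    (h : ∀ b ∈ l, p b → b ∈ T) : (flt l p).length ≤ T.card := by
  classical
  have : (flt l p).Nodup := hl.filter _
  rw [← List.toFinset_card_of_nodup this]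
  exact Finset.card_le_card fun b hb => by
    have := mem_flt.1 (List.mem_toFinset.1 hb)
    exact h b this.1 this.2

omit [Primcodable β] in
theorem card_le_flt_len {l : List β} {p : β → Prop} {T : Finset β}
    (h : ∀ b ∈ T, b ∈ l ∧ p b) : T.card ≤ (flt l p).length := by
  classical
  exact le_trans (Finset.card_le_card fun b hb => List.mem_toFinset.2 (mem_flt.2 (h b hb)))
    (List.toFinset_card_le _)

omit [Primcodable α] [Primcodable β] in
theorem sum_fiber_le (T : Finset α) (S : Finset β) (g : β → α)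
    [∀ a, DecidablePred fun b => g b = a] : ∑ a ∈ T, (S.filter fun b => g b = a).card ≤ S.card := by
  classical
  rw [← Finset.card_biUnion]
  · exact Finset.card_le_card (Finset.biUnion_subset.2 fun a _ => Finset.filter_subset _ _)
  · intro a _ a' _ h
    exact Finset.disjoint_filter.2 fun b _ h1 h2 => h (h1.symm.trans h2)

/-- a computable repetition-free enumeration of a c.e. family -/
theorem exists_enum [Inhabited α] {q : β → α → ℕ → Prop}
    (hq : ComputablePred fun x : β × α × ℕ => q x.1 x.2.1 x.2.2) :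
    ∃ L : β → ℕ → List α, (Computable fun x : β × ℕ => L x.1 x.2) ∧ (∀ b, L b 0 = []) ∧
      (∀ b t, L b (t + 1) = L b t ∨ ∃ a, L b (t + 1) = L b t ++ [a]) ∧
      (∀ b t, (L b t).Nodup) ∧ ∀ b a, (∃ w, q b a w) ↔ ∃ t, a ∈ L b t := by
  classical
  let dc : ℕ → α := fun s => (decode (Nat.unpair s).1 : Option α).getD default
  let G : β → ℕ → Prop := fun b s => encode (dc s) = (Nat.unpair s).1 ∧
    q b (dc s) (Nat.unpair s).2 ∧ Ball (List.range (Nat.unpair s).2) fun w => ¬ q b (dc s) w
  have hdc : Computable dc := by simp only [dc]; fun_prop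
  refine ⟨fun b t => (flt (List.range t) (G b)).map dc, by simp only [G]; fun_prop,
    fun b => by simp [flt], fun b t => ?_, fun b t => ?_, fun b a => ⟨?_, ?_⟩⟩
  · beta_reduce
    rw [List.range_succ, flt_append, List.map_append]
    by_cases h : G b t
    · exact Or.inr ⟨dc t, by simp [flt, h]⟩
    · exact Or.inl (by simp [flt, h])
  · refine List.Nodup.map_on ?_ (List.nodup_range.filter _)
    intro s hs s' hs' h
    obtain ⟨-, h1, h2, h3⟩ := mem_flt.1 hs
    obtain ⟨-, h1', h2', h3'⟩ := mem_flt.1 hs'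
    rw [← h] at h1' h2' h3'
    have e1 : (Nat.unpair s).1 = (Nat.unpair s').1 := h1.symm.trans h1'
    have e2 : (Nat.unpair s).2 = (Nat.unpair s').2 := by
      by_contra hne
      rcases lt_or_gt_of_ne hne with h4 | h4
      · exact h3' _ (List.mem_range.2 h4) h2
      · exact h3 _ (List.mem_range.2 h4) h2'
    rw [← Nat.pair_unpair s, ← Nat.pair_unpair s', e1, e2]
  · intro h
    refine ⟨Nat.pair (encode a) (Nat.find h) + 1, List.mem_map.2 ⟨Nat.pair (encode a) (Nat.find h),
      mem_flt.2 ⟨by simp, ?_⟩, by simp [dc]⟩⟩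
    simp only [G, dc, Nat.unpair_pair, encodek, Option.getD_some, true_and]
    exact ⟨Nat.find_spec h, fun w hw => Nat.find_min h (List.mem_range.1 hw)⟩
  · rintro ⟨t, ht⟩
    obtain ⟨s, hs, rfl⟩ := List.mem_map.1 ht
    exact ⟨_, (mem_flt.1 hs).2.2.1⟩

omit [Primcodable α] in
theorem step_pre {L : ℕ → List α} (h : ∀ t, L (t + 1) = L t ∨ ∃ a, L (t + 1) = L t ++ [a])
    {t t' : ℕ} (htt : t ≤ t') : L t <+: L t' := by
  induction htt with
  | refl => exact List.prefix_rfl
  | step _ ih =>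
    rename_i m _
    rcases h m with h1 | ⟨a, h1⟩
    · rw [Nat.succ_eq_add_one, h1]; exact ih
    · rw [Nat.succ_eq_add_one, h1]; exact ih.trans (List.prefix_append _ _)

theorem K_small [Inhabited α] (hU : Optimal U) {q : β → α → ℕ → Prop}
    (hq : ComputablePred fun x : β × α × ℕ => q x.1 x.2.1 x.2.2) :
    ∃ c, ∀ b a s, (∀ T : Finset α, (∀ a ∈ T, ∃ w, q b a w) → T.card ≤ 2 ^ s) → (∃ w, q b a w) →
      K U a b ≤ s + c := by
  classical
  obtain ⟨L, hL, -, hs, hn, hm⟩ := exists_enum hq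
  have hD : Partrec fun x : (ℕ × ℕ) × β => Nat.rfindOpt fun t => (L x.2 t)[x.1.1]? := by
    refine Partrec.rfindOpt ?_
    unfold Computable₂
    fun_prop
  obtain ⟨c, hc⟩ := K_num hU hD
  refine ⟨c, fun b a s hT ha => ?_⟩
  obtain ⟨t, ht⟩ := (hm b a).1 ha
  obtain ⟨i, hi, rfl⟩ := List.getElem_of_mem ht
  have h1 := hT (L b t).toFinset fun a ha => (hm b a).2 ⟨t, List.mem_toFinset.1 ha⟩
  rw [List.toFinset_card_of_nodup (hn b t)] at h1
  have := hc s 0 i 0 b (L b t)[i] (by omega) (by simp) (by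
    rw [Nat.rfindOpt_mono]
    · exact ⟨t, by simp [hi]⟩
    · intro a m n hmn ha
      obtain ⟨l, hl⟩ := step_pre (hs b) hmn
      simp only [Option.mem_def] at ha ⊢
      rw [← hl, List.getElem?_append_left (List.getElem?_eq_some_iff.1 ha).1, ha])
  simpa using this

omit [Primcodable β] in
theorem common_stage {L : ℕ → List β} (hL : ∀ t t', t ≤ t' → L t <+: L t') (T : Finset β)
    (hT : ∀ a ∈ T, ∃ t, a ∈ L t) : ∃ t, ∀ a ∈ T, a ∈ L t := by
  classical
  choose! f hf using hT
  exact ⟨T.sup f, fun a ha => (hL _ _ (Finset.le_sup ha)).subset (hf a ha)⟩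

/-- Kolmogorov-Levin, hard direction -/
theorem K_symm [Inhabited α] [Inhabited β] (hU : Optimal U) :
    ∃ c, ∀ (a : α) (b : β) (g : γ) (s : ℕ), K U (a, b) g ≤ s →
      ∃ j ≤ s + 1, K U b (a, g, s) ≤ j + c ∧ K U a (g, s, j) + j ≤ s + c := by
  classical
  obtain ⟨A, hA, hm, hK⟩ := K_approx (α := α × β) (β := γ) hU
  obtain ⟨L, hL, -, hs, hn, hmem⟩ := exists_enum (β := γ × ℕ) (α := α × β)
    (q := fun x p w => A w p x.1 x.2) (by fun_prop)
  obtain ⟨c1, h1⟩ := K_small (α := β) (β := α × γ × ℕ) hU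
    (q := fun x b w => A w (x.1, b) x.2.1 x.2.2) (by fun_prop)
  obtain ⟨c2, h2⟩ := K_small (α := α) (β := γ × ℕ × ℕ) hU
    (q := fun x a w => 2 ^ x.2.2 ≤ (flt (L (x.1, x.2.1) w) fun p => p.1 = a).length) (by fun_prop)
  refine ⟨c1 + c2 + 1, fun a b g s hs0 => ?_⟩
  have hlen : ∀ t, (L (g, s) t).length ≤ 2 ^ (s + 1) := fun t => by
    rw [← List.toFinset_card_of_nodup (hn _ t)]
    exact K_card hU g s _ fun p hp => (hK p g s).2 ((hmem (g, s) p).2 ⟨t, List.mem_toFinset.1 hp⟩)
  have hpre : ∀ t t', t ≤ t' → L (g, s) t <+: L (g, s) t' := fun t t' h => step_pre (hs _) h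
  let N : ℕ → ℕ := fun t => (flt (L (g, s) t) fun p => p.1 = a).length
  have hN : ∀ t, N t ≤ 2 ^ (s + 1) := fun t => (List.length_filter_le _ _).trans (hlen t)
  obtain ⟨t0, ht0⟩ : ∃ t0, ∀ t, N t ≤ N t0 := by
    have hb : BddAbove (Set.range N) := ⟨_, by rintro _ ⟨t, rfl⟩; exact hN t⟩
    obtain ⟨t0, h0⟩ := Nat.sSup_mem (Set.range_nonempty N) hb
    exact ⟨t0, fun t => h0 ▸ le_csSup hb ⟨t, rfl⟩⟩
  have hcard : ∀ T : Finset β, (∀ b ∈ T, ∃ w, A w (a, b) g s) → T.card ≤ N t0 := by
    intro T hT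
    obtain ⟨t, ht⟩ := common_stage hpre (T.image fun b => (a, b)) (by
      intro p hp
      obtain ⟨b, hb, rfl⟩ := Finset.mem_image.1 hp
      exact (hmem (g, s) _).1 (hT b hb))
    refine le_trans ?_ (ht0 t)
    rw [← Finset.card_image_of_injective T (Prod.mk_right_injective a)]
    refine le_trans (Finset.card_le_card ?_) (List.toFinset_card_le _)
    intro p hp
    obtain ⟨b, hb, rfl⟩ := Finset.mem_image.1 hp
    exact List.mem_toFinset.2 (mem_flt.2 ⟨ht _ hp, rfl⟩)
  have hpos : N t0 ≠ 0 := by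
    have := hcard {b} (by simpa using (hK _ _ _).1 hs0)
    simp at this
    omega
  have hj1 := Nat.pow_log_le_self 2 hpos
  have hj2 := Nat.lt_pow_succ_log_self (b := 2) (by norm_num) (N t0)
  have hj3 : Nat.log 2 (N t0) ≤ s + 1 :=
    (Nat.pow_le_pow_iff_right (by norm_num)).1 (hj1.trans (hN t0))
  generalize Nat.log 2 (N t0) = j at hj1 hj2 hj3
  refine ⟨j, hj3, ?_, ?_⟩
  · have := h1 (a, g, s) b (j + 1) (fun T hT => (hcard T hT).trans hj2.le) ((hK _ _ _).1 hs0)
    omega
  · have := h2 (g, s, j) a (s + 1 - j) (fun T hT => ?_) ⟨t0, hj1⟩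
    · omega
    · choose! f hf using hT
      have h3 : ∀ a' ∈ T, 2 ^ j ≤ ((L (g, s) (T.sup f)).toFinset.filter fun p => p.1 = a').card := by
        intro a' ha'
        refine (hf a' ha').trans (flt_len_le_card (hn _ _) fun p hp hp' => ?_)
        exact Finset.mem_filter.2
          ⟨List.mem_toFinset.2 ((hpre _ _ (Finset.le_sup ha')).subset hp), hp'⟩
      have h4 : T.card * 2 ^ j ≤ 2 ^ (s + 1) := by
        calc T.card * 2 ^ j = ∑ _a ∈ T, 2 ^ j := by simp
          _ ≤ ∑ a' ∈ T, ((L (g, s) (T.sup f)).toFinset.filter fun p => p.1 = a').card :=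
            Finset.sum_le_sum h3
          _ ≤ (L (g, s) (T.sup f)).toFinset.card := sum_fiber_le _ _ Prod.fst
          _ ≤ _ := (List.toFinset_card_le _).trans (hlen _)
      have h5 : 2 ^ (s + 1) = 2 ^ (s + 1 - j) * 2 ^ j := by rw [← pow_add]; congr 1; omega
      rw [h5] at h4
      exact Nat.le_of_mul_le_mul_right h4 (by positivity)

end Pool.Agent.Lib.MP_e57333_lc
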