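import Pool.Agent.Lib.MP_e57333_lc.Muchnik

set_option autoImplicit false

/-! Removing the noise from a common-information witness. -/

namespace Pool.Agent.Lib.MP_e57333_lc

open Filter Finset

variable {Ω : Type} {ℓ : Ω → ℕ} {U : Str → Str →. Str}
variable {α β γ : Type} [Primcodable α] [Primcodable β] [Primcodable γ]

theorem div_pow_lt {p s : ℕ} (t : ℕ) (h : p < 2 ^ s) : p / 2 ^ t < 2 ^ (s - t) := by
  rw [Nat.div_lt_iff_lt_mul (by positivity), ← pow_add]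
  exact h.trans_le (Nat.pow_le_pow_right (by norm_num) (by omega))

theorem k_rest (hU : Optimal U) {a : Ω → α} {c : Ω → β} {p t : Ω → ℕ} (ht : Sm ℓ t)
    (h : Si ℓ U a fun ω => (p ω, c ω)) :
    Le ℓ (fun ω => K U (a ω) (p ω / 2 ^ t ω, c ω)) t ∧
      Le ℓ (fun ω => K U (a ω) (p ω % 2 ^ t ω, c ω)) fun ω => K U (p ω / 2 ^ t ω) () := by
  constructor
  · refine le_tr (k_mono hU (a := fun ω => p ω % 2 ^ t ω) (c := fun _ => ())
      (si_trans hU h ?_) (si_unit hU)) (k_num hU fun ω => Nat.mod_lt _ (by positivity))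
    exact si_map hU (fun x : (ℕ × ℕ × β) × ℕ => (2 ^ x.2 * x.1.2.1 + x.1.1, x.1.2.2)) (by fun_prop)
      (si_pair hU (si_refl hU) (si_sm hU ht)) fun ω => by simp [Nat.div_add_mod]
  · refine k_mono hU (si_trans hU h ?_) (si_unit hU)
    exact si_map hU (fun x : (ℕ × ℕ × β) × ℕ => (2 ^ x.2 * x.1.1 + x.1.2.1, x.1.2.2)) (by fun_prop)
      (si_pair hU (si_refl hU) (si_sm hU ht)) fun ω => by simp [Nat.div_add_mod]

theorem k_split (hU : Optimal U) {a : Ω → α} {c : Ω → β} (h : Sm ℓ fun ω => K U (a ω) (c ω))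
    {t : Ω → ℕ} (ht : Sm ℓ t) : ∃ g : Ω → ℕ, (∀ ω, g ω < 2 ^ (K U (a ω) (c ω) + 1 - t ω)) ∧
      Si ℓ U g (fun ω => (a ω, c ω)) ∧ Le ℓ (fun ω => K U (a ω) (g ω, c ω)) t := by
  obtain ⟨p, h1, h2, h3⟩ := k_short hU h
  exact ⟨fun ω => p ω / 2 ^ t ω, fun ω => div_pow_lt _ (h1 ω),
    si_map hU (fun x : ℕ × ℕ => x.1 / 2 ^ x.2) (by fun_prop) (si_pair hU h3 (si_sm hU ht))
      fun _ => rfl, (k_rest hU ht h2).1⟩

theorem lemmaB (hU : Optimal U) {z : Ω → γ} {x : Ω → α} {y : Ω → β} [Inhabited α]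
    {g a b b' : Ω → ℕ} (hg : Sm ℓ g) (ha : Sm ℓ a) (hb : Sm ℓ b) (hb' : ∀ ω, b' ω ≤ b ω)
    (h1 : Le ℓ (fun ω => K U (z ω) () + b' ω) fun ω => g ω + b ω)
    (h2 : Le ℓ (fun ω => K U (y ω) (z ω)) b')
    (h3 : Le ℓ (fun ω => K U (z ω, x ω) ()) fun ω => g ω + a ω) :
    ∃ q : Ω → ℕ × ℕ, Le ℓ (fun ω => K U (q ω) ()) g ∧ Le ℓ (fun ω => K U (x ω) (q ω)) a ∧
      Le ℓ (fun ω => K U (y ω) (q ω)) b := by
  have hz : Sm ℓ fun ω => K U (z ω) () :=
    sm_of_le (le_tr (le_of_le fun ω => Nat.le_add_right _ _) h1) (sm_add hg hb)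
  obtain ⟨u, u1, u2, u3⟩ := k_split hU hz (t := fun ω => b ω - b' ω)
    (sm_mono (fun ω => Nat.sub_le _ _) hb)
  have e1 := k_mono hU (a := fun ω => (z ω, x ω)) (c := fun _ => ()) (a' := fun ω => (u ω, x ω))
    (c' := fun _ => ()) (si_pair hU (si_trans hU u2 (si_comp hU (fun x => (x.1.1, x.2))
      (by fun_prop) fun _ => rfl)) (si_comp hU (fun x => x.1.2) (by fun_prop) fun _ => rfl))
    (si_unit hU)
  have s1 : Sm ℓ fun ω => K U (u ω, x ω) () := sm_of_le (le_tr e1 h3) (sm_add hg ha)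
  have e2 := k_symm hU s1
  have s2 : Sm ℓ fun ω => K U (x ω) (u ω, ()) :=
    sm_of_le (le_tr (le_of_le fun ω => Nat.le_add_left _ _) e2) s1
  obtain ⟨v, v1, -, v3⟩ := k_split hU s2 ha
  have e3 := k_num (ℓ := ℓ) hU u1 (b := fun _ => ())
  have e4 := k_num (ℓ := ℓ) hU v1 (b := fun ω => (u ω, ()))
  have e5 := k_pair hU (a := u) (b := v) (c := fun _ => ())
    (Or.inl (sm_of_le (le_tr (le_of_le fun ω => Nat.le_add_right _ _) e2) s1))
  have e6 := k_cond (ℓ := ℓ) hU (fun x : ℕ × ℕ => (x.2, x.1, ())) (by fun_prop) (a := x)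
    (c := fun ω => (u ω, v ω)) fun _ => rfl
  have e7 := k_cond (ℓ := ℓ) hU (fun x : ℕ × ℕ => (x.1, ())) (by fun_prop) (a := z)
    (c := fun ω => (u ω, v ω)) fun _ => rfl
  have e8 := k_trans hU (a := z) (b := y) (c := fun ω => (u ω, v ω))
    (Or.inl (sm_of_le (le_tr e7 u3) (sm_mono (fun ω => Nat.sub_le _ _) hb)))
  have e9 := k_cond (ℓ := ℓ) hU (fun x : γ × ℕ × ℕ => x.1) (by fun_prop) (a := y)
    (c := fun ω => (z ω, u ω, v ω)) fun _ => rfl
  refine ⟨fun ω => (u ω, v ω), le_of_mul 10 ?_, le_tr e6 v3, le_of_mul 10 ?_⟩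
  · filter_upwards [h1, h3, e1, e2, e3, e4, e5, ev_ge 1] with w h1 h3 e1 e2 e3 e4 e5 e0
    have := hb' w.1
    omega
  · filter_upwards [h2, u3, e7, e8, e9] with w h2 u3 e7 e8 e9
    have := hb' w.1
    omega

theorem cnt_le (hU : Optimal U) {l : List Evt} (hl : l.Nodup) (s : Bool) (i a : ℕ)
    (h : ∀ e ∈ l, e.1 = s → K U e.2.2 e.2.1 ≤ a) :
    (flt l fun e => e.1 = s ∧ e.2.1 = i).length ≤ 2 ^ (a + 1) := by
  refine (flt_len_le_card hl (T := (Sd s i l).image fun x => (s, i, x)) ?_).trans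
    (card_image_le.trans (K_card hU i a _ fun x hx => h _ (mem_Sd.1 hx) rfl))
  rintro ⟨s', i', x⟩ he ⟨rfl, rfl⟩
  exact mem_image.2 ⟨x, mem_Sd.2 he, rfl⟩

/-- exchange the two sides -/
def sw (e : Evt) : Evt := (!e.1, e.2)

theorem sw_inj : Function.Injective sw := by
  rintro ⟨a, b⟩ ⟨c, d⟩ h
  simpa [sw] using h

theorem idxOf_sw (l : List Evt) (e : Evt) : (l.map sw).idxOf (sw e) = l.idxOf e := by
  induction l with
  | nil => rfl
  | cons a l ih =>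
    by_cases h : a = e
    · simp [h]
    · rw [List.map_cons, List.idxOf_cons_ne _ h, List.idxOf_cons_ne _ (sw_inj.ne h), ih]

theorem lemmaA_nat (hU : Optimal U) {x y q n k : Ω → ℕ} (hn : Sm ℓ n) (hk : Sm ℓ k)
    (hx : ∀ ω, x ω < 2 ^ n ω) (hy : ∀ ω, y ω < 2 ^ n ω) (hq : ∀ ω, q ω < 2 ^ k ω) :
    ∃ r : Ω → ℕ × ℕ, Le ℓ (fun ω => K U (r ω) () + K U (q ω) (x ω, y ω)) k ∧
      Le ℓ (fun ω => K U (x ω) (r ω)) (fun ω => K U (x ω) (q ω)) ∧
      Le ℓ (fun ω => K U (y ω) (r ω)) fun ω => K U (y ω) (q ω) := by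
  classical
  obtain ⟨a, ha⟩ : ∃ a : Ω → ℕ, ∀ ω, a ω = K U (x ω) (q ω) := ⟨_, fun _ => rfl⟩
  obtain ⟨b, hb⟩ : ∃ b : Ω → ℕ, ∀ ω, b ω = K U (y ω) (q ω) := ⟨_, fun _ => rfl⟩
  have has : Sm ℓ a := sm_mono (fun ω => (ha ω).le) (sm_of_le (k_num hU (b := q) hx) hn)
  have hbs : Sm ℓ b := sm_mono (fun ω => (hb ω).le) (sm_of_le (k_num hU (b := q) hy) hn)
  obtain ⟨Ap, hAp, hmono, hK⟩ := K_approx (α := ℕ) (β := ℕ) hU
  obtain ⟨L, hL, h0, hs, hnd, hmem⟩ := exists_enum (β := ℕ × ℕ × ℕ × ℕ) (α := Evt)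
    (q := fun θ e w => e.2.1 < 2 ^ θ.1 ∧ e.2.2 < 2 ^ θ.2.1 ∧
      Ap w e.2.2 e.2.1 (if e.1 = true then θ.2.2.1 else θ.2.2.2)) (by fun_prop)
  let θ : Ω → ℕ × ℕ × ℕ × ℕ := fun ω => (k ω, n ω, a ω, b ω)
  have hθ : Si ℓ U θ fun _ => () :=
    si_pair hU (si_sm hU hk) (si_pair hU (si_sm hU hn) (si_pair hU (si_sm hU has) (si_sm hU hbs)))
  let W : Ω → Finset ℕ := fun ω =>
    (range (2 ^ k ω)).filter fun i => K U (x ω) i ≤ a ω ∧ K U (y ω) i ≤ b ω
  have hW : ∀ ω, (W ω).card ≠ 0 := fun ω =>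
    card_ne_zero_of_mem (mem_filter.2 ⟨mem_range.2 (hq ω), (ha ω).ge, (hb ω).ge⟩)
  obtain ⟨j, hj1, hj2⟩ : ∃ j : Ω → ℕ, (∀ ω, 2 ^ j ω ≤ (W ω).card) ∧
      ∀ ω, (W ω).card < 2 ^ (j ω + 1) := ⟨fun ω => Nat.log 2 (W ω).card,
    fun ω => Nat.pow_log_le_self 2 (hW ω), fun ω => Nat.lt_pow_succ_log_self (by norm_num) _⟩
  have hjk : ∀ ω, j ω ≤ k ω := fun ω => (Nat.pow_le_pow_iff_right (by norm_num)).1
    ((hj1 ω).trans ((card_filter_le _ _).trans (card_range _).le))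
  have e1 := k_small (ℓ := ℓ) hU (fun (c : (ℕ × ℕ × ℕ × ℕ) × ℕ × ℕ) (i : ℕ) w =>
    i < 2 ^ c.1.1 ∧ Ap w c.2.1 i c.1.2.2.1 ∧ Ap w c.2.2 i c.1.2.2.2) (by fun_prop) (a := q)
    (b := fun ω => (θ ω, x ω, y ω)) (s := fun ω => j ω + 1)
    (fun ω T hT => le_trans (card_le_card fun i hi => by
      obtain ⟨t, h1, h2, h3⟩ := hT i hi
      exact mem_filter.2 ⟨mem_range.2 h1, (hK _ _ _).2 ⟨t, h2⟩, (hK _ _ _).2 ⟨t, h3⟩⟩) (hj2 ω).le)
    fun ω => by
      obtain ⟨t1, h1⟩ := (hK _ _ _).1 (ha ω).ge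
      obtain ⟨t2, h2⟩ := (hK _ _ _).1 (hb ω).ge
      exact ⟨max t1 t2, hq ω, hmono _ _ _ _ _ (le_max_left _ _) h1,
        hmono _ _ _ _ _ (le_max_right _ _) h2⟩
  have e2 := k_mono hU (a := q) (c' := fun ω => (x ω, y ω)) (si_fst hU)
    (si_pair hU (si_trans hU hθ (si_unit hU)) (si_refl hU))
  have hst : ∀ ω, ∃ t, ∀ i ∈ W ω, (true, i, x ω) ∈ L (θ ω) t ∧ (false, i, y ω) ∈ L (θ ω) t := by
    intro ω
    obtain ⟨t, ht⟩ := common_stage (fun t t' h => step_pre (hs (θ ω)) h)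
      (((W ω).image fun i => (true, i, x ω)) ∪ (W ω).image fun i => (false, i, y ω)) (by
        intro e he
        rw [← hmem]
        rcases mem_union.1 he with he | he <;> obtain ⟨i, hi, rfl⟩ := mem_image.1 he
        · obtain ⟨t, h⟩ := (hK _ _ _).1 (mem_filter.1 hi).2.1
          exact ⟨t, mem_range.1 (mem_filter.1 hi).1, hx ω, h⟩
        · obtain ⟨t, h⟩ := (hK _ _ _).1 (mem_filter.1 hi).2.2
          exact ⟨t, mem_range.1 (mem_filter.1 hi).1, hy ω, h⟩)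
    exact ⟨t, fun i hi => ⟨ht _ (mem_union_left _ (mem_image_of_mem _ hi)),
      ht _ (mem_union_right _ (mem_image_of_mem _ hi))⟩⟩
  let L' : (ℕ × ℕ × ℕ × ℕ) × ℕ → ℕ → List Evt := fun c t =>
    if c.2 = 0 then L c.1 t else (L c.1 t).map sw
  have hfl : ∀ ω, ∃ f < 2, ∃ t, 2 ^ (j ω - 1) ≤ (flt (List.range (2 ^ k ω)) fun i =>
      (true, i, if f = 0 then x ω else y ω) ∈ L' (θ ω, f) t ∧
      (L' (θ ω, f) t).idxOf (false, i, if f = 0 then y ω else x ω) <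
        (L' (θ ω, f) t).idxOf (true, i, if f = 0 then x ω else y ω)).length := by
    intro ω
    obtain ⟨t, ht⟩ := hst ω
    have h1 := card_filter_add_card_filter_not (s := W ω) fun i =>
      (L (θ ω) t).idxOf (false, i, y ω) < (L (θ ω) t).idxOf (true, i, x ω)
    have h2 : 2 * 2 ^ (j ω - 1) ≤ (W ω).card + 1 := by
      have := hj1 ω
      have h3 := hW ω
      generalize j ω = i at this ⊢
      rcases i with _ | i
      · show 2 * 1 ≤ _
        omega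
      · rw [pow_succ] at this
        rw [Nat.add_sub_cancel]
        omega
    by_cases h3 : 2 ^ (j ω - 1) ≤ ((W ω).filter fun i =>
      (L (θ ω) t).idxOf (false, i, y ω) < (L (θ ω) t).idxOf (true, i, x ω)).card
    · refine ⟨0, by norm_num, t, h3.trans (card_le_flt_len fun i hi => ?_)⟩
      have h4 := mem_filter.1 hi
      exact ⟨List.mem_range.2 (mem_range.1 (mem_filter.1 h4.1).1), (ht i h4.1).1, h4.2⟩
    · refine ⟨1, by norm_num, t, le_trans (by omega) (card_le_flt_len (T := (W ω).filter fun i =>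
        ¬ (L (θ ω) t).idxOf (false, i, y ω) < (L (θ ω) t).idxOf (true, i, x ω)) fun i hi => ?_)⟩
      have h4 := mem_filter.1 hi
      refine ⟨List.mem_range.2 (mem_range.1 (mem_filter.1 h4.1).1),
        List.mem_map.2 ⟨_, (ht i h4.1).2, rfl⟩, ?_⟩
      have h5 := idxOf_sw (L (θ ω) t) (false, i, y ω)
      have h6 := idxOf_sw (L (θ ω) t) (true, i, x ω)
      have h7 : (L (θ ω) t).idxOf (true, i, x ω) ≠ (L (θ ω) t).idxOf (false, i, y ω) := fun e => by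
        simpa using (List.idxOf_inj (ht i h4.1).1).1 e
      show ((L (θ ω) t).map sw).idxOf (sw (true, i, x ω)) <
        ((L (θ ω) t).map sw).idxOf (sw (false, i, y ω))
      omega
  choose f hf hft using hfl
  have hL' : ∀ ω t, ∀ e ∈ L' (θ ω, f ω) t, e.2.1 < 2 ^ k ω ∧ e.2.2 < 2 ^ n ω ∧
      (e.1 = true → K U e.2.2 e.2.1 ≤ if f ω = 0 then a ω else b ω) ∧
      (e.1 = false → K U e.2.2 e.2.1 ≤ if f ω = 0 then b ω else a ω) := by
    intro ω t e he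
    by_cases h : f ω = 0
    · simp only [L', h, if_true] at he ⊢
      obtain ⟨w, h1, h2, h3⟩ := (hmem _ _).2 ⟨t, he⟩
      have h4 := (hK _ _ _).2 ⟨w, h3⟩
      exact ⟨h1, h2, fun h => by simpa [h] using h4, fun h => by simpa [h] using h4⟩
    · simp only [L', h, if_false] at he ⊢
      obtain ⟨e', he', rfl⟩ := List.mem_map.1 he
      obtain ⟨w, h1, h2, h3⟩ := (hmem _ _).2 ⟨t, he'⟩
      have h4 := (hK _ _ _).2 ⟨w, h3⟩
      refine ⟨h1, h2, fun h => ?_, fun h => ?_⟩ <;> simp only [sw, Bool.not_eq_eq_eq_not,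
        Bool.not_true, Bool.not_false] at h <;> simpa [h, sw] using h4
  have hnd' : ∀ c t, (L' c t).Nodup := fun c t => by
    simp only [L']
    split_ifs
    · exact hnd _ _
    · exact (hnd _ _).map sw_inj
  have s1 : Sm ℓ fun ω => (if f ω = 0 then a ω else b ω) + 1 :=
    sm_add (sm_mono (fun ω => by split_ifs <;> omega) (sm_add has hbs)) (sm_const 1)
  have s2 : Sm ℓ fun ω => (if f ω = 0 then b ω else a ω) + 1 :=
    sm_add (sm_mono (fun ω => by split_ifs <;> omega) (sm_add has hbs)) (sm_const 1)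
  obtain ⟨z, z1, z2, z3, z4⟩ := game_K hU (θ := fun ω => (θ ω, f ω))
    (si_pair hU hθ (si_sm hU (sm_mono (fun ω => (hf ω).le) (sm_const 2)))) hk s1 s2 hn
    (m := fun ω => j ω - 1) (fun ω => (Nat.sub_le _ _).trans (hjk ω)) (L := L')
    (x := fun ω => if f ω = 0 then x ω else y ω) (y := fun ω => if f ω = 0 then y ω else x ω)
    (by simp only [L']; unfold sw; fun_prop) (fun c => by simp [L', h0])
    (fun c t => by
      simp only [L']
      split_ifs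
      · exact hs _ _
      · rcases hs c.1 t with h | ⟨e, h⟩
        · exact Or.inl (by rw [h])
        · exact Or.inr ⟨sw e, by simp [h]⟩)
    hnd' (fun ω t e he => ⟨(hL' ω t e he).1, (hL' ω t e he).2.1⟩)
    (fun ω t i _ => ⟨cnt_le hU (hnd' _ _) _ _ _ fun e he => (hL' ω t e he).2.2.1,
      cnt_le hU (hnd' _ _) _ _ _ fun e he => (hL' ω t e he).2.2.2⟩)
    (fun ω => by split_ifs; exacts [hx ω, hy ω]) (fun ω => by split_ifs; exacts [hy ω, hx ω]) hft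
  obtain ⟨r, r1, r2, r3⟩ := lemmaB hU (g := fun ω => k ω - (j ω - 1))
    (x := fun ω => if f ω = 0 then x ω else y ω) (y := fun ω => if f ω = 0 then y ω else x ω)
    (sm_mono (fun ω => Nat.sub_le _ _) hk) s1 s2 z1 (by
      filter_upwards [z2] with w h
      have := hjk w.1
      omega) z3 (by
      filter_upwards [z4] with w h
      have := hjk w.1
      omega)
  refine ⟨r, le_of_mul 10 ?_, le_of_mul 2 ?_, le_of_mul 2 ?_⟩
  · filter_upwards [r1, e1, e2, ev_ge 1] with w r1 e1 e2 e0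
    have := hjk w.1
    omega
  · filter_upwards [r2, r3, ev_ge 1] with w r2 r3 e0
    have := ha w.1
    by_cases h : f w.1 = 0 <;> simp only [h, if_true, if_false] at r2 r3 <;> omega
  · filter_upwards [r2, r3, ev_ge 1] with w r2 r3 e0
    have := hb w.1
    by_cases h : f w.1 = 0 <;> simp only [h, if_true, if_false] at r2 r3 <;> omega

theorem lemmaA (hU : Optimal U) {x : Ω → α} {y : Ω → β} {q : Ω → γ}
    (hx : Sm ℓ fun ω => K U (x ω) ()) (hy : Sm ℓ fun ω => K U (y ω) ())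
    (hq : Sm ℓ fun ω => K U (q ω) ()) :
    ∃ r : Ω → ℕ × ℕ, Le ℓ (fun ω => K U (r ω) () + K U (q ω) (x ω, y ω)) (fun ω => K U (q ω) ()) ∧
      Le ℓ (fun ω => K U (x ω) (r ω)) (fun ω => K U (x ω) (q ω)) ∧
      Le ℓ (fun ω => K U (y ω) (r ω)) fun ω => K U (y ω) (q ω) := by
  obtain ⟨x0, x1, x2, x3⟩ := k_short hU hx
  obtain ⟨y0, y1, y2, y3⟩ := k_short hU hy
  obtain ⟨q0, q1, q2, q3⟩ := k_short hU hq
  replace x2 := si_trans hU x2 (si_pair hU (si_refl hU) (si_unit hU))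
  replace x3 := si_trans hU x3 (si_pair hU (si_refl hU) (si_unit hU))
  replace y2 := si_trans hU y2 (si_pair hU (si_refl hU) (si_unit hU))
  replace y3 := si_trans hU y3 (si_pair hU (si_refl hU) (si_unit hU))
  replace q2 := si_trans hU q2 (si_pair hU (si_refl hU) (si_unit hU))
  replace q3 := si_trans hU q3 (si_pair hU (si_refl hU) (si_unit hU))
  obtain ⟨r, r1, r2, r3⟩ := lemmaA_nat hU (x := x0) (y := y0) (q := q0)
    (sm_add (sm_add hx hy) (sm_const 1)) (sm_add hq (sm_const 1))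
    (fun ω => (x1 ω).trans_le (Nat.pow_le_pow_right (by norm_num) (by omega)))
    (fun ω => (y1 ω).trans_le (Nat.pow_le_pow_right (by norm_num) (by omega))) q1
  have e1 := k_mono hU (a := q0) (a' := q) (c' := fun ω => (x ω, y ω))
    (si_trans hU q2 (si_fst hU))
    (si_pair hU (si_trans hU x3 (si_fst hU)) (si_trans hU y3 (si_snd hU)))
  refine ⟨r, le_of_mul 3 ?_,
    le_tr (k_mono hU (si_trans hU x2 (si_fst hU)) (si_refl hU))
      (le_tr r2 (k_mono hU (si_trans hU x3 (si_fst hU)) q2)),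
    le_tr (k_mono hU (si_trans hU y2 (si_fst hU)) (si_refl hU))
      (le_tr r3 (k_mono hU (si_trans hU y3 (si_fst hU)) q2))⟩
  filter_upwards [r1, e1, ev_ge 1] with w r1 e1 e0
  omega

end Pool.Agent.Lib.MP_e57333_lc
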