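import Pool.Agent.Lib.MP_e57333_lc.Raise

set_option autoImplicit false

/-! The Gray-Wyner profile determines the Wyner profile and the bounded extended profile. -/

namespace Pool.Agent.Lib.MP_e57333_lc

open Filter Finset

variable {Ω : Type} {ℓ : Ω → ℕ} {U : Str → Str →. Str}
variable {α β γ : Type} [Primcodable α] [Primcodable β] [Primcodable γ]

theorem raise2 [Inhabited α] [Inhabited β] [Inhabited γ] (hU : Optimal U) {x : Ω → α} {y : Ω → β}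
    {q : Ω → γ} {b : Ω → ℕ} (hx : Sk ℓ U x) (hy : Sk ℓ U y) (hq : Si ℓ U q fun ω => (x ω, y ω))
    (h1 : Le ℓ (fun ω => K U (y ω) (q ω)) b) (h2 : Le ℓ b fun ω => K U (y ω) ())
    (h3 : Le ℓ b fun ω => K U (x ω, y ω) (q ω)) :
    ∃ q' : Ω → ℕ × ℕ × ℕ, Si ℓ U q' (fun ω => (x ω, y ω)) ∧
      Le ℓ (fun ω => K U (q' ω) ()) (fun ω => K U (q ω) ()) ∧
      Le ℓ (fun ω => K U (q ω) ()) (fun ω => K U (q' ω) ()) ∧
      Le ℓ (fun ω => K U (x ω) (q' ω)) (fun ω => K U (x ω) (q ω)) ∧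
      Le ℓ (fun ω => K U (x ω) (q ω)) (fun ω => K U (x ω) (q' ω)) ∧
      Le ℓ (fun ω => K U (y ω) (q' ω)) b ∧ Le ℓ b fun ω => K U (y ω) (q' ω) := by
  have sq : Sk ℓ U q := sk_si hU hq (sk_pair hU hx hy)
  have e1 := k_bayes hU hy sq
  have e2 := k_bayes hU sq hy
  obtain ⟨q', a1, a2, a3, a4, a5, a6⟩ := raise hU (t := fun ω => b ω - K U (y ω) (q ω)) hx hy hq
    (by
      refine le_of_mul 4 ?_
      filter_upwards [e1, h2, k_un hU (a := q) (c := y)] with w e1 h2 e3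
      omega)
    (by
      have e3 := k_pair hU (a := y) (b := x) (c := q) (Or.inl (sk_cd hU hy))
      have e4 := k_si hU (c := q) (si_swap (ℓ := ℓ) hU (a := x) (b := y))
      refine le_of_mul 4 ?_
      filter_upwards [e3, e4, h3] with w e3 e4 h3
      omega)
  have sq' : Sk ℓ U q' := sm_of_le a3 sq
  have e3 := k_mono hU (a := q) (c' := x) a1 (si_refl hU)
  have e4 := k_mono hU (a := q') (c' := x) a2 (si_refl hU)
  refine ⟨q', si_trans hU a1 (si_pair hU hq (si_fst hU)), a3, a4, le_of_mul 10 ?_,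
    le_of_mul 10 ?_, le_of_mul 10 ?_, le_of_mul 10 ?_⟩
  · filter_upwards [k_bayes hU sq' hx, k_bayes hU hx sq, e3, a4] with w b1 b2 e3 a4
    omega
  · filter_upwards [k_bayes hU sq hx, k_bayes hU hx sq', e4, a3] with w b1 b2 e3 a4
    omega
  · filter_upwards [k_bayes hU sq' hy, e1, a5, a4, h1] with w b1 b2 e3 a4 h1
    omega
  · filter_upwards [k_bayes hU hy sq', e2, a6, a3] with w b1 b2 e3 a4
    omega

theorem match_simple [Inhabited α] [Inhabited β] [Inhabited γ] (hU : Optimal U) {x : Ω → α}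
    {y : Ω → β} {r : Ω → γ} {w a b d : Ω → ℕ} (hx : Sk ℓ U x) (hy : Sk ℓ U y)
    (z1 : Le ℓ (fun ω => K U (x ω, y ω) ()) fun ω => w ω + d ω)
    (z2 : Le ℓ (fun ω => w ω + d ω) fun ω => K U (x ω, y ω) ())
    (r0 : Le ℓ (fun ω => K U (r ω) ()) w) (r1 : Le ℓ (fun ω => K U (x ω) (r ω)) a)
    (r2 : Le ℓ (fun ω => K U (y ω) (r ω)) b) (a1 : Le ℓ a fun ω => K U (x ω) ()) (a2 : Le ℓ a d)
    (b1 : Le ℓ b fun ω => K U (y ω) ()) (b2 : Le ℓ b d) :
    ∃ q : Ω → ℕ × ℕ × ℕ, Si ℓ U q (fun ω => (x ω, y ω)) ∧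
      Le ℓ (fun ω => K U (q ω) ()) w ∧ Le ℓ w (fun ω => K U (q ω) ()) ∧
      Le ℓ (fun ω => K U (x ω) (q ω)) a ∧ Le ℓ a (fun ω => K U (x ω) (q ω)) ∧
      Le ℓ (fun ω => K U (y ω) (q ω)) b ∧ Le ℓ b fun ω => K U (y ω) (q ω) := by
  have sz := sk_pair hU hx hy
  have sw : Sm ℓ w := sm_of_le (le_tr (le_of_le fun ω => Nat.le_add_right _ _) z2) sz
  have sd : Sm ℓ d := sm_of_le (le_tr (le_of_le fun ω => Nat.le_add_left _ _) z2) sz
  obtain ⟨A0, hA0, m0, k0⟩ := K_approx (α := γ) (β := Unit) hU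
  obtain ⟨A1, hA1, m1, k1⟩ := K_approx (α := α) (β := γ) hU
  obtain ⟨A2, hA2, m2, k2⟩ := K_approx (α := β) (β := γ) hU
  obtain ⟨s, s1, s2⟩ := k_choose (ℓ := ℓ) hU (fun (c : (α × β) × ℕ × ℕ × ℕ) (s : γ) t =>
    A0 t s () c.2.1 ∧ A1 t c.1.1 s c.2.2.1 ∧ A2 t c.1.2 s c.2.2.2) (by fun_prop)
    (b := fun ω => ((x ω, y ω), K U (r ω) (), K U (x ω) (r ω), K U (y ω) (r ω))) fun ω => by
      obtain ⟨t0, h0⟩ := (k0 (r ω) () _).1 le_rfl
      obtain ⟨t1, h1⟩ := (k1 (x ω) (r ω) _).1 le_rfl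
      obtain ⟨t2, h2⟩ := (k2 (y ω) (r ω) _).1 le_rfl
      exact ⟨r ω, t0 + t1 + t2, m0 _ _ _ _ _ (by omega) h0, m1 _ _ _ _ _ (by omega) h1,
        m2 _ _ _ _ _ (by omega) h2⟩
  replace s2 : Si ℓ U s fun ω => (x ω, y ω) := si_trans hU s2 (si_pair hU (si_refl hU)
    (si_pair hU (si_sm hU (sm_of_le r0 sw)) (si_pair hU (si_sm hU (sk_cd hU hx))
      (si_sm hU (sk_cd hU hy)))))
  have s3 : Le ℓ (fun ω => K U (s ω) ()) w :=
    le_tr (le_of_le fun ω => (k0 _ _ _).2 ⟨_, (s1 ω).choose_spec.1⟩) r0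
  have s4 : Le ℓ (fun ω => K U (x ω) (s ω)) a :=
    le_tr (le_of_le fun ω => (k1 _ _ _).2 ⟨_, (s1 ω).choose_spec.2.1⟩) r1
  have s5 : Le ℓ (fun ω => K U (y ω) (s ω)) b :=
    le_tr (le_of_le fun ω => (k2 _ _ _).2 ⟨_, (s1 ω).choose_spec.2.2⟩) r2
  have ss : Sk ℓ U s := sm_of_le s3 sw
  obtain ⟨g, g1, g2, g3⟩ := k_split hU (c := s) (sk_cd hU sz) sd
  have u0 : Si ℓ U (fun ω => (g ω, s ω)) fun ω => (x ω, y ω) :=
    si_pair hU (si_trans hU g2 (si_pair hU (si_refl hU) s2)) s2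
  have su := sk_si hU u0 sz
  have u1 : Le ℓ (fun ω => K U (g ω, s ω) ()) w := by
    have e1 := k_si hU (c := fun _ => ()) (si_swap (ℓ := ℓ) hU (a := g) (b := s))
    have e2 := k_pair0 hU (b := g) ss
    have e3 := k_num (ℓ := ℓ) hU g1 (b := s)
    refine le_of_mul 10 ?_
    filter_upwards [e1, e2, e3, k_bayes hU ss sz, s2, s3, z1, ev_ge 1] with w e1 e2 e3 e4 e5 e6 e7 e0
    omega
  have key : ∀ {q : Ω → ℕ × ℕ × ℕ}, Le ℓ (fun ω => K U (q ω) ()) w →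
      Le ℓ d fun ω => K U (x ω, y ω) (q ω) := fun {q} h => by
    refine le_of_mul 10 ?_
    filter_upwards [h, z2, k_bayes hU sz (sm_of_le h sw)] with w e1 e2 e3
    omega
  have u2 : Le ℓ w fun ω => K U (g ω, s ω) () := by
    refine le_of_mul 10 ?_
    filter_upwards [g3, z2, k_bayes hU sz su] with w e1 e2 e3
    omega
  have u3 : Le ℓ d fun ω => K U (x ω, y ω) (g ω, s ω) := by
    refine le_of_mul 10 ?_
    filter_upwards [u1, z2, k_bayes hU sz su] with w e1 e2 e3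
    omega
  obtain ⟨q1, c0, c1, c2, c3, -, c5, c6⟩ := raise2 hU hx hy u0
    (le_tr (k_cd hU (si_snd hU)) s5) b1 (le_tr b2 u3)
  obtain ⟨q2, d0, d1, d2, d3, d4, d5, d6⟩ := raise2 hU hy hx (si_trans hU c0 (si_swap hU))
    (le_tr c3 (le_tr (k_cd hU (si_snd hU)) s4)) a1
    (le_tr a2 (le_tr (key (le_tr c1 u1)) (k_si hU (si_swap hU))))
  exact ⟨q2, si_trans hU d0 (si_swap hU), le_tr d1 (le_tr c1 u1), le_tr u2 (le_tr c2 d2), d5, d6,
    le_tr d3 c5, le_tr c6 d4⟩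

theorem exists_hard (hU : Optimal U) (c : β) (s : ℕ) (T : Finset α) (hT : 2 ^ s ≤ T.card) :
    ∃ a ∈ T, s ≤ K U a c + 1 := by
  by_contra h
  push Not at h
  rcases s with _ | _ | s
  · obtain ⟨a, ha⟩ := card_pos.1 (hT.trans_lt' (by norm_num))
    simpa using h a ha
  · obtain ⟨a, ha⟩ := card_pos.1 (hT.trans_lt' (by norm_num))
    have := h a ha
    omega
  · have := K_card hU c s T fun a ha => by have := h a ha; omega
    have h2 : 0 < 2 ^ (s + 1) := by positivity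
    rw [pow_succ] at hT
    omega

theorem noise [Inhabited α] (hU : Optimal U) {a : Ω → α} {c : Ω → β} {v m : Ω → ℕ} (hm : Sm ℓ m)
    (v1 : ∀ ω, v ω < 2 ^ m ω) (v2 : ∀ ω, m ω ≤ K U (v ω) (c ω) + 1) (hc : Sk ℓ U c)
    (h : Si ℓ U a c) : Le ℓ (fun ω => K U (a ω, v ω) ()) (fun ω => K U (a ω) () + m ω) ∧
      Le ℓ (fun ω => K U (a ω) () + m ω) fun ω => K U (a ω, v ω) () := by
  have sa := sk_si hU h hc
  refine ⟨le_of_mul 3 ?_, le_of_mul 3 ?_⟩
  · filter_upwards [k_pair0 hU (b := v) sa, k_num hU v1 (b := a)] with w e1 e2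
    omega
  · filter_upwards [k_symm0 hU sa (sk_num hU v1 hm), k_cd hU (a := v) h, ev_ge 1] with w e1 e2 e3
    have := v2 w.1
    omega

theorem si_code (hU : Optimal U) {a : Ω → α} :
    Si ℓ U (fun ω => code (a ω)) a ∧ Si ℓ U a fun ω => code (a ω) := by
  obtain ⟨g, hg, hg'⟩ := exists_inv (c_code (α := α)) code_inj
  exact ⟨si_comp hU code c_code fun _ => rfl, si_part hU hg fun ω => (hg' _ _).2 rfl⟩

theorem val_surj (m : ℕ) : ∃ p : Str, val 1 p = m + 1 := by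
  induction m using Nat.strong_induction_on with
  | _ m ih =>
    rcases m with _ | m
    · exact ⟨[], rfl⟩
    · obtain ⟨p, hp⟩ := ih (m / 2) (by omega)
      refine ⟨decide (m % 2 = 1) :: p, ?_⟩
      by_cases h : m % 2 = 1 <;> simp [hp, h] <;> omega

theorem si_val (hU : Optimal U) {p : Ω → Str} : Si ℓ U p fun ω => val 1 (p ω) := by
  obtain ⟨g, hg, hg'⟩ := exists_inv (f := val 1) (by fun_prop) val_one_inj
  exact si_part hU hg fun ω => (hg' _ _).2 rfl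

theorem k_str (hU : Optimal U) {p : Ω → Str} {c : Ω → β} :
    Le ℓ (fun ω => K U (p ω) (c ω)) fun ω => (p ω).length := by
  refine le_of_mul 3 ?_
  filter_upwards [k_si hU (c := c) (si_val hU (p := p)),
    k_num hU (b := c) fun ω => val_one_lt (p ω), ev_ge 1] with w e1 e2 e3
  omega

theorem sk_str (hU : Optimal U) {p : Ω → Str} {n : Ω → ℕ} (hn : Sm ℓ n)
    (h : ∀ ω, (p ω).length ≤ n ω) : Sk ℓ U p := sm_of_le (le_tr (k_str hU) (le_of_le h)) hn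

theorem exists_str (hU : Optimal U) {a : Ω → α} {L : Ω → ℕ} (ha : Sk ℓ U a)
    (h : Le ℓ (fun ω => K U (a ω) ()) L) :
    ∃ s : Ω → Str, (∀ ω, (s ω).length ≤ L ω) ∧ Si ℓ U s a ∧ Si ℓ U a s := by
  have ht : Le ℓ (fun ω => K U (a ω) () + 1 - L ω) fun _ => 0 := by
    refine le_of_mul 2 ?_
    filter_upwards [h, ev_ge 1] with w e1 e2
    omega
  obtain ⟨g, g1, g2, g3⟩ := k_split hU ha (sm_of_le ht (sm_const 0))
  choose s hs using fun ω => val_surj (g ω)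
  refine ⟨s, fun ω => ?_, si_trans hU (si_val hU) (si_map hU (fun z : ℕ => z + 1) (by fun_prop)
    (si_trans hU g2 (si_pair hU (si_refl hU) (si_unit hU))) fun ω => (hs ω).symm),
    si_trans hU (le_tr g3 ht) (si_comp hU (fun z => (val 1 z - 1, ())) (by fun_prop)
      fun ω => by simp [hs])⟩
  have h1 := le_val_one (s ω)
  have h2 := g1 ω
  have h4 := hs ω
  have h3 : (s ω).length ≤ K U (a ω) () + 1 - (K U (a ω) () + 1 - L ω) :=
    (Nat.pow_le_pow_iff_right (a := 2) (by norm_num)).1 (by omega)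
  omega

/-- one-sided closeness of Gray-Wyner profiles, for families -/
def GWle (ℓ : Ω → ℕ) (U : Str → Str →. Str) (x y x' y' : Ω → Str) : Prop :=
  ∀ r : Ω → Str, ∃ r' : Ω → Str, Le ℓ (fun ω => K U (r' ω) ()) (fun ω => K U (r ω) ()) ∧
    Le ℓ (fun ω => K U (x' ω) (r' ω)) (fun ω => K U (x ω) (r ω)) ∧
    Le ℓ (fun ω => K U (y' ω) (r' ω)) fun ω => K U (y ω) (r ω)

variable {x y x' y' : Ω → Str}

theorem GWle.typed (hU : Optimal U) (h : GWle ℓ U x y x' y') (r : Ω → γ) :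
    ∃ r' : Ω → Str, Le ℓ (fun ω => K U (r' ω) ()) (fun ω => K U (r ω) ()) ∧
    Le ℓ (fun ω => K U (x' ω) (r' ω)) (fun ω => K U (x ω) (r ω)) ∧
    Le ℓ (fun ω => K U (y' ω) (r' ω)) fun ω => K U (y ω) (r ω) := by
  obtain ⟨r', h1, h2, h3⟩ := h fun ω => code (r ω)
  exact ⟨r', le_tr h1 (k_si hU (si_code hU).1), le_tr h2 (k_cd hU (si_code hU).2),
    le_tr h3 (k_cd hU (si_code hU).2)⟩

theorem GWle.basic (hU : Optimal U) (h : GWle ℓ U x y x' y') :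
    Le ℓ (fun ω => K U (x' ω) ()) (fun ω => K U (x ω) ()) ∧
    Le ℓ (fun ω => K U (y' ω) ()) (fun ω => K U (y ω) ()) ∧
    Le ℓ (fun ω => K U (x' ω, y' ω) ()) fun ω => K U (x ω, y ω) () := by
  obtain ⟨r, h1, h2, h3⟩ := h.typed hU fun _ => ()
  obtain ⟨s, g1, g2, g3⟩ := h.typed hU fun ω => (x ω, y ω)
  have h4 : Si ℓ U r fun _ => () := le_tr h1 (si_unit hU)
  exact ⟨le_tr (k_cd hU h4) h2, le_tr (k_cd hU h4) h3, le_tr (k_si hU
    (si_pair hU (le_tr g2 (si_fst hU)) (le_tr g3 (si_snd hU)))) g1⟩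

theorem ext_match (hU : Optimal U) (h : GWle ℓ U x y x' y') (h' : GWle ℓ U x' y' x y)
    (hx : Sk ℓ U x) (hy : Sk ℓ U y) {q : Ω → Str} {L : Ω → ℕ} (hL : Sm ℓ L)
    (hq : ∀ ω, (q ω).length ≤ L ω) : ∃ q' : Ω → Str, (∀ ω, (q' ω).length ≤ L ω) ∧
      (Le ℓ (fun ω => K U (q' ω) ()) (fun ω => K U (q ω) ()) ∧
        Le ℓ (fun ω => K U (q ω) ()) fun ω => K U (q' ω) ()) ∧
      (Le ℓ (fun ω => K U (x' ω, q' ω) ()) (fun ω => K U (x ω, q ω) ()) ∧
        Le ℓ (fun ω => K U (x ω, q ω) ()) fun ω => K U (x' ω, q' ω) ()) ∧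
      (Le ℓ (fun ω => K U (y' ω, q' ω) ()) (fun ω => K U (y ω, q ω) ()) ∧
        Le ℓ (fun ω => K U (y ω, q ω) ()) fun ω => K U (y' ω, q' ω) ()) ∧
      Le ℓ (fun ω => K U (x' ω, y' ω, q' ω) ()) (fun ω => K U (x ω, y ω, q ω) ()) ∧
        Le ℓ (fun ω => K U (x ω, y ω, q ω) ()) fun ω => K U (x' ω, y' ω, q' ω) () := by
  obtain ⟨b1, b2, b3⟩ := h.basic hU
  obtain ⟨c1, c2, c3⟩ := h'.basic hU
  have sq := sk_str hU hL hq
  have hx' : Sk ℓ U x' := sm_of_le b1 hx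
  have hy' : Sk ℓ U y' := sm_of_le b2 hy
  have sz := sk_pair hU hx hy
  have sz' := sk_pair hU hx' hy'
  obtain ⟨r, r1, r2, r3⟩ := lemmaA hU hx hy sq
  obtain ⟨r', s1, s2, s3⟩ := h.typed hU r
  have e1 := k_bayes hU sz sq
  have e2 := k_bayes hU sq sz
  have e3 := k_un (ℓ := ℓ) hU (a := q) (c := fun ω => (x ω, y ω))
  obtain ⟨p, p0, p1, p2, p3, p4, p5, p6⟩ := match_simple hU hx' hy' (r := r')
    (w := fun ω => K U (q ω) () - K U (q ω) (x ω, y ω)) (d := fun ω => K U (x ω, y ω) (q ω))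
    (by
      refine le_of_mul 10 ?_
      filter_upwards [e1, b3] with w e1 e4
      omega)
    (by
      refine le_of_mul 10 ?_
      filter_upwards [e2, c3, k_un hU (a := fun ω => (x ω, y ω)) (c := q)] with w e1 e4 e5
      omega)
    (by
      refine le_of_mul 10 ?_
      filter_upwards [s1, r1] with w e1 e4
      omega)
    (le_tr s2 r2) (le_tr s3 r3) (le_tr (k_un hU) c1) (k_si hU (si_fst hU)) (le_tr (k_un hU) c2)
    (k_si hU (si_snd hU))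
  choose v v1 v2 using fun ω => exists_hard hU (x' ω, y' ω) (K U (q ω) (x ω, y ω)) (range _)
    (card_range _).ge
  simp only [mem_range] at v1
  have sm : Sm ℓ fun ω => K U (q ω) (x ω, y ω) := sk_cd hU sq
  have sp := sk_si hU p0 sz'
  obtain ⟨n1, n2⟩ := noise hU sm v1 v2 sz' p0
  obtain ⟨n3, n4⟩ := noise hU sm v1 v2 sz' (si_pair hU p0 (si_fst hU))
  obtain ⟨n5, n6⟩ := noise hU sm v1 v2 sz' (si_pair hU p0 (si_snd hU))
  obtain ⟨n7, n8⟩ := noise hU sm v1 v2 sz' (si_refl hU)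
  have f1 : Le ℓ (fun ω => K U (p ω, v ω) ()) fun ω => K U (q ω) () := by
    refine le_of_mul 10 ?_
    filter_upwards [n1, p1, e3] with w e1 e2 e3
    omega
  obtain ⟨q', q0, q1, q2⟩ := exists_str hU (sm_of_le f1 sq)
    (le_tr f1 (le_tr (k_str hU) (le_of_le hq)))
  have up : ∀ {u : Ω → Str}, Le ℓ (fun ω => K U (u ω, q' ω) ()) fun ω => K U ((p ω, u ω), v ω) () :=
    k_si hU (si_pair hU (si_trans hU (si_snd hU) (si_fst hU)) (si_trans hU q1
      (si_pair hU (si_trans hU (si_fst hU) (si_fst hU)) (si_snd hU))))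
  have dn : ∀ {u : Ω → Str}, Le ℓ (fun ω => K U ((p ω, u ω), v ω) ()) fun ω => K U (u ω, q' ω) () :=
    k_si hU (si_pair hU (si_pair hU (si_trans hU (si_trans hU (si_fst hU) q2) (si_snd hU))
      (si_fst hU)) (si_trans hU (si_trans hU (si_snd hU) q2) (si_snd hU)))
  have sw : ∀ {u : Ω → Str}, Le ℓ (fun ω => K U (u ω, q ω) ()) fun ω => K U (q ω, u ω) () :=
    k_si hU (si_swap hU)
  have sw' : ∀ {u : Ω → Str}, Le ℓ (fun ω => K U (q ω, u ω) ()) fun ω => K U (u ω, q ω) () :=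
    k_si hU (si_swap hU)
  refine ⟨q', q0, ⟨le_tr (k_si hU q1) f1, le_of_mul 10 ?_⟩, ⟨le_of_mul 10 ?_, le_of_mul 10 ?_⟩,
    ⟨le_of_mul 10 ?_, le_of_mul 10 ?_⟩, le_of_mul 10 ?_, le_of_mul 10 ?_⟩
  · filter_upwards [k_si hU (c := fun _ => ()) q2, n2, p2] with w e1 e2 e3
    omega
  · filter_upwards [up (u := x'), n3, k_pair0 hU (b := x') sp, p1, p3, e3, k_symm0 hU sq hx,
      sw' (u := x)] with w e1 e2 e3 e4 e5 e6 e7 e8
    omega
  · filter_upwards [dn (u := x'), n4, k_symm0 hU sp hx', p2, p4, k_pair0 hU (b := x) sq,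
      sw (u := x)] with w e1 e2 e3 e4 e5 e6 e7
    omega
  · filter_upwards [up (u := y'), n5, k_pair0 hU (b := y') sp, p1, p5, e3, k_symm0 hU sq hy,
      sw' (u := y)] with w e1 e2 e3 e4 e5 e6 e7 e8
    omega
  · filter_upwards [dn (u := y'), n6, k_symm0 hU sp hy', p2, p6, k_pair0 hU (b := y) sq,
      sw (u := y)] with w e1 e2 e3 e4 e5 e6 e7
    omega
  · have g1 := k_si hU (c := fun _ => ()) (a := fun ω => ((x' ω, y' ω), v ω))
      (a' := fun ω => (x' ω, y' ω, q' ω)) (si_pair hU (si_trans hU (si_fst hU) (si_fst hU))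
      (si_pair hU (si_trans hU (si_snd hU) (si_fst hU)) (si_trans hU q1
        (si_pair hU (si_trans hU p0 (si_fst hU)) (si_snd hU)))))
    have g2 := k_si hU (c := fun _ => ()) (si_comp (ℓ := ℓ) hU
      (fun z : Str × Str × Str => ((z.1, z.2.1), z.2.2)) (by fun_prop)
      (b := fun ω => (x ω, y ω, q ω)) fun _ => rfl)
    filter_upwards [g1, g2, n7, b3, k_symm0 hU sz sq] with w e1 e2 e3 e4 e5
    omega
  · have g1 := k_si hU (c := fun _ => ()) (a' := fun ω => ((x' ω, y' ω), v ω))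
      (a := fun ω => (x' ω, y' ω, q' ω)) (si_pair hU (si_pair hU (si_fst hU)
      (si_trans hU (si_fst hU) (si_snd hU))) (si_trans hU (si_trans hU (si_snd hU) q2)
        (si_trans hU (si_snd hU) (si_snd hU))))
    have g2 := k_si hU (c := fun _ => ()) (si_comp (ℓ := ℓ) hU
      (fun z : (Str × Str) × Str => (z.1.1, z.1.2, z.2)) (by fun_prop)
      (b := fun ω => ((x ω, y ω), q ω)) fun _ => rfl)
    filter_upwards [g1, g2, n8, c3, k_pair0 hU (b := q) sz] with w e1 e2 e3 e4 e5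
    omega

theorem wy_match (hU : Optimal U) (h : GWle ℓ U x y x' y') (h' : GWle ℓ U x' y' x y)
    (hx : Sk ℓ U x) (hy : Sk ℓ U y) (q : Ω → Str) : ∃ q' : Ω → Str,
      Le ℓ (fun ω => K U (q' ω) ()) (fun ω => K U (q ω) ()) ∧
      Le ℓ (fun ω => K U (x' ω) (q' ω) + K U (y' ω) (q' ω) + K U (x ω, y ω) (q ω))
        fun ω => K U (x ω) (q ω) + K U (y ω) (q ω) + K U (x' ω, y' ω) (q' ω) := by
  obtain ⟨b1, b2, -⟩ := h.basic hU
  obtain ⟨-, -, c3⟩ := h'.basic hU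
  obtain ⟨s, hs⟩ : ∃ s : Ω → Str, ∀ ω, s ω = if K U (q ω) () ≤ K U (x ω) () then q ω else x ω :=
    ⟨_, fun _ => rfl⟩
  have s1 : ∀ ω, K U (s ω) () ≤ K U (q ω) () ∧ K U (s ω) () ≤ K U (x ω) () := fun ω => by
    rw [hs]
    split_ifs <;> omega
  have ss : Sk ℓ U s := sm_mono (fun ω => (s1 ω).2) hx
  have sz := sk_pair hU hx hy
  have sz' : Sk ℓ U fun ω => (x' ω, y' ω) := sk_pair hU (sm_of_le b1 hx) (sm_of_le b2 hy)
  obtain ⟨r, r1, r2, r3⟩ := lemmaA hU hx hy ss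
  obtain ⟨r', t1, t2, t3⟩ := h.typed hU r
  have t4 : Le ℓ (fun ω => K U (r' ω) ()) fun ω => K U (s ω) () :=
    le_tr t1 (le_tr (le_of_le fun ω => Nat.le_add_right _ _) r1)
  refine ⟨r', le_tr t4 (le_of_le fun ω => (s1 ω).1), le_of_mul 20 ?_⟩
  filter_upwards [r1, r2, r3, t1, t2, t3, c3, k_bayes hU ss sz, k_bayes hU sz' (sm_of_le t4 ss),
    k_pair hU (a := x) (b := y) (c := q) (Or.inl (sk_cd hU hx)),
    k_cd hU (a := y) (si_snd hU (a := x) (c := q)), si_refl hU (a := x),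
    k_si hU (c := x) (si_snd hU (a := x) (c := y))] with w e1 e2 e3 e4 e5 e6 e7 e8 e9 f1 f2 f3 f4
  have := hs w.1
  split_ifs at this <;> rw [this] at e1 e2 e3 e8 <;> omega

end Pool.Agent.Lib.MP_e57333_lc
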