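import Pool.Agent.Lib.MP_e57333_lc.Online

set_option autoImplicit false

/-! Muchnik's conditional description theorem. -/

namespace Pool.Agent.Lib.MP_e57333_lc

open Filter Finset

theorem pr_pi {σ : Type} {Φ : Finset σ} (T : ℕ) (p : Fin T → σ → Prop) :
    pr (Fintype.piFinset fun _ : Fin T => Φ) (fun f => ∀ s, p s (f s)) = ∏ s, pr Φ (p s) := by
  classical
  unfold pr
  rw [prod_div_distrib, ← Nat.cast_prod, ← Nat.cast_prod, ← Fintype.card_piFinset,
    ← Fintype.card_piFinset]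
  congr 3
  ext f
  simp only [mem_filter, Fintype.mem_piFinset]
  exact ⟨fun h s => ⟨h.1 s, h.2 s⟩, fun h => ⟨fun s => (h s).1, fun s => (h s).2⟩⟩

theorem pr_bunion {σ ι : Type} {Φ : Finset σ} (W : Finset ι) (bad : ι → σ → Prop) (q : σ → Prop)
    (h : ∀ x ∈ Φ, q x → ∃ w ∈ W, bad w x) : pr Φ q ≤ ∑ w ∈ W, pr Φ (bad w) := by
  classical
  unfold pr
  rw [← sum_div, ← Nat.cast_sum]
  gcongr
  refine le_trans (card_le_card fun x hx => ?_) card_biUnion_le
  obtain ⟨w, hw, hb⟩ := h x (mem_filter.1 hx).1 (mem_filter.1 hx).2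
  exact mem_biUnion.2 ⟨w, hw, mem_filter.2 ⟨(mem_filter.1 hx).1, hb⟩⟩

theorem pr_shrink (N k : ℕ) (S : Finset (Fin N)) (hS : S.card ≤ 2 ^ (k + 1)) :
    pr (Fintype.piFinset fun _ : Fin N => range (2 ^ (k + 4)))
      (fun f => 2 * (S.image f).card ≤ S.card) ≤ (1 / 2) ^ S.card := by
  obtain ⟨m, hm⟩ : ∃ m, m = S.card / 2 := ⟨_, rfl⟩
  obtain ⟨G, hG⟩ : ∃ G, G = 2 ^ (k + 4) := ⟨_, rfl⟩
  have hmG : 16 * m ≤ G := by rw [hG, pow_add] ; rw [pow_succ] at hS; omega
  have hG0 : (0 : ℝ) < G := by rw [hG]; positivity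
  rw [← hG]
  refine (pr_bunion (powersetCard m (range G)) (fun T f => ∀ s, s ∈ S → f s ∈ T) _
    fun f hf h => ?_).trans ?_
  · obtain ⟨T, h1, h2, h3⟩ := exists_subsuperset_card_eq (s := S.image f) (t := range G) (n := m)
      (fun v hv => by
        obtain ⟨s, -, rfl⟩ := mem_image.1 hv
        exact Fintype.mem_piFinset.1 hf s) (by omega) (by rw [card_range]; omega)
    exact ⟨T, mem_powersetCard.2 ⟨h2, h3⟩, fun s hs => h1 (mem_image_of_mem _ hs)⟩
  have h1 : ∀ T ∈ powersetCard m (range G), pr (Fintype.piFinset fun _ : Fin N => range G)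
      (fun f => ∀ s, s ∈ S → f s ∈ T) = ((m : ℝ) / G) ^ S.card := fun T hT => by
    rw [pr_pi N fun s v => s ∈ S → v ∈ T, ← prod_const, ← prod_subset (subset_univ S)]
    · refine prod_congr rfl fun s hs => ?_
      simp only [hs, true_imp_iff]
      rw [pr_mem, inter_eq_left.2 (mem_powersetCard.1 hT).1, (mem_powersetCard.1 hT).2, card_range]
    · intro s _ hs
      simp [hs, pr, hG0.ne']
  rw [sum_congr rfl h1, sum_const, card_powersetCard, card_range, nsmul_eq_mul]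
  obtain ⟨j, hj⟩ : ∃ j, S.card = m + j := ⟨S.card - m, by omega⟩
  have hx : (m : ℝ) / G ≤ 1 / 16 := by
    rw [div_le_div_iff₀ hG0 (by norm_num)]
    have : ((16 * m : ℕ) : ℝ) ≤ G := by exact_mod_cast hmG
    push_cast at this
    linarith
  have he : Real.exp 1 ≤ 4 := by linarith [Real.exp_one_lt_d9]
  calc (G.choose m : ℝ) * ((m : ℝ) / G) ^ S.card
      ≤ (G : ℝ) ^ m / m.factorial * ((m : ℝ) / G) ^ S.card := by
        gcongr
        exact Nat.choose_le_pow_div m G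
    _ = (m : ℝ) ^ m / m.factorial * ((m : ℝ) / G) ^ j := by
        rw [hj, pow_add, div_pow (m : ℝ) G m]
        field_simp
    _ ≤ Real.exp m * (1 / 16) ^ j := by
        gcongr
        exact Real.pow_div_factorial_le_exp _ (by positivity) m
    _ = Real.exp 1 ^ m * (1 / 16) ^ j := by rw [← Real.exp_nat_mul, mul_one]
    _ ≤ 4 ^ j * (1 / 16) ^ j := by
        gcongr
        exact (pow_le_pow_left₀ (Real.exp_pos _).le he m).trans
          (pow_le_pow_right₀ (by norm_num) (by omega))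
    _ = (1 / 2) ^ (2 * j) := by rw [← mul_pow, pow_mul]; norm_num
    _ ≤ (1 / 2) ^ S.card := pow_le_pow_of_le_one (by norm_num) (by norm_num) (by omega)

theorem exists_hash (n k : ℕ) : ∃ h : Fin (n + 1) → Fin (2 ^ n) → ℕ, (∀ r a, h r a < 2 ^ (k + 4)) ∧
    ∀ S : Finset (Fin (2 ^ n)), S.Nonempty → S.card ≤ 2 ^ (k + 1) →
      ∃ r, S.card < 2 * (S.image (h r)).card := by
  have hne : (range (2 ^ (k + 4))).Nonempty := by simp
  obtain ⟨h, h1, h2⟩ := pr_union (univ.filter fun S : Finset (Fin (2 ^ n)) =>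
    S.Nonempty ∧ S.card ≤ 2 ^ (k + 1))
    (fun S (h : Fin (n + 1) → Fin (2 ^ n) → ℕ) => ∀ r, 2 * (S.image (h r)).card ≤ S.card)
    (pi_ne (pi_ne hne _) (n + 1)) (by
      have e1 : ∀ S ∈ (univ.filter fun S : Finset (Fin (2 ^ n)) =>
          S.Nonempty ∧ S.card ≤ 2 ^ (k + 1)), pr (Fintype.piFinset fun _ : Fin (n + 1) =>
            Fintype.piFinset fun _ : Fin (2 ^ n) => range (2 ^ (k + 4)))
          (fun h => ∀ r, 2 * (S.image (h r)).card ≤ S.card) ≤ ((1 / 2) ^ (n + 1)) ^ S.card := by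
        intro S hS
        rw [pr_all (p := fun f : Fin (2 ^ n) → ℕ => 2 * (S.image f).card ≤ S.card), ← pow_mul,
          mul_comm, pow_mul]
        exact pow_le_pow_left₀ pr_nonneg (pr_shrink _ _ _ (mem_filter.1 hS).2.2) _
      refine (sum_le_sum e1).trans_lt ?_
      have e2 : ∑ S : Finset (Fin (2 ^ n)), (((1 : ℝ) / 2) ^ (n + 1)) ^ S.card =
          (1 + (1 / 2) ^ (n + 1)) ^ 2 ^ n := by
        have := prod_one_add (R := ℝ) (univ : Finset (Fin (2 ^ n)))
          (f := fun _ => ((1 : ℝ) / 2) ^ (n + 1))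
        simp only [prod_const, card_univ, Fintype.card_fin, powerset_univ] at this
        exact this.symm
      have e3 : (1 + ((1 : ℝ) / 2) ^ (n + 1)) ^ 2 ^ n < 2 := by
        calc (1 + ((1 : ℝ) / 2) ^ (n + 1)) ^ 2 ^ n ≤ Real.exp ((1 / 2) ^ (n + 1)) ^ 2 ^ n := by
              gcongr
              linarith [Real.add_one_le_exp (((1 : ℝ) / 2) ^ (n + 1))]
          _ = Real.exp (1 / 2) := by
              rw [← Real.exp_nat_mul]
              congr 1
              push_cast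
              rw [pow_succ, ← mul_assoc, ← mul_pow]
              norm_num
          _ < 2 := by
              have : Real.exp (1 / 2) ^ 2 < 2 ^ 2 := by
                rw [← Real.exp_nat_mul]
                norm_num
                linarith [Real.exp_one_lt_d9]
              exact lt_of_pow_lt_pow_left₀ 2 (by norm_num) this
      have e4 := sum_le_sum_of_subset_of_nonneg (s := univ.filter fun S : Finset (Fin (2 ^ n)) =>
          S.Nonempty ∧ S.card ≤ 2 ^ (k + 1)) (t := univ.erase ∅)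
        (f := fun S => (((1 : ℝ) / 2) ^ (n + 1)) ^ S.card)
        (fun S hS => mem_erase.2 ⟨(mem_filter.1 hS).2.1.ne_empty, mem_univ _⟩)
        fun _ _ _ => by positivity
      have e5 := add_sum_erase univ (fun S : Finset (Fin (2 ^ n)) =>
        (((1 : ℝ) / 2) ^ (n + 1)) ^ S.card) (mem_univ ∅)
      simp only [card_empty, pow_zero] at e5
      linarith)
  refine ⟨h, fun r a => mem_range.1 (Fintype.mem_piFinset.1 (Fintype.mem_piFinset.1 h1 r) a),
    fun S hS hS' => ?_⟩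
  have := h2 S (mem_filter.2 ⟨mem_univ _, hS, hS'⟩)
  push Not at this
  exact this

/-- all sublists -/
def subl (l : List ℕ) : List (List ℕ) :=
  l.foldr (fun a acc => acc ++ acc.map fun s => a :: s) [[]]

theorem subl_sub {l s : List ℕ} (h : s ∈ subl l) : s.Sublist l := by
  induction l generalizing s with
  | nil => simp [subl] at h; simp [h]
  | cons a l ih =>
    rcases List.mem_append.1 h with h | h
    · exact (ih h).cons a
    · obtain ⟨s, hs, rfl⟩ := List.mem_map.1 h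
      exact (ih hs).cons_cons a

theorem flt_mem_subl (l : List ℕ) (p : ℕ → Prop) : flt l p ∈ subl l := by
  induction l with
  | nil => simp [subl, flt]
  | cons a l ih =>
    by_cases h : p a
    · exact List.mem_append.2 (Or.inr (List.mem_map.2 ⟨_, ih, by simp [flt, h]⟩))
    · refine List.mem_append.2 (Or.inl ?_)
      have : flt (a :: l) p = flt l p := by simp [flt, h]
      exact this ▸ ih

/-- hash value read from a table -/
def hv (k : ℕ) (H : List (List ℕ)) (r a : ℕ) : ℕ := ((H[r]?.getD [])[a]?.getD 0) % 2 ^ (k + 4)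

@[fun_prop] theorem c_hv {σ : Type} [Primcodable σ] {k r a : σ → ℕ} {H : σ → List (List ℕ)}
    (hk : Computable k) (hH : Computable H) (hr : Computable r) (ha : Computable a) :
    Computable fun x => hv (k x) (H x) (r x) (a x) := by
  unfold hv
  fun_prop

def HashOK (n k : ℕ) (H : List (List ℕ)) : Prop :=
  Ball (subl (List.range (2 ^ n))) fun S => Imp (0 < S.length ∧ S.length ≤ 2 ^ (k + 1))
    (Bex (List.range (n + 1)) fun r => S.length <
      2 * (flt (List.range (2 ^ (k + 4))) fun v => Bex S fun a => hv k H r a = v).length)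

theorem cp_HashOK : ComputablePred fun x : (ℕ × ℕ) × List (List ℕ) × ℕ =>
    HashOK x.1.1 x.1.2 x.2.1 := by
  unfold HashOK subl
  fun_prop

theorem exists_HashOK (n k : ℕ) : ∃ H, HashOK n k H := by
  obtain ⟨h, h1, h2⟩ := exists_hash n k
  refine ⟨List.ofFn fun r => List.ofFn (h r), fun S hS hl => ?_⟩
  have hs := subl_sub hS
  have hnd : S.Nodup := hs.nodup List.nodup_range
  let S' : Finset (Fin (2 ^ n)) := univ.filter fun a => a.1 ∈ S
  have hc : S'.card = S.length := by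
    rw [← List.toFinset_card_of_nodup hnd, ← card_image_of_injective S' Fin.val_injective]
    congr 1
    ext a
    simp only [S', mem_image, mem_filter, mem_univ, true_and, List.mem_toFinset]
    exact ⟨by rintro ⟨b, hb, rfl⟩; exact hb,
      fun ha => ⟨⟨a, List.mem_range.1 (hs.subset ha)⟩, ha, rfl⟩⟩
  obtain ⟨r, hr⟩ := h2 S' (card_pos.1 (hc ▸ hl.1)) (hc ▸ hl.2)
  refine ⟨r, List.mem_range.2 r.2, hc ▸ hr.trans_le (Nat.mul_le_mul_left _
    (card_le_flt_len fun v hv' => ?_))⟩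
  obtain ⟨a, ha, rfl⟩ := mem_image.1 hv'
  refine ⟨List.mem_range.2 (h1 r a), a, (mem_filter.1 ha).2, ?_⟩
  simp [hv, r.2, a.2, Nat.mod_eq_of_lt (h1 r a), -List.ofFn_succ]

theorem hash_bad {n k d : ℕ} {H : List (List ℕ)} (hH : HashOK n k H) (A T : Finset ℕ)
    (hA : A.card ≤ 2 ^ (k + 1)) (hT : T ⊆ A) (hTn : ∀ a ∈ T, a < 2 ^ n)
    (hb : ∀ a ∈ T, ∀ r < n + 1, 2 ^ d < (A.filter fun a' => hv k H r a' = hv k H r a).card) :
    T.card ≤ 2 ^ (k + 2 - d) := by
  rcases T.eq_empty_or_nonempty with rfl | hne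
  · simp
  have e1 : T.card ≤ (flt (List.range (2 ^ n)) (· ∈ T)).length :=
    card_le_flt_len fun a ha => ⟨List.mem_range.2 (hTn a ha), ha⟩
  have e2 : (flt (List.range (2 ^ n)) (· ∈ T)).length ≤ T.card :=
    flt_len_le_card List.nodup_range fun a _ ha => ha
  obtain ⟨r, hr, h1⟩ := hH _ (flt_mem_subl _ (· ∈ T))
    ⟨hne.card_pos.trans_le e1, e2.trans ((card_le_card hT).trans hA)⟩
  have e3 := flt_len_le_card (l := List.range (2 ^ (k + 4))) (p := fun v =>
    Bex (flt (List.range (2 ^ n)) (· ∈ T)) fun a => hv k H r a = v) List.nodup_range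
    (T := T.image (hv k H r)) fun v _ ⟨a, ha, e⟩ => mem_image.2 ⟨a, (mem_flt.1 ha).2, e⟩
  have e4 : (T.image (hv k H r)).card * 2 ^ d ≤ 2 ^ (k + 1) := by
    refine le_trans ?_ ((sum_fiber_le (T.image (hv k H r)) A (hv k H r)).trans hA)
    refine card_nsmul_le_sum _ _ _ fun v hv' => ?_
    obtain ⟨a, ha, rfl⟩ := mem_image.1 hv'
    exact (hb a ha r (List.mem_range.1 hr)).le
  refine le_pow_sub ?_
  rw [pow_succ 2 (k + 1)]
  have e5 : T.card ≤ 2 * (T.image (hv k H r)).card := by omega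
  nlinarith [Nat.mul_le_mul_right (2 ^ d) e5]

variable {Ω : Type} {ℓ : Ω → ℕ} {U : Str → Str →. Str}
variable {α β : Type} [Primcodable α] [Primcodable β]

theorem si_fst (hU : Optimal U) {a : Ω → α} {c : Ω → β} : Si ℓ U a fun ω => (a ω, c ω) :=
  si_comp hU (fun x => x.1) (by fun_prop) fun _ => rfl

theorem si_snd (hU : Optimal U) {a : Ω → α} {c : Ω → β} : Si ℓ U c fun ω => (a ω, c ω) :=
  si_comp hU (fun x => x.2) (by fun_prop) fun _ => rfl

theorem muchnik_nat (hU : Optimal U) {a n : Ω → ℕ} {b : Ω → β} (hn : Sm ℓ n)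
    (ha : ∀ ω, a ω < 2 ^ n ω) : ∃ p : Ω → ℕ, (∀ ω, p ω < 2 ^ (K U (a ω) (b ω) + 4)) ∧
      Si ℓ U p a ∧ Si ℓ U a fun ω => (p ω, b ω) := by
  classical
  obtain ⟨k, hk⟩ : ∃ k : Ω → ℕ, ∀ ω, k ω = K U (a ω) (b ω) := ⟨_, fun _ => rfl⟩
  have hks : Sm ℓ k := sm_mono (fun ω => (hk ω).le) (sm_of_le (k_num hU (b := b) ha) hn)
  obtain ⟨Ap, hAp, hmono, hK⟩ := K_approx (α := ℕ) (β := β) hU
  obtain ⟨H, hH, hHs⟩ := k_choose (ℓ := ℓ) hU (fun (x : ℕ × ℕ) (H : List (List ℕ)) _ =>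
    HashOK x.1 x.2 H) cp_HashOK (b := fun ω => (n ω, k ω)) fun ω =>
      let ⟨H, hH⟩ := exists_HashOK (n ω) (k ω); ⟨H, 0, hH⟩
  replace hH : ∀ ω, HashOK (n ω) (k ω) (H ω) := fun ω => (hH ω).choose_spec
  replace hHs : Si ℓ U (fun ω => (H ω, n ω, k ω)) fun _ => () :=
    si_pair hU (si_trans hU hHs (si_pair hU (si_sm hU hn) (si_sm hU hks)))
      (si_pair hU (si_sm hU hn) (si_sm hU hks))
  let A : Ω → Finset ℕ := fun ω => (range (2 ^ n ω)).filter fun a' => K U a' (b ω) ≤ k ω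
  have hA : ∀ ω, (A ω).card ≤ 2 ^ (k ω + 1) := fun ω =>
    K_card hU _ _ _ fun a' ha' => (mem_filter.1 ha').2
  have hex : ∀ ω, ∃ d, ∃ r < n ω + 1,
      ((A ω).filter fun a' => hv (k ω) (H ω) r a' = hv (k ω) (H ω) r (a ω)).card ≤ 2 ^ d :=
    fun ω => ⟨k ω + 1, 0, by omega, (card_filter_le _ _).trans (hA ω)⟩
  let d : Ω → ℕ := fun ω => Nat.find (hex ω)
  have hd : ∀ ω, d ω ≤ k ω + 1 := fun ω =>
    Nat.find_min' _ ⟨0, by omega, (card_filter_le _ _).trans (hA ω)⟩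
  have hds : Sm ℓ d := sm_mono hd (sm_add hks (sm_const 1))
  choose r hr hr' using fun ω => Nat.find_spec (hex ω)
  have hrs : Sm ℓ r := sm_mono (fun ω => (hr ω).le) (sm_add hn (sm_const 1))
  have e1 := k_small (ℓ := ℓ) hU (fun (c : ((List (List ℕ) × ℕ × ℕ) × ℕ) × β) (a : ℕ) t =>
    a < 2 ^ c.1.1.2.1 ∧ Ap t a c.2 c.1.1.2.2 ∧ (c.1.2 = 0 ∨ Ball (List.range (c.1.1.2.1 + 1))
      fun r => 2 ^ (c.1.2 - 1) < (flt (List.range (2 ^ c.1.1.2.1)) fun a' => Ap t a' c.2 c.1.1.2.2 ∧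
        hv c.1.1.2.2 c.1.1.1 r a' = hv c.1.1.2.2 c.1.1.1 r a).length)) (by fun_prop) (a := a)
    (b := fun ω => (((H ω, n ω, k ω), d ω), b ω)) (s := fun ω => k ω + 2 - (d ω - 1))
    (fun ω T hT => by
      have hTA : T ⊆ A ω := fun a' ha' => by
        obtain ⟨t, h1, h2, -⟩ := hT a' ha'
        exact mem_filter.2 ⟨mem_range.2 h1, (hK _ _ _).2 ⟨t, h2⟩⟩
      by_cases h0 : d ω = 0
      · exact ((card_le_card hTA).trans (hA ω)).trans
          (Nat.pow_le_pow_right (by norm_num) (by omega))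
      refine hash_bad (hH ω) (A ω) T (hA ω) hTA
        (fun a' ha' => mem_range.1 (mem_filter.1 (hTA ha')).1) fun a' ha' r hr => ?_
      obtain ⟨t, -, -, h3⟩ := hT a' ha'
      refine ((h3.resolve_left h0) r (List.mem_range.2 hr)).trans_le
        (flt_len_le_card List.nodup_range fun a'' h4 h5 => mem_filter.2 ⟨mem_filter.2
          ⟨mem_range.2 (List.mem_range.1 h4), (hK _ _ _).2 ⟨t, h5.1⟩⟩, h5.2⟩))
    fun ω => by
      choose! f hf using fun a' (h : a' ∈ A ω) => (hK _ _ _).1 (mem_filter.1 h).2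
      have h1 : ∀ a' ∈ A ω, Ap ((A ω).sup f) a' (b ω) (k ω) := fun a' h =>
        hmono _ _ _ _ _ (le_sup h) (hf a' h)
      refine ⟨(A ω).sup f, ha ω, h1 _ (mem_filter.2 ⟨mem_range.2 (ha ω), (hk ω).ge⟩), ?_⟩
      by_cases h0 : d ω = 0
      · exact Or.inl h0
      refine Or.inr fun r hr => ?_
      have h2 := Nat.find_min (hex ω) (m := d ω - 1) (by show d ω - 1 < d ω; omega)
      push Not at h2
      refine (h2 r (List.mem_range.1 hr)).trans_le (card_le_flt_len fun a' h => ?_)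
      have h3 := mem_filter.1 h
      exact ⟨List.mem_range.2 (mem_range.1 (mem_filter.1 h3.1).1), h1 _ h3.1, h3.2⟩
  have e2 := k_mono hU (a := a) (c' := b) (si_fst hU) (si_pair hU
    (si_pair hU (si_trans hU hHs (si_unit hU)) (si_sm hU hds)) (si_refl hU))
  have e3 := k_small (ℓ := ℓ) hU (fun (c : ((List (List ℕ) × ℕ × ℕ) × ℕ) × ℕ × β) (a : ℕ) t =>
    a < 2 ^ c.1.1.2.1 ∧ Ap t a c.2.2 c.1.1.2.2 ∧ hv c.1.1.2.2 c.1.1.1 c.1.2 a = c.2.1)
    (by fun_prop) (a := a)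
    (b := fun ω => (((H ω, n ω, k ω), r ω), hv (k ω) (H ω) (r ω) (a ω), b ω)) (s := d)
    (fun ω T hT => le_trans (card_le_card fun a' ha' => by
      obtain ⟨t, h1, h2, h3⟩ := hT a' ha'
      exact mem_filter.2 ⟨mem_filter.2 ⟨mem_range.2 h1, (hK _ _ _).2 ⟨t, h2⟩⟩, h3⟩) (hr' ω))
    fun ω => by
      obtain ⟨t, ht⟩ := (hK (a ω) (b ω) (k ω)).1 (hk ω).ge
      exact ⟨t, ha ω, ht, rfl⟩
  have e4 := k_mono hU (a := a) (c' := fun ω => (hv (k ω) (H ω) (r ω) (a ω), b ω)) (si_fst hU)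
    (si_pair hU (si_pair hU (si_trans hU hHs (si_unit hU)) (si_sm hU hrs)) (si_refl hU))
  refine ⟨fun ω => hv (k ω) (H ω) (r ω) (a ω), fun ω => hk ω ▸ Nat.mod_lt _ (by positivity),
    si_map hU (fun x : ((List (List ℕ) × ℕ × ℕ) × ℕ) × ℕ => hv x.1.1.2.2 x.1.1.1 x.1.2 x.2)
      (by fun_prop) (si_pair hU (si_pair hU (si_trans hU hHs (si_unit hU)) (si_sm hU hrs))
        (si_refl hU)) fun _ => rfl, le_of_mul 10 ?_⟩
  filter_upwards [e1, e2, e3, e4, ev_ge 3] with z e1 e2 e3 e4 e5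
  have := hk z.1
  have := hd z.1
  omega

theorem muchnik (hU : Optimal U) {a : Ω → α} {b : Ω → β} (ha : Sm ℓ fun ω => K U (a ω) ()) :
    ∃ p s : Ω → ℕ, (∀ ω, p ω < 2 ^ s ω) ∧ Le ℓ s (fun ω => K U (a ω) (b ω)) ∧
      Si ℓ U p a ∧ Si ℓ U a fun ω => (p ω, b ω) := by
  obtain ⟨a0, h1, h2, h3⟩ := k_short hU ha
  obtain ⟨p, h4, h5, h6⟩ := muchnik_nat hU (b := b) (sm_add ha (sm_const 1)) h1
  have h7 : Si ℓ U a0 a := si_trans hU h3 (si_pair hU (si_refl hU) (si_unit hU))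
  have e1 := k_mono hU (a := a) (c := b) (c' := b) (si_trans hU h7 (si_fst hU)) (si_refl hU)
  refine ⟨p, _, h4, le_of_mul 2 ?_, si_trans hU h5 h7,
    si_trans hU h2 (si_pair hU h6 (si_unit hU))⟩
  filter_upwards [e1, ev_ge 4] with z e1 e2
  omega

end Pool.Agent.Lib.MP_e57333_lc
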