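import Pool.Agent.Lib.MP_e57333_lc.Match

set_option autoImplicit false

/-! Counterexamples. -/

namespace Pool.Agent.Lib.MP_e57333_lc

open Filter Finset

variable {Ω : Type} {ℓ : Ω → ℕ} {U : Str → Str →. Str}
variable {α β γ : Type} [Primcodable α] [Primcodable β] [Primcodable γ]

theorem slope {a b a' b' t : ℕ} (h : a * t + b = a' * t + b') (hne : (a', b') ≠ (a, b)) :
    (b - b' + (b' - b)) / (a - a' + (a' - a)) = t := by
  rcases lt_trichotomy a a' with h1 | rfl | h1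
  · obtain ⟨d, rfl⟩ := Nat.exists_eq_add_of_lt h1
    have h2 : b = (d + 1) * t + b' := by nlinarith
    rw [show a - (a + d + 1) + (a + d + 1 - a) = d + 1 by omega,
      show b - b' + (b' - b) = (d + 1) * t by omega]
    simp
  · exact absurd (by simp; omega) hne
  · obtain ⟨d, rfl⟩ := Nat.exists_eq_add_of_lt h1
    have h2 : b' = (d + 1) * t + b := by nlinarith
    rw [show a' + d + 1 - a' + (a' - (a' + d + 1)) = d + 1 by omega,
      show b - b' + (b' - b) = (d + 1) * t by omega]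
    simp

theorem k22_core (hU : Optimal U) {N a b t r : Ω → ℕ} {q : Ω → Str} (hN : Sm ℓ N)
    (ha : ∀ ω, a ω < 2 ^ (2 * N ω)) (hb : ∀ ω, b ω < 2 ^ (3 * N ω)) (hr : ∀ ω, r ω < 2 ^ N ω)
    (hX : Sk ℓ U fun ω => (t ω, a ω * t ω + b ω, r ω))
    (hz : Le ℓ (fun ω => 7 * N ω) fun ω => K U ((t ω, a ω * t ω + b ω, r ω), a ω, b ω) ())
    (h0 : Le ℓ (fun ω => K U (q ω) ()) fun ω => 4 * N ω)
    (h1 : Le ℓ (fun ω => K U (t ω, a ω * t ω + b ω, r ω) (q ω)) fun ω => 2 * N ω)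
    (h2 : Le ℓ (fun ω => K U (a ω, b ω) (q ω)) N) : Le ℓ N fun _ => 0 := by
  classical
  obtain ⟨X, hXe⟩ : ∃ X : Ω → ℕ × ℕ × ℕ, ∀ ω, (t ω, a ω * t ω + b ω, r ω) = X ω := ⟨_, fun _ => rfl⟩
  obtain ⟨Y, hYe⟩ : ∃ Y : Ω → ℕ × ℕ, ∀ ω, (a ω, b ω) = Y ω := ⟨_, fun _ => rfl⟩
  simp only [hXe, hYe] at hX hz h1 h2
  obtain ⟨A, hA, hm, hK⟩ := K_approx (α := ℕ × ℕ) (β := Str) hU
  let V : Ω → Finset (ℕ × ℕ) := fun ω => (range (2 ^ (2 * N ω)) ×ˢ range (2 ^ (3 * N ω))).filter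
    fun p => p.1 * t ω + p.2 = a ω * t ω + b ω ∧ K U p (q ω) ≤ K U (Y ω) (q ω)
  have hV : ∀ ω, (V ω).card ≠ 0 := fun ω => card_ne_zero_of_mem (a := Y ω) (mem_filter.2
    ⟨hYe ω ▸ mem_product.2 ⟨mem_range.2 (ha ω), mem_range.2 (hb ω)⟩, hYe ω ▸ rfl, le_rfl⟩)
  obtain ⟨j, j1, j2⟩ : ∃ j : Ω → ℕ, (∀ ω, 2 ^ j ω ≤ (V ω).card) ∧
      ∀ ω, (V ω).card < 2 ^ (j ω + 1) := ⟨fun ω => Nat.log 2 (V ω).card,
    fun ω => Nat.pow_log_le_self 2 (hV ω), fun ω => Nat.lt_pow_succ_log_self (by norm_num) _⟩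
  have sq : Sk ℓ U q := sm_of_le h0 (sm_mul (sm_const 4) hN)
  have sB : Sm ℓ fun ω => K U (Y ω) (q ω) := sm_of_le h2 hN
  have sY : Sk ℓ U Y := sm_of_le (k_trans hU (a := q) (Or.inl sq))
    (sm_add sq (sm_of_le (k_cd hU (si_fst hU)) sB))
  have e1 := k_small (ℓ := ℓ) hU (fun (c : ((ℕ × ℕ × ℕ) × Str) × ℕ × ℕ) (p : ℕ × ℕ) w =>
    p.1 < 2 ^ (2 * c.2.1) ∧ p.2 < 2 ^ (3 * c.2.1) ∧ p.1 * c.1.1.1 + p.2 = c.1.1.2.1 ∧
      A w p c.1.2 c.2.2) (by fun_prop) (a := Y)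
    (b := fun ω => ((X ω, q ω), N ω, K U (Y ω) (q ω))) (s := fun ω => j ω + 1)
    (fun ω T hT => le_trans (card_le_card fun p hp => by
      obtain ⟨w, h1, h2, h3, h4⟩ := hT p hp
      rw [← hXe] at h3
      exact mem_filter.2 ⟨mem_product.2 ⟨mem_range.2 h1, mem_range.2 h2⟩, h3,
        (hK _ _ _).2 ⟨w, h4⟩⟩) (j2 ω).le)
    fun ω => by
      obtain ⟨w, hw⟩ := (hK (Y ω) (q ω) _).1 le_rfl
      refine ⟨w, hYe ω ▸ ha ω, hYe ω ▸ hb ω, ?_, hw⟩
      rw [← hXe, ← hYe]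
  have e2 := k_cd hU (a := Y) (c' := fun ω => (X ω, q ω))
    (si_pair hU (si_refl hU) (si_pair hU (si_sm hU hN) (si_sm hU sB)))
  choose Z Z1 Z2 using fun ω => exists_hard hU (q ω, X ω, Y ω) (j ω) (V ω) (j1 ω)
  have Z3 : ∀ ω, K U (Z ω) (q ω) ≤ K U (Y ω) (q ω) := fun ω => (mem_filter.1 (Z1 ω)).2.2
  have sZ : Sk ℓ U Z := sm_of_le (k_trans hU (a := q) (Or.inl sq))
    (sm_add sq (sm_of_le (le_tr (k_cd hU (si_fst hU)) (le_of_le Z3)) sB))
  let F : ℕ × (ℕ × ℕ) × ℕ × ℕ → ℕ × ℕ × ℕ := fun z =>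
    ((z.2.1.2 - z.2.2.2 + (z.2.2.2 - z.2.1.2)) / (z.2.1.1 - z.2.2.1 + (z.2.2.1 - z.2.1.1)),
      z.2.1.1 * ((z.2.1.2 - z.2.2.2 + (z.2.2.2 - z.2.1.2)) /
        (z.2.1.1 - z.2.2.1 + (z.2.2.1 - z.2.1.1))) + z.2.1.2, z.1)
  have hF : ∀ ω, Z ω ≠ Y ω → F (r ω, Y ω, Z ω) = X ω := fun ω h => by
    rw [← hYe] at h
    have := slope (mem_filter.1 (Z1 ω)).2.1.symm h
    simp only [F, ← hYe, ← hXe, this]
  have e3 := k_mono hU (a := r) (c := fun _ => ()) (c' := fun ω => ((q ω, Y ω), Z ω))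
    (si_comp (ℓ := ℓ) hU (fun z => F (z.1, z.2.1.2, z.2.2)) (by simp only [F]; fun_prop)
      fun _ => rfl) (si_unit hU)
  have e4 := k_num (ℓ := ℓ) hU hr (b := fun _ => ())
  have e5 := k_si hU (c := fun ω => (q ω, X ω, Y ω)) (si_refl (ℓ := ℓ) hU (a := Y))
  have e6 : Si ℓ U Y fun ω => (q ω, X ω, Y ω) := si_trans hU (si_snd hU) (si_snd hU)
  have f1 := k_symm0 hU (sk_pair hU sq (sk_pair hU hX sY)) sZ
  have f2 := k_si hU (c := fun _ => ()) (si_snd (ℓ := ℓ) hU (a := q) (c := fun ω => (X ω, Y ω)))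
  have f3 := k_si hU (c := fun _ => ()) (si_comp (ℓ := ℓ) hU
    (fun z : ((Str × ℕ × ℕ) × ℕ × ℕ) × ℕ × ℕ × ℕ => ((z.1.1.1, z.2, z.1.1.2), z.1.2))
    (by fun_prop) (b := fun ω => (((q ω, Y ω), Z ω), X ω)) fun _ => rfl)
  have f4 := k_pair0 hU (b := X) (sk_pair hU (sk_pair hU sq sY) sZ)
  have f5 := k_pair0 hU (b := Z) (sk_pair hU sq sY)
  have f6 := k_pair0 hU (b := Y) sq
  have f7 := k_cd hU (a := Z) (si_fst (ℓ := ℓ) hU (a := q) (c := Y))
  have g1 := k_trans hU (a := q) (b := fun ω => (X ω, Y ω)) (c := fun _ => ()) (Or.inl sq)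
  have g2 := k_cd hU (a := fun ω => (X ω, Y ω)) (si_fst (ℓ := ℓ) hU (a := q) (c := fun _ => ()))
  have g3 := k_pair hU (a := X) (b := Y) (c := q) (Or.inl (sk_cd hU hX))
  refine le_of_mul 40 ?_
  filter_upwards [hz, h0, h1, h2, e1, e2, e3, e4, e6, f1, f2, f3, f4, f5, f6, f7, g1, g2, g3,
    ev_ge 1] with w hz h0 h1 h2 e1 e2 e3 e4 e6 f1 f2 f3 f4 f5 f6 f7 g1 g2 g3 e0
  have z2 := Z2 w.1
  have z3 := Z3 w.1
  by_cases h : Z w.1 = Y w.1
  · rw [h] at z2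
    omega
  · rw [hF _ h] at e3
    omega

theorem k22 (hU : Optimal U) {N : Ω → ℕ} (hN : Sm ℓ N) : ∃ x y q : Ω → Str,
    (∀ ω, (x ω).length ≤ 5 * N ω) ∧ (∀ ω, (y ω).length ≤ 5 * N ω) ∧
    (∀ ω, (q ω).length ≤ 5 * N ω) ∧ Le ℓ (fun ω => K U (x ω) ()) (fun ω => K U (y ω) ()) ∧
    Le ℓ (fun ω => K U (y ω) ()) (fun ω => K U (x ω) ()) ∧
    ∀ q' : Ω → Str, Le ℓ (fun ω => K U (q' ω) ()) (fun ω => K U (q ω) ()) →
      Le ℓ (fun ω => K U (y ω) (q' ω)) (fun ω => K U (x ω) (q ω)) →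
      Le ℓ (fun ω => K U (x ω) (q' ω)) (fun ω => K U (y ω) (q ω)) → Le ℓ N fun _ => 0 := by
  choose z z1 z2 using fun ω => exists_hard hU () (7 * N ω) ((range (2 ^ (2 * N ω)) ×ˢ
    range (2 ^ (3 * N ω))) ×ˢ range (2 ^ N ω) ×ˢ range (2 ^ N ω)) (by
      simp only [card_product, card_range, ← pow_add]
      exact Nat.pow_le_pow_right (by norm_num) (by omega))
  simp only [mem_product, mem_range] at z1
  obtain ⟨a, b, t, r, rfl⟩ : ∃ a b t r : Ω → ℕ, z = fun ω => ((a ω, b ω), t ω, r ω) :=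
    ⟨_, _, _, _, rfl⟩
  have ha := fun ω => (z1 ω).1.1
  have hb := fun ω => (z1 ω).1.2
  have ht := fun ω => (z1 ω).2.1
  have hr := fun ω => (z1 ω).2.2
  simp only at ha hb ht hr z2
  have hc : ∀ ω, a ω * t ω + b ω < 2 ^ (3 * N ω + 1) := fun ω => by
    have h1 := Nat.mul_lt_mul'' (ha ω) (ht ω)
    rw [← pow_add, show 2 * N ω + N ω = 3 * N ω by ring] at h1
    have := hb ω
    rw [pow_succ]
    omega
  have s2 : Sm ℓ fun ω => 2 * N ω := sm_mul (sm_const 2) hN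
  have s3 : Sm ℓ fun ω => 3 * N ω := sm_mul (sm_const 3) hN
  have s5 : Sm ℓ fun ω => 5 * N ω := sm_mul (sm_const 5) hN
  have sa := sk_num hU ha s2
  have st := sk_num hU ht hN
  have sc := sk_num hU hc (sm_add s3 (sm_const 1))
  have sP := sk_pair hU st sc
  have kP : Le ℓ (fun ω => K U (t ω, a ω * t ω + b ω) ()) fun ω => 4 * N ω := by
    refine le_of_mul 4 ?_
    filter_upwards [k_pair0 hU (b := fun ω => a ω * t ω + b ω) st, k_num hU ht (b := fun _ => ()),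
      k_num hU hc (b := t), ev_ge 1] with w e1 e2 e3 e4
    omega
  have kXP : Le ℓ (fun ω => K U (t ω, a ω * t ω + b ω, r ω) (t ω, a ω * t ω + b ω)) N :=
    le_tr (k_map hU (fun z : ℕ × ℕ × ℕ => (z.2.1, z.2.2, z.1)) (by fun_prop) fun _ => rfl)
      (k_num hU hr)
  have kYP : Le ℓ (fun ω => K U (a ω, b ω) (t ω, a ω * t ω + b ω)) fun ω => 2 * N ω :=
    le_tr (k_map hU (fun z : ℕ × ℕ × ℕ => (z.1, z.2.2 - z.1 * z.2.1)) (by fun_prop)
      fun _ => by simp) (k_num hU ha)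
  have kX : Le ℓ (fun ω => K U (t ω, a ω * t ω + b ω, r ω) ()) fun ω => 5 * N ω := by
    refine le_of_mul 4 ?_
    filter_upwards [k_trans hU (b := fun ω => (t ω, a ω * t ω + b ω, r ω)) (Or.inl sP), kP, kXP,
      k_cd hU (a := fun ω => (t ω, a ω * t ω + b ω, r ω))
      (si_fst hU (a := fun ω => (t ω, a ω * t ω + b ω)) (c := fun _ => ()))] with w e1 e2 e3 e4
    omega
  have kY : Le ℓ (fun ω => K U (a ω, b ω) ()) fun ω => 5 * N ω := by
    refine le_of_mul 4 ?_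
    filter_upwards [k_pair0 hU (b := b) sa, k_num hU ha (b := fun _ => ()), k_num hU hb (b := a)]
      with w e1 e2 e3
    omega
  have sX := sm_of_le kX s5
  have sY := sm_of_le kY s5
  have kX' : Le ℓ (fun ω => 5 * N ω) fun ω => K U (t ω, a ω * t ω + b ω, r ω) () := by
    refine le_of_mul 5 ?_
    filter_upwards [k_pair0 hU (b := a) sX, k_num hU ha (b := fun ω => (t ω, a ω * t ω + b ω, r ω)),
      k_si hU (c := fun _ => ()) (a' := fun ω => ((a ω, b ω), t ω, r ω)) (si_comp hU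
        (fun z : (ℕ × ℕ × ℕ) × ℕ => ((z.2, z.1.2.1 - z.2 * z.1.1), z.1.1, z.1.2.2)) (by fun_prop)
        (b := fun ω => ((t ω, a ω * t ω + b ω, r ω), a ω)) fun _ => by simp), ev_ge 1]
      with w e1 e2 e3 e4
    have := z2 w.1
    omega
  have kY' : Le ℓ (fun ω => 5 * N ω) fun ω => K U (a ω, b ω) () := by
    refine le_of_mul 5 ?_
    filter_upwards [k_pair0 hU (b := fun ω => (t ω, r ω)) sY,
      k_pair hU (a := t) (b := r) (c := fun ω => (a ω, b ω)) (Or.inl (sk_cd hU st)),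
      k_num hU ht (b := fun ω => (a ω, b ω)), k_num hU hr (b := fun ω => (t ω, a ω, b ω)), ev_ge 1]
      with w e1 e2 e3 e4 e5
    have := z2 w.1
    omega
  obtain ⟨x, x0, x1, x2⟩ := exists_str hU sX kX
  obtain ⟨y, y0, y1, y2⟩ := exists_str hU sY kY
  obtain ⟨q, q0, q1, q2⟩ := exists_str hU sP (L := fun ω => 5 * N ω)
    (le_tr kP (le_of_le fun ω => by omega))
  refine ⟨x, y, q, x0, y0, q0, le_tr (k_si hU x1) (le_tr kX (le_tr kY' (k_si hU y2))),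
    le_tr (k_si hU y1) (le_tr kY (le_tr kX' (k_si hU x2))), fun q' h0 h1 h2 => ?_⟩
  refine k22_core hU (q := q') hN ha hb hr sX (le_of_mul 2 ?_) (le_tr h0 (le_tr (k_si hU q1) kP))
    (le_tr (k_si hU x2) (le_tr h2 (le_tr (k_mono hU (si_trans hU y1 (si_fst hU)) q2) kYP)))
    (le_tr (k_si hU y2) (le_tr h1 (le_tr (k_mono hU (si_trans hU x1 (si_fst hU)) q2) kXP)))
  filter_upwards [k_si hU (c := fun _ => ()) (a' := fun ω => ((a ω, b ω), t ω, r ω)) (si_comp hU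
    (fun z : (ℕ × ℕ × ℕ) × ℕ × ℕ => (z.2, z.1.1, z.1.2.2)) (by fun_prop)
    (b := fun ω => ((t ω, a ω * t ω + b ω, r ω), a ω, b ω)) fun _ => rfl), ev_ge 1] with w e1 e2
  have := z2 w.1
  omega

theorem gw_nil (hU : Optimal U) {x x' : Ω → Str} (hx : Sk ℓ U x)
    (h : Le ℓ (fun ω => K U (x' ω) ()) fun ω => K U (x ω) ()) :
    GWle ℓ U x (fun _ => []) x' fun _ => [] := by
  intro r
  obtain ⟨g, g1, -, g3⟩ := k_split hU (sm_of_le h hx) (sk_cd hU (c := r) hx)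
  refine ⟨fun ω => code (g ω), le_of_mul 10 ?_,
    le_tr (k_cd hU (si_pair hU (si_code hU).2 (si_unit hU))) g3,
    le_tr (si_comp hU (fun _ => []) (by fun_prop) fun _ => rfl) (le_of_le fun _ => Nat.zero_le _)⟩
  filter_upwards [k_si hU (c := fun _ => ()) (si_code hU (a := g)).1, k_num hU g1 (b := fun _ => ()),
    h, k_trans hU (a := r) (b := x) (c := fun _ => ()) (Or.inr (sk_cd hU hx)),
    k_cd hU (a := x) (si_fst hU (a := r) (c := fun _ => ())), ev_ge 1] with w e1 e2 e3 e4 e5 e6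
  omega

theorem exists_hard_str (hU : Optimal U) (s : ℕ) : ∃ p : Str, p.length = s ∧ s ≤ K U p () + 1 := by
  choose! f h1 h2 using exists_bits s
  obtain ⟨p, hp, h⟩ := exists_hard hU () s ((range (2 ^ s)).image f) (by
    rw [card_image_of_injOn, card_range]
    intro m hm m' hm' e
    rw [← h2 m (mem_range.1 hm), e, h2 m' (mem_range.1 hm')])
  obtain ⟨m, hm, rfl⟩ := mem_image.1 hp
  exact ⟨_, h1 m (mem_range.1 hm), h⟩

theorem huge (hU : Optimal U) {n : Ω → ℕ} (hn : Sm ℓ n) : ∃ x x' q : Ω → Str,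
    (∀ ω, (x ω).length ≤ n ω) ∧ (∀ ω, (x' ω).length ≤ n ω) ∧
    Le ℓ (fun ω => K U (x' ω) ()) (fun ω => K U (x ω) ()) ∧
    Le ℓ (fun ω => K U (x ω) ()) (fun ω => K U (x' ω) ()) ∧
    ∀ q' : Ω → Str, Le ℓ (fun ω => K U (q' ω) ()) (fun ω => K U (q ω) ()) →
      Le ℓ (fun ω => K U (q ω) ()) (fun ω => K U (q' ω) ()) →
      Le ℓ (fun ω => K U (x ω, q ω) ()) (fun ω => K U (x' ω, q' ω) ()) → Le ℓ n fun _ => 0 := by
  choose x' a1 a2 using fun ω => exists_hard_str hU (n ω)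
  choose z z1 z2 using fun ω => exists_hard_str hU (n ω + val 1 (x' ω))
  obtain ⟨x, hx⟩ : ∃ x : Ω → Str, ∀ ω, x ω = (z ω).take (n ω) := ⟨_, fun _ => rfl⟩
  obtain ⟨q, hq⟩ : ∃ q : Ω → Str, ∀ ω, q ω = (z ω).drop (n ω) := ⟨_, fun _ => rfl⟩
  have x1 : ∀ ω, (x ω).length ≤ n ω := fun ω => by simp [hx]
  have q1 : ∀ ω, (q ω).length = val 1 (x' ω) := fun ω => by simp [hq, z1]
  have sx := sk_str hU hn x1
  have e1 := k_si hU (c := fun _ => ()) (a' := z) (si_comp (ℓ := ℓ) hU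
    (fun z : Str × Str => z.1 ++ z.2) (by fun_prop) (b := fun ω => (x ω, q ω))
    fun ω => by simp [hx, hq])
  refine ⟨x, x', q, x1, fun ω => (a1 ω).le, le_of_mul 10 ?_, le_of_mul 10 ?_,
    fun q' h1 h2 h3 => ?_⟩
  · filter_upwards [e1, k_pair0 hU (b := q) sx, k_str hU (p := q) (c := x),
      k_str hU (p := x') (c := fun _ => ()), ev_ge 1] with w e1 e2 e3 e4 e5
    have := z2 w.1
    have := q1 w.1
    have := a1 w.1
    omega
  · filter_upwards [k_str hU (p := x) (c := fun _ => ()), ev_ge 1] with w e1 e2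
    have := a2 w.1
    have := x1 w.1
    omega
  have e2 := k_str (ℓ := ℓ) hU (p := q) (c := fun _ => ())
  have e3 : Le ℓ (fun ω => val 1 (x' ω)) fun ω => K U (q ω) () := by
    refine le_of_mul 10 ?_
    filter_upwards [e1, k_si hU (c := fun _ => ()) (si_swap hU (a := x) (b := q)),
      k_pair hU (a := q) (b := x) (c := fun _ => ()) (Or.inr (sk_cd hU sx)),
      k_str hU (p := x) (c := fun ω => (q ω, ())), ev_ge 1] with w e1 e2 e3 e4 e5
    have := z2 w.1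
    have := x1 w.1
    omega
  choose p p1 p2 using fun ω => C_spec hU (code (q' ω)) (code ())
  obtain ⟨g, hg, hg'⟩ := exists_inv (c_code (α := Str)) code_inj
  have b1 : Si ℓ U q' p := si_part hU (D := fun p => (U p (code ())).bind g)
    (Partrec.bind (hU.1.comp Computable.id (Computable.const _)) (hg.comp Computable.snd).to₂)
    fun ω => Part.mem_bind_iff.2 ⟨_, p2 ω, (hg' _ _).2 rfl⟩
  have p3 : ∀ ω, (p ω).length = K U (q' ω) () := p1
  have b2 : Si ℓ U (fun ω => val 1 (x' ω)) p := by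
    refine si_map hU (fun z : Str × ℕ × ℕ => z.1.length + z.2.1 - z.2.2) (by fun_prop)
      (si_pair hU (si_refl hU) (si_pair hU
        (si_sm hU (m := fun ω => val 1 (x' ω) - (p ω).length) (sm_of_le (le_of_mul 3 ?_)
          (sm_const 0))) (si_sm hU (m := fun ω => (p ω).length - val 1 (x' ω))
          (sm_of_le (le_of_mul 3 ?_) (sm_const 0))))) fun ω => by simp only; omega
    · filter_upwards [e3, h2] with w e3 h2
      have := p3 w.1
      omega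
    · filter_upwards [e2, h1] with w e3 h2
      have := p3 w.1
      have := q1 w.1
      omega
  refine le_of_mul 10 ?_
  filter_upwards [e1, e2, h1, h3, k_si hU (c := fun _ => ())
    (si_pair hU (si_trans hU (si_val hU) b2) b1), k_str hU (p := p) (c := fun _ => ()), ev_ge 1]
    with w e1 e2 h1 h3 e4 e5 e6
  have := p3 w.1
  have := q1 w.1
  have := z2 w.1
  omega

end Pool.Agent.Lib.MP_e57333_lc
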