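import Pool.Agent.Lib.MP_e57333_lc.Game
import Pool.Agent.Lib.MP_e57333_lc.Fam

set_option autoImplicit false

/-! The strategy as a finite table, and its use along a computable enumeration. -/

namespace Pool.Agent.Lib.MP_e57333_lc

open Filter

abbrev Nam := ℕ × ℕ × ℕ
abbrev Out := List Nam × List (Nam × ℕ) × List (Nam × ℕ)
abbrev Par := ℕ × ℕ × ℕ × ℕ × ℕ

def Cnt (k α β : ℕ) (h : List Evt) : Prop :=
  Ball (List.range (2 ^ k)) fun i => (flt h fun e => e.1 = true ∧ e.2.1 = i).length ≤ 2 ^ α ∧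
    (flt h fun e => e.1 = false ∧ e.2.1 = i).length ≤ 2 ^ β

def Good (k α β n m : ℕ) (h : List Evt) (o : Out) : Prop :=
  (Ball (List.range (β + 1)) fun b =>
    (flt o.1 fun z => z.1 = b).length * 2 ^ m * 2 ^ b ≤ 2 ^ (k + β) * Qg k β n) ∧
  (Ball o.1 fun z => (flt o.2.1 fun w => w.1 = z).length ≤ 2 ^ z.1) ∧
  o.2.2.length * 2 ^ m ≤ 2 ^ (k + α) * Qg k β n ∧
  Ball (List.range (2 ^ n)) fun x => Ball (List.range (2 ^ n)) fun y =>
    Imp (2 ^ m ≤ (flt (List.range (2 ^ k)) fun i => (true, i, x) ∈ h ∧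
      h.idxOf (false, i, y) < h.idxOf (true, i, x)).length)
      (Bex o.1 fun z => z.1 ≤ β ∧ (z, x) ∈ o.2.2 ∧ (z, y) ∈ o.2.1)

def Sub (o o' : Out) : Prop :=
  (Ball o.1 fun z => z ∈ o'.1) ∧ (Ball o.2.1 fun z => z ∈ o'.2.1) ∧ Ball o.2.2 fun z => z ∈ o'.2.2

def Win (k α β n m : ℕ) (T : List (List Evt × Out)) : Prop :=
  (Bex T fun p => p.1 = []) ∧ Ball T fun p => Good k α β n m p.1 p.2 ∧
    (Ball [true, false] fun s => Ball (List.range (2 ^ k)) fun i => Ball (List.range (2 ^ n)) fun x =>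
      Imp (¬ (s, i, x) ∈ p.1 ∧ Cnt k α β (p.1 ++ [(s, i, x)]))
        (Bex T fun p' => p'.1 = p.1 ++ [(s, i, x)])) ∧
    Ball T fun p' => Imp (p'.1.take p.1.length = p.1) (Sub p.2 p'.2)

section

variable {σ : Type} [Primcodable σ]

@[fun_prop] theorem c_Qg {k β n : σ → ℕ} (hk : Computable k) (hβ : Computable β)
    (hn : Computable n) : Computable fun a => Qg (k a) (β a) (n a) := by
  unfold Qg
  fun_prop

@[fun_prop] theorem cp_Cnt {k α β : σ → ℕ} {h : σ → List Evt} (hk : Computable k)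
    (hα : Computable α) (hβ : Computable β) (hh : Computable h) :
    ComputablePred fun a => Cnt (k a) (α a) (β a) (h a) := by
  unfold Cnt
  fun_prop

@[fun_prop] theorem cp_Sub {o o' : σ → Out} (ho : Computable o) (ho' : Computable o') :
    ComputablePred fun a => Sub (o a) (o' a) := by
  unfold Sub
  fun_prop

@[fun_prop] theorem cp_Good {k α β n m : σ → ℕ} {h : σ → List Evt} {o : σ → Out}
    (hk : Computable k) (hα : Computable α) (hβ : Computable β) (hn : Computable n)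
    (hm : Computable m) (hh : Computable h) (ho : Computable o) :
    ComputablePred fun a => Good (k a) (α a) (β a) (n a) (m a) (h a) (o a) := by
  unfold Good
  refine FP.pand ?_ (FP.pand ?_ (FP.pand ?_ ?_)) <;> fun_prop

theorem cp_Win' {k α β n m : σ → ℕ} {T : σ → List (List Evt × Out)}
    (hk : Computable k) (hα : Computable α) (hβ : Computable β) (hn : Computable n)
    (hm : Computable m) (hT : Computable T) :
    ComputablePred fun a => Win (k a) (α a) (β a) (n a) (m a) (T a) := by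
  unfold Win
  refine FP.pand ?_ (FP.pball hT (FP.pand ?_ (FP.pand ?_ ?_))) <;> fun_prop

end

theorem cp_Win : ComputablePred fun x : Par × List (List Evt × Out) × ℕ =>
    Win x.1.1 x.1.2.1 x.1.2.2.1 x.1.2.2.2.1 x.1.2.2.2.2 x.2.1 := by
  apply cp_Win' <;> fun_prop

theorem flt_toList {τ : Type} (S : Finset τ) (p : τ → Prop) [DecidablePred p] :
    (flt S.toList p).length ≤ (S.filter p).card :=
  flt_len_le_card (Finset.nodup_toList S) fun _ hb hp =>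
    Finset.mem_filter.2 ⟨Finset.mem_toList.1 hb, hp⟩

theorem Sd_le {k n a : ℕ} {s : Bool} {h : List Evt} (hb : ∀ e ∈ h, e.2.1 < 2 ^ k ∧ e.2.2 < 2 ^ n)
    (hc : ∀ i < 2 ^ k, (flt h fun e => e.1 = s ∧ e.2.1 = i).length ≤ 2 ^ a) (i : ℕ) :
    (Sd s i h).card ≤ 2 ^ a := by
  by_cases hi : i < 2 ^ k
  · refine Finset.card_image_le.trans ((card_le_flt_len fun e he => ?_).trans (hc i hi))
    simpa using he
  · rw [Finset.card_eq_zero.2]
    · positivity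
    · exact Finset.eq_empty_of_forall_notMem fun y hy => hi (hb _ (mem_Sd.1 hy)).1

theorem exists_Win (k α β n m : ℕ) : ∃ T, Win k α β n m T := by
  classical
  obtain ⟨N, Z, A, hN, hZ, hA, hG⟩ := game k α β n m
  let F : Finset Evt := Finset.univ ×ˢ Finset.range (2 ^ k) ×ˢ Finset.range (2 ^ n)
  let Dm : List (List Evt) := flt (F.toList.sublists.flatMap List.permutations) fun h =>
    h.Nodup ∧ (∀ e ∈ h, e.2.1 < 2 ^ k ∧ e.2.2 < 2 ^ n) ∧ Cnt k α β h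
  have hDm : ∀ h, h ∈ Dm ↔
      h.Nodup ∧ (∀ e ∈ h, e.2.1 < 2 ^ k ∧ e.2.2 < 2 ^ n) ∧ Cnt k α β h := fun h => by
    refine mem_flt.trans (and_iff_right_of_imp fun ⟨h1, h2, _⟩ => ?_)
    obtain ⟨l, h3, h4⟩ := h1.subperm (l₂ := F.toList) fun e he => by simpa [F] using h2 e he
    exact List.mem_flatMap.2 ⟨l, List.mem_sublists.2 h4, List.mem_permutations.2 h3.symm⟩
  let S : List Evt → List Evt × Out := fun h => (h, (N h).toList, (Z h).toList, (A h).toList)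
  refine ⟨Dm.map S, ⟨S [], List.mem_map_of_mem ((hDm _).2 ⟨by simp, by simp, ?_⟩), rfl⟩, ?_⟩
  · intro i _
    simp [flt]
  intro p hp
  obtain ⟨h, hh, rfl⟩ := List.mem_map.1 hp
  obtain ⟨h1, h2, h3⟩ := (hDm h).1 hh
  obtain ⟨g1, g2, g3, g4⟩ := hG h (fun e he => (h2 e he).2)
    (Sd_le h2 fun i hi => (h3 i (List.mem_range.2 hi)).1)
    (Sd_le h2 fun i hi => (h3 i (List.mem_range.2 hi)).2)
  refine ⟨⟨fun b _ => le_trans ?_ (g1 b), fun z _ => (flt_toList _ _).trans (g2 z), ?_,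
    fun x _ y _ hxy => ?_⟩, fun s _ i hi x hx hc => ?_, fun p' hp' hpre => ?_⟩
  · exact Nat.mul_le_mul_right _ (Nat.mul_le_mul_right _ (flt_toList _ _))
  · simpa [S] using g3
  · obtain ⟨z, z1, z2, z3, z4⟩ := g4 x y (hxy.trans (flt_len_le_card List.nodup_range
      fun i hi hi' => Finset.mem_filter.2 ⟨by simpa using hi, hi'⟩))
    exact ⟨z, Finset.mem_toList.2 z1, z2, Finset.mem_toList.2 z3, Finset.mem_toList.2 z4⟩
  · refine ⟨S (h ++ [(s, i, x)]), List.mem_map_of_mem ((hDm _).2 ⟨?_, ?_, hc.2⟩), rfl⟩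
    · rw [List.nodup_append]
      refine ⟨h1, by simp, fun a ha b hb e => hc.1 ?_⟩
      rw [List.mem_singleton.1 hb] at e
      exact e ▸ ha
    · intro e he
      rcases List.mem_append.1 he with he | he
      · exact h2 e he
      · rw [List.mem_singleton.1 he]
        exact ⟨List.mem_range.1 hi, List.mem_range.1 hx⟩
  · obtain ⟨h', -, rfl⟩ := List.mem_map.1 hp'
    have hh' : h <+: h' := List.prefix_iff_eq_take.2 hpre.symm
    exact ⟨fun z hz => Finset.mem_toList.2 (hN _ _ hh' (Finset.mem_toList.1 hz)),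
      fun z hz => Finset.mem_toList.2 (hZ _ _ hh' (Finset.mem_toList.1 hz)),
      fun z hz => Finset.mem_toList.2 (hA _ _ hh' (Finset.mem_toList.1 hz))⟩

theorem le_pow_sub {c a b : ℕ} (h : c * 2 ^ a ≤ 2 ^ b) : c ≤ 2 ^ (b - a) := by
  by_cases hab : a ≤ b
  · rw [show b = (b - a) + a by omega, pow_add] at h
    exact Nat.le_of_mul_le_mul_right h (by positivity)
  · have h1 : 2 ^ b < 2 ^ a := Nat.pow_lt_pow_right (by norm_num) (by omega)
    have : c = 0 := by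
      by_contra h0
      have := Nat.le_mul_of_pos_left (2 ^ a) (Nat.pos_of_ne_zero h0)
      omega
    simp [this]

/-- playing the table along a run -/
theorem play {k α β n m : ℕ} {T : List (List Evt × Out)} (hT : Win k α β n m T)
    {L : ℕ → List Evt} (h0 : L 0 = []) (hs : ∀ t, L (t + 1) = L t ∨ ∃ e, L (t + 1) = L t ++ [e])
    (hn : ∀ t, (L t).Nodup) (hb : ∀ t, ∀ e ∈ L t, e.2.1 < 2 ^ k ∧ e.2.2 < 2 ^ n)
    (hc : ∀ t, Cnt k α β (L t)) :
    (∀ t, ∃ p ∈ T, p.1 = L t) ∧ ∀ {τ : Type} (F : Finset τ) (R : τ → Out → Prop),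
      (∀ a o o', Sub o o' → R a o → R a o') → (∀ a ∈ F, ∃ t, ∃ p ∈ T, p.1 = L t ∧ R a p.2) →
      ∃ p ∈ T, ∀ a ∈ F, R a p.2 := by
  have h1 : ∀ t, ∃ p ∈ T, p.1 = L t := by
    intro t
    induction t with
    | zero => rw [h0]; exact hT.1
    | succ t ih =>
      obtain ⟨p, hp, hp'⟩ := ih
      rcases hs t with h | ⟨⟨s, i, x⟩, h⟩
      · exact ⟨p, hp, h ▸ hp'⟩
      · have h2 := hb (t + 1) (s, i, x) (by simp [h])
        have h3 := hn (t + 1)
        have h4 := hc (t + 1)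
        rw [h, ← hp'] at h3 h4 ⊢
        refine (hT.2 p hp).2.1 s (by cases s <;> simp) i (List.mem_range.2 h2.1) x
          (List.mem_range.2 h2.2) ⟨fun h5 => ?_, h4⟩
        exact (List.nodup_append.1 h3).2.2 _ h5 _ (by simp) rfl
  refine ⟨h1, fun F R hR hF => ?_⟩
  choose! f hf using hF
  obtain ⟨p, hp, hp'⟩ := h1 (F.sup f)
  refine ⟨p, hp, fun a ha => ?_⟩
  obtain ⟨p0, hp0, e0, h2⟩ := hf a ha
  refine hR a _ _ ((hT.2 p0 hp0).2.2 p hp ?_) h2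
  rw [e0, hp']
  exact (List.prefix_iff_eq_take.1 (step_pre hs (Finset.le_sup ha))).symm

variable {Ω : Type} {ℓ : Ω → ℕ} {U : Str → Str →. Str}

theorem sm_Qg {k β n : Ω → ℕ} (hk : Sm ℓ k) (hβ : Sm ℓ β) (hn : Sm ℓ n) :
    Sm ℓ fun ω => Qg (k ω) (β ω) (n ω) := by
  have h1 := sm_add (sm_add hk hβ) (sm_const 1)
  exact sm_mul (sm_pow (sm_mul (sm_mul (sm_add hβ (sm_const 1)) h1) h1) 2)
    (sm_mul (sm_const 20) (sm_pow (sm_add (sm_add hn h1) (sm_const 2)) 4))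

theorem game_K (hU : Optimal U) {Θ : Type} [Primcodable Θ] {θ : Ω → Θ}
    (hθ : Si ℓ U θ fun _ => ()) {k α β n m x y : Ω → ℕ} (hk : Sm ℓ k) (hα : Sm ℓ α) (hβ : Sm ℓ β)
    (hn : Sm ℓ n) (hmk : ∀ ω, m ω ≤ k ω) {L : Θ → ℕ → List Evt}
    (hL : Computable fun x : Θ × ℕ => L x.1 x.2) (h0 : ∀ b, L b 0 = [])
    (hs : ∀ b t, L b (t + 1) = L b t ∨ ∃ e, L b (t + 1) = L b t ++ [e])
    (hnd : ∀ b t, (L b t).Nodup)
    (hb : ∀ ω t, ∀ e ∈ L (θ ω) t, e.2.1 < 2 ^ k ω ∧ e.2.2 < 2 ^ n ω)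
    (hc : ∀ ω t, Cnt (k ω) (α ω) (β ω) (L (θ ω) t))
    (hx : ∀ ω, x ω < 2 ^ n ω) (hy : ∀ ω, y ω < 2 ^ n ω)
    (hxy : ∀ ω, ∃ t, 2 ^ m ω ≤ (flt (List.range (2 ^ k ω)) fun i => (true, i, x ω) ∈ L (θ ω) t ∧
      (L (θ ω) t).idxOf (false, i, y ω) < (L (θ ω) t).idxOf (true, i, x ω)).length) :
    ∃ z : Ω → Nam, (∀ ω, (z ω).1 ≤ β ω) ∧
      Le ℓ (fun ω => K U (z ω) () + m ω + (z ω).1) (fun ω => k ω + β ω) ∧
      Le ℓ (fun ω => K U (y ω) (z ω)) (fun ω => (z ω).1) ∧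
      Le ℓ (fun ω => K U (z ω, x ω) () + m ω) fun ω => k ω + α ω := by
  have hm : Sm ℓ m := sm_mono hmk hk
  obtain ⟨T, hT, hTs⟩ := k_choose (ℓ := ℓ) hU (fun (x : Par) (T : List (List Evt × Out)) _ =>
    Win x.1 x.2.1 x.2.2.1 x.2.2.2.1 x.2.2.2.2 T) cp_Win
    (b := fun ω => (k ω, α ω, β ω, n ω, m ω)) fun ω =>
      let ⟨T, hT⟩ := exists_Win (k ω) (α ω) (β ω) (n ω) (m ω); ⟨T, 0, hT⟩
  replace hT : ∀ ω, Win (k ω) (α ω) (β ω) (n ω) (m ω) (T ω) := fun ω => (hT ω).choose_spec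
  replace hTs : Si ℓ U (fun ω => (T ω, θ ω)) fun _ => () :=
    si_pair hU (si_trans hU hTs (si_pair hU (si_sm hU hk) (si_pair hU (si_sm hU hα)
      (si_pair hU (si_sm hU hβ) (si_pair hU (si_sm hU hn) (si_sm hU hm)))))) hθ
  have hp := fun ω => @play _ _ _ _ _ _ (hT ω) _ (h0 _) (hs _) (hnd _) (hb ω) (hc ω)
  have hz : ∀ ω, ∃ z : Nam, z.1 ≤ β ω ∧ ∃ t, ∃ p ∈ T ω, p.1 = L (θ ω) t ∧ z ∈ p.2.1 ∧
      (z, x ω) ∈ p.2.2.2 ∧ (z, y ω) ∈ p.2.2.1 := fun ω => by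
    obtain ⟨t, ht⟩ := hxy ω
    obtain ⟨p, h1, h2⟩ := (hp ω).1 t
    obtain ⟨z, z1, z2, z3, z4⟩ := ((hT ω).2 p h1).1.2.2.2 (x ω) (List.mem_range.2 (hx ω)) (y ω)
      (List.mem_range.2 (hy ω)) (by rw [h2]; exact ht)
    exact ⟨z, z2, t, p, h1, h2, z1, z3, z4⟩
  choose z hzb t p hp1 hp2 hp3 hp4 hp5 using hz
  have hQ := sm_log (sm_Qg hk hβ hn)
  have hQ' : ∀ ω, Qg (k ω) (β ω) (n ω) ≤ 2 ^ Nat.size (Qg (k ω) (β ω) (n ω)) := fun ω =>
    (Nat.lt_size_self _).le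
  have e1 := k_small (ℓ := ℓ) hU (fun (c : (List (List Evt × Out) × Θ) × ℕ) (z : Nam) t =>
    Bex c.1.1 fun p => p.1 = L c.1.2 t ∧ z ∈ p.2.1 ∧ z.1 = c.2) (by fun_prop) (a := z)
    (b := fun ω => ((T ω, θ ω), (z ω).1))
    (s := fun ω => k ω + β ω + Nat.size (Qg (k ω) (β ω) (n ω)) - (m ω + (z ω).1))
    (fun ω F hF => by
      obtain ⟨p, h1, h2⟩ := (hp ω).2 F (fun a o => a ∈ o.1 ∧ a.1 = (z ω).1)
        (fun a o o' h h' => ⟨h.1 a h'.1, h'.2⟩) hF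
      have h3 := ((hT ω).2 p h1).1.1 (z ω).1 (List.mem_range.2 (Nat.lt_succ_of_le (hzb ω)))
      refine le_pow_sub ?_
      rw [pow_add, pow_add 2 (k ω + β ω), ← mul_assoc]
      exact le_trans (Nat.mul_le_mul_right _ (Nat.mul_le_mul_right _ (card_le_flt_len h2)))
        (h3.trans (Nat.mul_le_mul_left _ (hQ' ω))))
    fun ω => ⟨t ω, p ω, hp1 ω, hp2 ω, hp3 ω, rfl⟩
  have e2 := k_small (ℓ := ℓ) hU (fun (c : (List (List Evt × Out) × Θ) × Nam) (y : ℕ) t =>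
    Bex c.1.1 fun p => p.1 = L c.1.2 t ∧ c.2 ∈ p.2.1 ∧ (c.2, y) ∈ p.2.2.1) (by fun_prop) (a := y)
    (b := fun ω => ((T ω, θ ω), z ω)) (s := fun ω => (z ω).1)
    (fun ω F hF => by
      obtain ⟨p, h1, h2⟩ := (hp ω).2 F (fun a o => z ω ∈ o.1 ∧ (z ω, a) ∈ o.2.1)
        (fun a o o' h h' => ⟨h.1 _ h'.1, h.2.1 _ h'.2⟩) hF
      rcases F.eq_empty_or_nonempty with rfl | ⟨a, ha⟩
      · simp
      refine le_trans ?_ (((hT ω).2 p h1).1.2.1 (z ω) (h2 a ha).1)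
      rw [← Finset.card_image_of_injective F (Prod.mk_right_injective (z ω))]
      refine card_le_flt_len fun w hw => ?_
      obtain ⟨a, ha, rfl⟩ := Finset.mem_image.1 hw
      exact ⟨(h2 a ha).2, rfl⟩)
    fun ω => ⟨t ω, p ω, hp1 ω, hp2 ω, hp3 ω, hp5 ω⟩
  have e3 := k_small (ℓ := ℓ) hU (fun (c : List (List Evt × Out) × Θ) (w : Nam × ℕ) t =>
    Bex c.1 fun p => p.1 = L c.2 t ∧ w ∈ p.2.2.2) (by fun_prop) (a := fun ω => (z ω, x ω))
    (b := fun ω => (T ω, θ ω))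
    (s := fun ω => k ω + α ω + Nat.size (Qg (k ω) (β ω) (n ω)) - m ω)
    (fun ω F hF => by
      obtain ⟨p, h1, h2⟩ := (hp ω).2 F (fun a o => a ∈ o.2.2) (fun a o o' h h' => h.2.2 a h') hF
      have h3 := ((hT ω).2 p h1).1.2.2.1
      refine le_pow_sub ?_
      rw [pow_add]
      refine le_trans (Nat.mul_le_mul_right _ ?_) (h3.trans (Nat.mul_le_mul_left _ (hQ' ω)))
      exact (Finset.card_le_card fun a ha => List.mem_toFinset.2 (h2 a ha)).trans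
        (List.toFinset_card_le _))
    fun ω => ⟨t ω, p ω, hp1 ω, hp2 ω, hp4 ω⟩
  have s1 : ∀ {γ δ : Type} [Primcodable γ] [Primcodable δ] {a : Ω → γ} {c : Ω → δ},
      Si ℓ U a fun ω => (a ω, c ω) :=
    si_comp hU (fun x => x.1) (by fun_prop) fun _ => rfl
  have f1 := k_mono hU (a := z) (c' := fun _ => ()) s1
    (si_pair hU hTs (si_sm hU (sm_mono hzb hβ)))
  have f2 := k_mono hU (a := y) (c' := z) s1
    (si_pair hU (si_trans hU hTs (si_unit hU)) (si_refl hU))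
  have f3 := k_mono hU (a := fun ω => (z ω, x ω)) (c' := fun _ => ()) s1 hTs
  refine ⟨z, hzb, le_of_mul 3 ?_, le_tr f2 e2, le_of_mul 3 ?_⟩
  · filter_upwards [e1, f1, hQ] with w e1 f1 hQ
    have := hzb w.1
    have := hmk w.1
    omega
  · filter_upwards [e3, f3, hQ] with w e3 f3 hQ
    have := hmk w.1
    omega

end Pool.Agent.Lib.MP_e57333_lc
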