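import Pool.Agent.Lib.MP_e57333_lc.LemmaA

set_option autoImplicit false

/-! Adjusting the profile of a witness that is simple given the pair. -/

namespace Pool.Agent.Lib.MP_e57333_lc

open Filter Finset

variable {Ω : Type} {ℓ : Ω → ℕ} {U : Str → Str →. Str}
variable {α β γ : Type} [Primcodable α] [Primcodable β] [Primcodable γ]

/-- polynomially bounded complexity -/
abbrev Sk (ℓ : Ω → ℕ) (U : Str → Str →. Str) (a : Ω → α) : Prop := Sm ℓ fun ω => K U (a ω) ()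

theorem k_un (hU : Optimal U) {a : Ω → α} {c : Ω → β} :
    Le ℓ (fun ω => K U (a ω) (c ω)) fun ω => K U (a ω) () := k_mono hU (si_fst hU) (si_unit hU)

theorem k_si (hU : Optimal U) {a : Ω → α} {a' : Ω → γ} {c : Ω → β} (h : Si ℓ U a' a) :
    Le ℓ (fun ω => K U (a' ω) (c ω)) fun ω => K U (a ω) (c ω) :=
  k_mono hU (si_trans hU h (si_fst hU)) (si_refl hU)

theorem k_cd (hU : Optimal U) {a : Ω → α} {c : Ω → β} {c' : Ω → γ} (h : Si ℓ U c c') :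
    Le ℓ (fun ω => K U (a ω) (c' ω)) fun ω => K U (a ω) (c ω) := k_mono hU (si_fst hU) h

theorem sk_si (hU : Optimal U) {a : Ω → α} {a' : Ω → γ} (h : Si ℓ U a' a) (ha : Sk ℓ U a) :
    Sk ℓ U a' := sm_of_le (k_si hU h) ha

theorem sk_cd (hU : Optimal U) {a : Ω → α} {c : Ω → β} (ha : Sk ℓ U a) :
    Sm ℓ fun ω => K U (a ω) (c ω) := sm_of_le (k_un hU) ha

theorem k_pair0 (hU : Optimal U) {a : Ω → α} {b : Ω → β} (ha : Sk ℓ U a) :
    Le ℓ (fun ω => K U (a ω, b ω) ()) fun ω => K U (a ω) () + K U (b ω) (a ω) := by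
  have e1 := k_pair hU (b := b) (c := fun _ => ()) (Or.inl ha)
  have e2 := k_cd hU (a := b) (si_fst (ℓ := ℓ) hU (a := a) (c := fun _ => ()))
  refine le_of_mul 2 ?_
  filter_upwards [e1, e2] with w e1 e2
  omega

theorem sk_pair (hU : Optimal U) {a : Ω → α} {b : Ω → β} (ha : Sk ℓ U a) (hb : Sk ℓ U b) :
    Sk ℓ U fun ω => (a ω, b ω) := sm_of_le (k_pair0 hU ha) (sm_add ha (sk_cd hU hb))

theorem sk_num (hU : Optimal U) {m s : Ω → ℕ} (hm : ∀ ω, m ω < 2 ^ s ω) (hs : Sm ℓ s) :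
    Sk ℓ U m := sm_of_le (k_num hU hm) hs

theorem k_symm0 [Inhabited α] [Inhabited β] (hU : Optimal U) {a : Ω → α} {b : Ω → β}
    (ha : Sk ℓ U a) (hb : Sk ℓ U b) :
    Le ℓ (fun ω => K U (a ω) () + K U (b ω) (a ω)) fun ω => K U (a ω, b ω) () := by
  have e1 := k_symm hU (c := fun _ => ()) (sk_pair hU ha hb)
  have e2 := k_cd hU (a := b) (si_pair (ℓ := ℓ) hU (si_refl hU (a := a)) (si_unit hU))
  refine le_of_mul 2 ?_
  filter_upwards [e1, e2] with w e1 e2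
  omega

theorem si_swap (hU : Optimal U) {a : Ω → α} {b : Ω → β} :
    Si ℓ U (fun ω => (a ω, b ω)) fun ω => (b ω, a ω) := si_pair hU (si_snd hU) (si_fst hU)

theorem k_bayes [Inhabited α] [Inhabited β] (hU : Optimal U) {a : Ω → α} {b : Ω → β}
    (ha : Sk ℓ U a) (hb : Sk ℓ U b) :
    Le ℓ (fun ω => K U (a ω) () + K U (b ω) (a ω)) fun ω => K U (b ω) () + K U (a ω) (b ω) :=
  le_tr (k_symm0 hU ha hb) (le_tr (k_si hU (si_swap hU)) (k_pair0 hU hb))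

theorem mod_rec {r s T : ℕ} (hs : s < T) : ((r + s) % T + T - s) % T = r % T := by
  have h1 : (r + s) % T + T - s + s = (r + s) % T + T := by omega
  have h2 : (r + s) % T + T - s + s ≡ r + s [MOD T] := by
    rw [h1]
    unfold Nat.ModEq
    simp
  exact Nat.ModEq.add_right_cancel' s h2

theorem raise [Inhabited γ] (hU : Optimal U) {x : Ω → α} {y : Ω → β} {q : Ω → γ} {t : Ω → ℕ}
    (hx : Sk ℓ U x) (hy : Sk ℓ U y) (hq : Si ℓ U q fun ω => (x ω, y ω))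
    (h1 : Le ℓ (fun ω => t ω + K U (q ω) (y ω)) fun ω => K U (q ω) ())
    (h2 : Le ℓ t fun ω => K U (x ω) (y ω, q ω)) :
    ∃ q' : Ω → ℕ × ℕ × ℕ, Si ℓ U q' (fun ω => (q ω, x ω)) ∧ Si ℓ U q (fun ω => (q' ω, x ω)) ∧
      Le ℓ (fun ω => K U (q' ω) ()) (fun ω => K U (q ω) ()) ∧
      Le ℓ (fun ω => K U (q ω) ()) (fun ω => K U (q' ω) ()) ∧
      Le ℓ (fun ω => K U (q' ω) (y ω)) (fun ω => K U (q ω) (y ω) + t ω) ∧
      Le ℓ (fun ω => K U (q ω) (y ω) + t ω) fun ω => K U (q' ω) (y ω) := by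
  have sq : Sk ℓ U q := sk_si hU hq (sk_pair hU hx hy)
  have st : Sm ℓ t := sm_of_le h2 (sk_cd hU hx)
  obtain ⟨p, s, p1, p2, p3, p4⟩ := muchnik hU (b := y) sq
  obtain ⟨r, r1, r2, r3⟩ := k_short hU (b := p) (sk_cd hU sq)
  obtain ⟨u, s', u1, u2, u3, u4⟩ := muchnik hU (b := fun ω => (y ω, q ω)) hx
  replace r3 : Si ℓ U r q := si_trans hU r3 (si_pair hU (si_refl hU) p3)
  have sp : Sk ℓ U p := sk_si hU p3 sq
  obtain ⟨σ, hσ⟩ : ∃ σ : Ω → ℕ, ∀ ω, u ω % 2 ^ t ω = σ ω := ⟨_, fun _ => rfl⟩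
  have σ1 : ∀ ω, σ ω < 2 ^ t ω := fun ω => hσ ω ▸ Nat.mod_lt _ (by positivity)
  have σ2 : Si ℓ U σ x := si_map hU (fun z : ℕ × ℕ => z.1 % 2 ^ z.2) (by fun_prop)
    (si_pair hU u3 (si_sm hU st)) hσ
  have σ3 : Le ℓ t fun ω => K U (σ ω) (y ω, q ω) := by
    have e1 := (k_rest hU st u4).2
    simp only [hσ] at e1
    have e2 := k_num (ℓ := ℓ) hU (fun ω => div_pow_lt (t ω) (u1 ω)) (b := fun _ => ())
    have e3 := k_trans hU (a := σ) (b := x) (c := fun ω => (y ω, q ω)) (Or.inr (sk_cd hU hx))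
    refine le_of_mul 6 ?_
    filter_upwards [e1, e2, e3, u2, h2] with w e1 e2 e3 u2 h2
    omega
  obtain ⟨v, hv⟩ : ∃ v : Ω → ℕ, ∀ ω, (r ω + σ ω) % 2 ^ t ω = v ω := ⟨_, fun _ => rfl⟩
  obtain ⟨g, hg⟩ : ∃ g : Ω → ℕ, ∀ ω, r ω / 2 ^ t ω = g ω := ⟨_, fun _ => rfl⟩
  have v1 : ∀ ω, v ω < 2 ^ t ω := fun ω => hv ω ▸ Nat.mod_lt _ (by positivity)
  have g1 : Si ℓ U g q := si_map hU (fun z : ℕ × ℕ => z.1 / 2 ^ z.2) (by fun_prop)
    (si_pair hU r3 (si_sm hU st)) hg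
  have a1 : Si ℓ U (fun ω => (p ω, g ω, v ω)) fun ω => (q ω, σ ω) :=
    si_pair hU (si_trans hU p3 (si_fst hU)) (si_pair hU (si_trans hU g1 (si_fst hU))
      (si_map hU (fun z : ℕ × ℕ × ℕ => (z.1 + z.2.1) % 2 ^ z.2.2) (by fun_prop)
        (si_pair hU (si_trans hU r3 (si_fst hU)) (si_pair hU (si_snd hU) (si_sm hU st))) hv))
  have a2 : Si ℓ U q fun ω => ((p ω, g ω, v ω), σ ω) := by
    refine si_trans hU r2 (si_map hU (fun z : ((ℕ × ℕ × ℕ) × ℕ) × ℕ =>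
      (2 ^ z.2 * z.1.1.2.1 + (z.1.1.2.2 + 2 ^ z.2 - z.1.2) % 2 ^ z.2, z.1.1.1)) (by fun_prop)
      (si_pair hU (si_refl hU) (si_sm hU st)) fun ω => ?_)
    simp only [← hv, ← hg, mod_rec (σ1 ω), Nat.div_add_mod]
  have a3 : Si ℓ U σ fun ω => (v ω, q ω) := by
    refine si_map hU (fun z : ℕ × ℕ × ℕ => (z.1 + 2 ^ z.2.2 - z.2.1 % 2 ^ z.2.2) % 2 ^ z.2.2)
      (by fun_prop) (si_pair hU (si_fst hU) (si_pair hU (si_trans hU r3 (si_snd hU))
        (si_sm hU st))) fun ω => ?_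
    have := mod_rec (r := σ ω) (Nat.mod_lt (r ω) (show 0 < 2 ^ t ω by positivity))
    rw [Nat.add_mod_mod, add_comm (σ ω), hv, Nat.mod_eq_of_lt (σ1 ω)] at this
    exact this
  have sg : Sk ℓ U g := sk_si hU g1 sq
  have sv : Sk ℓ U v := sk_num hU v1 st
  have sσ : Sk ℓ U σ := sk_si hU σ2 hx
  refine ⟨fun ω => (p ω, g ω, v ω), si_trans hU a1 (si_pair hU (si_fst hU)
    (si_trans hU σ2 (si_snd hU))), si_trans hU a2 (si_pair hU (si_fst hU)
    (si_trans hU σ2 (si_snd hU))), le_of_mul 20 ?_, le_of_mul 20 ?_, le_of_mul 20 ?_,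
    le_of_mul 20 ?_⟩
  · have e1 := k_pair0 hU (b := fun ω => (g ω, v ω)) sp
    have e2 := k_pair hU (a := g) (b := v) (c := p) (Or.inl (sk_cd hU sg))
    have e3 := k_num (ℓ := ℓ) hU (fun ω => div_pow_lt (t ω) (r1 ω)) (b := p)
    simp only [hg] at e3
    have e4 := k_num (ℓ := ℓ) hU v1 (b := fun ω => (g ω, p ω))
    have e5 := k_bayes hU sp sq
    have e6 := k_bayes hU sq sp
    have e7 := k_num (ℓ := ℓ) hU p1 (b := fun _ => ())
    filter_upwards [e1, e2, e3, e4, e5, e6, e7, p2, p3, h1, ev_ge 1] with w e1 e2 e3 e4 e5 e6 e7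
      p2 p3 h1 e0
    omega
  · have e1 := k_si hU (c := fun _ => ()) (si_comp (ℓ := ℓ) hU
      (fun z : ℕ × ℕ × ℕ => ((z.2.1, z.1), z.2.2)) (by fun_prop)
      (b := fun ω => (p ω, g ω, v ω)) fun _ => rfl)
    have e2 := k_symm0 hU (sk_pair hU sg sp) sv
    have e3 := (k_rest hU st r2).1
    simp only [hg] at e3
    have e4 := k_pair0 hU (b := q) (sk_pair hU sg sp)
    have e5 := k_si hU (c := fun _ => ()) (si_snd (ℓ := ℓ) hU (a := fun ω => (g ω, p ω)) (c := q))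
    have e6 := k_cd hU (a := v) (c' := fun ω => (y ω, q ω))
      (si_pair hU (si_trans hU g1 (si_snd hU)) (si_trans hU p3 (si_snd hU)))
    have e7 := k_mono hU (a := v) (c' := fun ω => (y ω, q ω)) (si_trans hU a3
      (si_pair hU (si_fst hU) (si_trans hU (si_snd hU) (si_snd hU)))) (si_refl hU)
    filter_upwards [e1, e2, e3, e4, e5, e6, e7, σ3] with w e1 e2 e3 e4 e5 e6 e7 e8
    omega
  · have e1 := k_si hU (c := y) a1
    have e2 := k_pair hU (a := q) (b := σ) (c := y) (Or.inl (sk_cd hU sq))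
    have e3 := k_num (ℓ := ℓ) hU σ1 (b := fun ω => (q ω, y ω))
    filter_upwards [e1, e2, e3] with w e1 e2 e3
    omega
  · have b1 : Si ℓ U q fun ω => ((p ω, g ω, v ω), y ω) :=
      si_trans hU p4 (si_pair hU (si_trans hU (si_fst hU) (si_fst hU)) (si_snd hU))
    have e1 := k_mono hU (a := fun ω => (p ω, g ω, v ω)) (c' := y) (si_pair hU b1
      (si_trans hU a3 (si_pair hU (si_comp hU (fun z => z.1.2.2) (by fun_prop) fun _ => rfl) b1)))
      (si_refl hU)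
    have e2 := k_symm hU (c := y) (sk_cd hU (sk_pair hU sq sσ))
    have e3 := k_cd hU (a := σ) (si_swap (ℓ := ℓ) hU (a := q) (b := y))
    filter_upwards [e1, e2, e3, σ3] with w e1 e2 e3 e4
    omega

end Pool.Agent.Lib.MP_e57333_lc
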