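import Mathlib

set_option autoImplicit false

/-! The static covering lemma. -/

namespace Pool.Agent.Lib.MP_e57333_lc

open Finset

open Classical in
/-- uniform probability on a finite set -/
noncomputable def pr {σ : Type} (Φ : Finset σ) (p : σ → Prop) : ℝ :=
  ((Φ.filter p).card : ℝ) / Φ.card

section pr

variable {σ : Type} {Φ : Finset σ} {p : σ → Prop}

theorem pr_nonneg : 0 ≤ pr Φ p := by unfold pr; positivity

theorem pr_le_one : pr Φ p ≤ 1 := by
  classical
  unfold pr
  exact div_le_one_of_le₀ (by exact_mod_cast card_filter_le _ _) (by positivity)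

theorem pr_mono {q : σ → Prop} (h : ∀ x, p x → q x) : pr Φ p ≤ pr Φ q := by
  unfold pr
  gcongr
  exact h _

theorem pr_not (h : Φ.Nonempty) : pr Φ (fun x => ¬ p x) = 1 - pr Φ p := by
  classical
  have h1 : (0 : ℝ) < Φ.card := by exact_mod_cast h.card_pos
  have h2 := card_filter_add_card_filter_not (s := Φ) p
  unfold pr
  rw [eq_sub_iff_add_eq, ← add_div, div_eq_one_iff_eq h1.ne', add_comm, ← h2]
  push_cast
  congr 3
  ext x
  simp

theorem pr_all (T : ℕ) :
    pr (Fintype.piFinset fun _ : Fin T => Φ) (fun f => ∀ s, p (f s)) = pr Φ p ^ T := by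
  classical
  unfold pr
  rw [div_pow, ← Nat.cast_pow, ← Nat.cast_pow, ← Fintype.card_piFinset_const,
    ← Fintype.card_piFinset_const]
  congr 3
  ext f
  simp only [mem_filter, Fintype.mem_piFinset]
  exact ⟨fun h s => ⟨h.1 s, h.2 s⟩, fun h => ⟨fun s => (h s).1, fun s => (h s).2⟩⟩

theorem pi_ne (h : Φ.Nonempty) (T : ℕ) : (Fintype.piFinset fun _ : Fin T => Φ).Nonempty :=
  Fintype.piFinset_nonempty.2 fun _ => h

theorem pr_ex (h : Φ.Nonempty) (T : ℕ) :
    pr (Fintype.piFinset fun _ : Fin T => Φ) (fun f => ∃ s, p (f s)) ≤ T * pr Φ p := by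
  have h1 := pr_not (p := fun f : Fin T → σ => ∀ s, ¬ p (f s)) (pi_ne h T)
  rw [pr_all (p := fun x => ¬ p x), pr_not h] at h1
  have h2 := one_add_mul_le_pow (a := - pr Φ p) (by linarith [pr_le_one (Φ := Φ) (p := p)]) T
  have h3 : (fun f : Fin T → σ => ¬ ∀ s, ¬ p (f s)) = fun f => ∃ s, p (f s) := by
    funext f; simp
  rw [h3] at h1
  rw [h1, sub_eq_add_neg 1 (pr Φ p)]
  linarith

theorem pr_miss (h : Φ.Nonempty) (T L : ℕ) (hL : (L : ℝ) ≤ T * pr Φ p) :
    pr (Fintype.piFinset fun _ : Fin T => Φ) (fun f => ∀ s, ¬ p (f s)) ≤ (1 / 2) ^ L := by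
  rw [pr_all (p := fun x => ¬ p x), pr_not h]
  calc (1 - pr Φ p) ^ T ≤ Real.exp (- pr Φ p) ^ T :=
        pow_le_pow_left₀ (by linarith [pr_le_one (Φ := Φ) (p := p)]) (Real.one_sub_le_exp_neg _) _
    _ = Real.exp (- (T * pr Φ p)) := by rw [← Real.exp_nat_mul]; congr 1; ring
    _ ≤ Real.exp (- (L : ℝ)) := Real.exp_le_exp.2 (by linarith)
    _ = Real.exp (-1) ^ L := by rw [← Real.exp_nat_mul]; congr 1; ring
    _ ≤ (1 / 2) ^ L := by
      refine pow_le_pow_left₀ (Real.exp_pos _).le ?_ _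
      rw [Real.exp_neg, one_div]
      exact inv_anti₀ (by norm_num) (by linarith [Real.add_one_le_exp 1])

theorem pr_union {ι : Type} (W : Finset ι) (bad : ι → σ → Prop) (h : Φ.Nonempty)
    (hs : ∑ w ∈ W, pr Φ (bad w) < 1) : ∃ x ∈ Φ, ∀ w ∈ W, ¬ bad w x := by
  classical
  by_contra hn
  push Not at hn
  have h1 : (0 : ℝ) < Φ.card := by exact_mod_cast h.card_pos
  have h2 : Φ.card ≤ ∑ w ∈ W, (Φ.filter (bad w)).card :=
    (card_le_card fun x hx => by
      obtain ⟨w, hw, hb⟩ := hn x hx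
      exact mem_biUnion.2 ⟨w, hw, mem_filter.2 ⟨hx, hb⟩⟩).trans card_biUnion_le
  unfold pr at hs
  rw [← sum_div, div_lt_one h1] at hs
  have h3 : (Φ.card : ℝ) ≤ ∑ w ∈ W, ((Φ.filter (bad w)).card : ℝ) := by exact_mod_cast h2
  linarith

theorem pr_mem [DecidableEq σ] (F : Finset σ) : pr Φ (· ∈ F) = ((F ∩ Φ).card : ℝ) / Φ.card := by
  unfold pr
  congr 3
  ext x
  simp [and_comm]

end pr

variable {ι : Type} [DecidableEq ι]

theorem hitting {ω : Type} (P : Finset ι) (hP : P.Nonempty) (W : Finset ω) (F : ω → Finset ι)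
    (L : ω → ℕ) (M : ℕ) (hF : ∀ w ∈ W, F w ⊆ P) (hL : ∀ w ∈ W, P.card * L w ≤ (F w).card * M)
    (hs : ∑ w ∈ W, (1 / 2 : ℝ) ^ L w < 1) :
    ∃ J ⊆ P, J.card ≤ M ∧ ∀ w ∈ W, ∃ j ∈ J, j ∈ F w := by
  have h1 : (0 : ℝ) < P.card := by exact_mod_cast hP.card_pos
  obtain ⟨f, hf, h⟩ := pr_union W (fun w (f : Fin M → ι) => ∀ s, ¬ f s ∈ F w) (pi_ne hP M)
    (lt_of_le_of_lt (sum_le_sum fun w hw => pr_miss hP M (L w) (by
      rw [pr_mem, inter_eq_left.2 (hF w hw), ← mul_div_assoc, le_div_iff₀ h1]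
      have := hL w hw
      rw [mul_comm, mul_comm (F w).card] at this
      exact_mod_cast this)) hs)
  refine ⟨univ.image f, fun j hj => ?_, card_image_le.trans (by simp), fun w hw => ?_⟩
  · obtain ⟨s, -, rfl⟩ := mem_image.1 hj
    exact Fintype.mem_piFinset.1 hf s
  · have := h w hw
    push Not at this
    obtain ⟨s, hs⟩ := this
    exact ⟨f s, mem_image_of_mem _ (mem_univ _), hs⟩

omit [DecidableEq ι] in
theorem sampling (P : Finset ι) (B : ι → Finset ℕ) (D t : ℕ) (hP : P.card < 2 ^ D)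
    (H : Finset ℕ) (hH : H.Nonempty) :
    ∃ w : Fin D → Fin (t * (2 * D)) → ℕ, (∀ a s, w a s ∈ H) ∧ ∀ j ∈ P,
      (H.card ≤ (B j ∩ H).card * t → ∀ a, ∃ s, w a s ∈ B j) ∧
      ((∀ a, ∃ s, w a s ∈ B j) → H.card ≤ (B j ∩ H).card * (2 * (t * (2 * D)))) := by
  have h1 : (0 : ℝ) < H.card := by exact_mod_cast hH.card_pos
  obtain ⟨w, hw, h⟩ := pr_union P (fun j (w : Fin D → Fin (t * (2 * D)) → ℕ) =>
    (H.card ≤ (B j ∩ H).card * t ∧ ∃ a, ∀ s, ¬ w a s ∈ B j) ∨
    ((B j ∩ H).card * (2 * (t * (2 * D))) < H.card ∧ ∀ a, ∃ s, w a s ∈ B j))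
    (pi_ne (pi_ne hH _) D) (by
      refine lt_of_le_of_lt (sum_le_card_nsmul _ _ ((1 / 2 : ℝ) ^ D) fun j hj => ?_) ?_
      · by_cases hb : (B j ∩ H).card * (2 * (t * (2 * D))) < H.card
        · have hD : 0 < D := by
            rcases Nat.eq_zero_or_pos D with h0 | h0
            · rw [h0] at hP
              have := card_pos.2 ⟨j, hj⟩
              omega
            · exact h0
          have hn : ¬ H.card ≤ (B j ∩ H).card * t := by
            intro h2
            have : (B j ∩ H).card * t * 1 ≤ (B j ∩ H).card * t * (4 * D) :=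
              Nat.mul_le_mul_left _ (by omega)
            nlinarith
          refine (pr_mono (q := fun w => ∀ a, ∃ s, w a s ∈ B j) fun w hw => by tauto).trans ?_
          rw [pr_all (p := fun f : Fin (t * (2 * D)) → ℕ => ∃ s, f s ∈ B j)]
          refine pow_le_pow_left₀ pr_nonneg ((pr_ex (p := (· ∈ B j)) hH _).trans ?_) _
          rw [pr_mem, ← mul_div_assoc, div_le_iff₀ h1]
          have : (((B j ∩ H).card * (2 * (t * (2 * D))) : ℕ) : ℝ) < H.card := by exact_mod_cast hb
          push_cast at this ⊢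
          linarith
        · by_cases hn : H.card ≤ (B j ∩ H).card * t
          · refine (pr_mono (q := fun w => ∃ a, ∀ s, ¬ w a s ∈ B j) fun w hw => by tauto).trans ?_
            refine (pr_ex (p := fun f : Fin (t * (2 * D)) → ℕ => ∀ s, ¬ f s ∈ B j)
              (pi_ne hH _) D).trans ?_
            have h2 := pr_miss (p := (· ∈ B j)) hH (t * (2 * D)) (2 * D) (by
              rw [pr_mem, ← mul_div_assoc, le_div_iff₀ h1]
              have : 2 * D * H.card ≤ t * (2 * D) * (B j ∩ H).card := by nlinarith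
              exact_mod_cast this)
            refine (mul_le_mul_of_nonneg_left h2 (by positivity)).trans ?_
            rw [two_mul, pow_add, ← mul_assoc]
            refine mul_le_of_le_one_left (by positivity) ?_
            rw [one_div, inv_pow, ← div_eq_mul_inv, div_le_one (by positivity)]
            exact_mod_cast Nat.lt_two_pow_self.le
          · refine (pr_mono (q := fun _ => False) fun w hw => by tauto).trans ?_
            simp [pr]
      · rw [nsmul_eq_mul, one_div, inv_pow, ← div_eq_mul_inv, div_lt_one (by positivity)]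
        exact_mod_cast hP)
  refine ⟨w, fun a s => Fintype.mem_piFinset.1 (Fintype.mem_piFinset.1 hw a) s, fun j hj => ?_⟩
  have h2 := h j hj
  push Not at h2
  refine ⟨h2.1, fun h3 => ?_⟩
  by_contra h4
  obtain ⟨a, ha⟩ := h2.2 (not_le.1 h4)
  obtain ⟨s, hs⟩ := h3 a
  exact ha s hs

omit [DecidableEq ι] in
theorem level (I : Finset ι) (B : ι → Finset ℕ) (D r : ℕ) (hr : 0 < r) (hI : I.card < 2 ^ D)
    (H : Finset ℕ) (hH : H.Nonempty) (h : ∀ y ∈ H, r ≤ (I.filter fun j => y ∈ B j).card) :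
    ∃ u < D + 2, 2 ^ u * r ≤ 4 * I.card ∧
      r * 2 ^ u ≤ 4 * (D + 2) * (I.filter fun j => H.card ≤ (B j ∩ H).card * 2 ^ u).card := by
  have hH0 := hH.card_pos
  have hrI : r ≤ I.card := by
    obtain ⟨y, hy⟩ := hH
    exact (h y hy).trans (card_filter_le _ _)
  set b : ι → ℕ := fun j => (B j ∩ H).card with hb
  have h1 : H.card * r ≤ ∑ j ∈ I, b j := by
    calc H.card * r ≤ ∑ y ∈ H, (I.filter fun j => y ∈ B j).card := by
          simpa using card_nsmul_le_sum H _ r h
      _ = ∑ j ∈ I, b j := by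
          simp only [card_filter, hb]
          rw [sum_comm]
          refine sum_congr rfl fun j _ => ?_
          rw [← card_filter]
          congr 1
          ext y
          simp [and_comm]
  set I' := I.filter fun j => r * H.card ≤ 2 * I.card * b j with hI'
  have h2 : H.card * r ≤ 2 * ∑ j ∈ I', b j := by
    have h3 := sum_filter_add_sum_filter_not I (fun j => r * H.card ≤ 2 * I.card * b j) b
    have h4 : 2 * I.card * ∑ j ∈ I.filter (fun j => ¬ r * H.card ≤ 2 * I.card * b j), b j ≤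
        I.card * (r * H.card) := by
      rw [mul_sum]
      refine (sum_le_card_nsmul _ _ (r * H.card) fun j hj => (not_le.1 (mem_filter.1 hj).2).le).trans ?_
      exact Nat.mul_le_mul_right _ (card_filter_le _ _)
    have h5 : 2 * ∑ j ∈ I.filter (fun j => ¬ r * H.card ≤ 2 * I.card * b j), b j ≤ r * H.card :=
      Nat.le_of_mul_le_mul_left (c := I.card) (by nlinarith) (by omega)
    rw [← hI'] at h3
    nlinarith
  let lev : ι → ℕ := fun j => sInf {u | H.card ≤ b j * 2 ^ u}
  have hlev : ∀ j ∈ I', H.card ≤ b j * 2 ^ lev j ∧ b j * 2 ^ lev j ≤ 2 * H.card ∧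
      2 ^ lev j * r ≤ 4 * I.card ∧ lev j < D + 2 := by
    intro j hj
    have hj2 := (mem_filter.1 hj).2
    have hbj : 0 < b j := by
      by_contra h0
      have : b j = 0 := by omega
      rw [this] at hj2
      have := Nat.mul_pos hr hH0
      omega
    have e1 : H.card ≤ b j * 2 ^ lev j := Nat.sInf_mem (s := {u | H.card ≤ b j * 2 ^ u})
      ⟨H.card, by
        have : H.card < 2 ^ H.card := Nat.lt_two_pow_self
        show H.card ≤ b j * 2 ^ H.card
        nlinarith⟩
    have e2 : b j * 2 ^ lev j ≤ 2 * H.card ∧ 2 ^ lev j * r ≤ 4 * I.card := by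
      rcases hl : lev j with _ | u
      · have : b j ≤ H.card := card_le_card inter_subset_right
        omega
      · have e3 : ¬ H.card ≤ b j * 2 ^ u :=
          Nat.notMem_of_lt_sInf (s := {u | H.card ≤ b j * 2 ^ u}) (by show u < lev j; omega)
        rw [pow_succ]
        refine ⟨by nlinarith, ?_⟩
        have e4 : b j * (2 ^ u * r) ≤ b j * (2 * I.card) := by nlinarith
        have := Nat.le_of_mul_le_mul_left e4 hbj
        nlinarith
    refine ⟨e1, e2.1, e2.2, ?_⟩
    have e5 : 2 ^ lev j < 2 ^ (D + 2) := by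
      rw [pow_add]
      nlinarith [e2.2]
    exact (Nat.pow_lt_pow_iff_right (by norm_num)).1 e5
  obtain ⟨u, hu, hm⟩ := exists_max_image (range (D + 2))
    (fun u => ∑ j ∈ I'.filter (fun j => lev j = u), b j) ⟨0, by simp⟩
  have h6 : ∑ j ∈ I', b j ≤ (D + 2) * ∑ j ∈ I'.filter (fun j => lev j = u), b j := by
    rw [← sum_fiberwise_of_maps_to (t := range (D + 2)) (g := lev)
      fun j hj => mem_range.2 (hlev j hj).2.2.2]
    simpa using sum_le_card_nsmul _ _ _ hm
  have hne : (I'.filter fun j => lev j = u).Nonempty := by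
    by_contra h0
    rw [not_nonempty_iff_eq_empty.1 h0] at h6
    have := Nat.mul_pos hH0 hr
    simp only [sum_empty, mul_zero] at h6
    omega
  obtain ⟨j0, hj0⟩ := hne
  refine ⟨u, mem_range.1 hu, (mem_filter.1 hj0).2 ▸ (hlev j0 (mem_filter.1 hj0).1).2.2.1, ?_⟩
  have h7 : (∑ j ∈ I'.filter (fun j => lev j = u), b j) * 2 ^ u ≤
      (I.filter fun j => H.card ≤ b j * 2 ^ u).card * (2 * H.card) := by
    rw [sum_mul]
    refine (sum_le_card_nsmul _ _ (2 * H.card) fun j hj => ?_).trans ?_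
    · exact (mem_filter.1 hj).2 ▸ (hlev j (mem_filter.1 hj).1).2.1
    · refine Nat.mul_le_mul_right _ (card_le_card fun j hj => ?_)
      have := mem_filter.1 hj
      exact mem_filter.2 ⟨(mem_filter.1 this.1).1, this.2 ▸ (hlev j this.1).1⟩
  refine Nat.le_of_mul_le_mul_left (c := H.card) ?_ hH0
  calc H.card * (r * 2 ^ u) = H.card * r * 2 ^ u := by ring
    _ ≤ 2 * ((D + 2) * ∑ j ∈ I'.filter (fun j => lev j = u), b j) * 2 ^ u :=
      Nat.mul_le_mul_right _ (by omega)
    _ = 2 * (D + 2) * ((∑ j ∈ I'.filter (fun j => lev j = u), b j) * 2 ^ u) := by ring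
    _ ≤ 2 * (D + 2) * ((I.filter fun j => H.card ≤ b j * 2 ^ u).card * (2 * H.card)) :=
      Nat.mul_le_mul_left _ h7
    _ = _ := by ring

theorem greedy_cover (J : Finset ι) (B : ι → Finset ℕ) (H0 : Finset ℕ) (t n : ℕ) (ht : 0 < t)
    (hn : H0.card < 2 ^ n) (h : ∀ H ⊆ H0, H.Nonempty → ∃ j ∈ J, H.card ≤ (B j ∩ H).card * t) :
    ∃ C ⊆ J, C.card ≤ t * n ∧ ∀ y ∈ H0, ∃ j ∈ C, y ∈ B j := by
  have ht' : (0 : ℝ) < t := by exact_mod_cast ht
  have hx : (0 : ℝ) ≤ 1 - 1 / t := by
    rw [sub_nonneg, div_le_one ht']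
    exact_mod_cast ht
  have key : ∀ k : ℕ, ∃ C ⊆ J, C.card ≤ k ∧
      ((H0 \ C.biUnion B).card : ℝ) ≤ H0.card * (1 - 1 / t) ^ k := by
    intro k
    induction k with
    | zero => exact ⟨∅, by simp, by simp, by simp⟩
    | succ k ih =>
      obtain ⟨C, h1, h2, h3⟩ := ih
      rcases (H0 \ C.biUnion B).eq_empty_or_nonempty with h4 | h4
      · exact ⟨C, h1, by omega, by rw [h4]; simp only [card_empty, Nat.cast_zero]; positivity⟩
      · obtain ⟨j, hj, h5⟩ := h _ sdiff_subset h4
        refine ⟨insert j C, insert_subset hj h1, (card_insert_le _ _).trans (by omega), ?_⟩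
        have h6 : H0 \ (insert j C).biUnion B = (H0 \ C.biUnion B) \ B j := by
          ext y
          simp only [biUnion_insert, mem_sdiff, mem_union]
          tauto
        have h7 := card_sdiff_add_card_inter (H0 \ C.biUnion B) (B j)
        rw [inter_comm] at h7
        rw [h6, pow_succ, ← mul_assoc]
        refine le_trans ?_ (mul_le_mul_of_nonneg_right h3 hx)
        have h8 : ((H0 \ C.biUnion B).card : ℝ) ≤ (B j ∩ (H0 \ C.biUnion B)).card * t := by
          exact_mod_cast h5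
        have h9 : (((H0 \ C.biUnion B) \ B j).card : ℝ) + (B j ∩ (H0 \ C.biUnion B)).card =
          (H0 \ C.biUnion B).card := by exact_mod_cast h7
        rw [mul_sub, mul_one_div, le_sub_iff_add_le, mul_one]
        have := (div_le_iff₀ ht').2 h8
        linarith
  obtain ⟨C, h1, h2, h3⟩ := key (t * n)
  refine ⟨C, h1, h2, fun y hy => ?_⟩
  have h4 : (1 - 1 / t : ℝ) ^ (t * n) ≤ (1 / 2) ^ n := by
    rw [pow_mul]
    refine pow_le_pow_left₀ (by positivity) ?_ _
    refine (Real.one_sub_div_pow_le_exp_neg (n := t) (t := 1) (by exact_mod_cast ht)).trans ?_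
    rw [Real.exp_neg, one_div]
    exact inv_anti₀ (by norm_num) (by linarith [Real.add_one_le_exp 1])
  have h5 : ((H0 \ C.biUnion B).card : ℝ) < 1 := by
    refine h3.trans_lt ((mul_le_mul_of_nonneg_left h4 (by positivity)).trans_lt ?_)
    rw [one_div, inv_pow, ← div_eq_mul_inv, div_lt_one (by positivity)]
    exact_mod_cast hn
  have h6 : (H0 \ C.biUnion B).card = 0 := by
    have : (H0 \ C.biUnion B).card < 1 := by exact_mod_cast h5
    omega
  rw [card_eq_zero, sdiff_eq_empty_iff_subset] at h6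
  exact mem_biUnion.1 (h6 hy)

theorem static_cover (P : Finset ι) (B : ι → Finset ℕ) (n D r : ℕ) (hr : 0 < r)
    (hP : P.card < 2 ^ D) (hB : ∀ j ∈ P, ∀ y ∈ B j, y < 2 ^ n) :
    ∃ J ⊆ P, J.card * r ≤ P.card * (20 * (n + D + 2) ^ 4) ∧ ∀ I ⊆ P, ∃ C ⊆ J,
      C.card * r ≤ I.card * (20 * (n + D + 2) ^ 4) ∧
      ∀ y, r ≤ (I.filter fun j => y ∈ B j).card → ∃ j ∈ C, y ∈ B j := by
  classical
  by_cases hrP : P.card < r
  · refine ⟨∅, by simp, by simp, fun I hI => ⟨∅, by simp, by simp, fun y hy => ?_⟩⟩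
    have := (card_filter_le I fun j => y ∈ B j).trans (card_le_card hI)
    omega
  have hPne : P.Nonempty := card_pos.1 (by omega)
  set Q1 := 4 * (D + 2) * (2 * D * D * n + D + 2) with hQ1
  let G : (Σ u : ℕ, Fin D → Fin (2 ^ u * (2 * D)) → ℕ) → Finset ι :=
    fun w => P.filter fun j => ∀ a, ∃ s, w.2 a s ∈ B j
  let W0 : Finset (Σ u : ℕ, Fin D → Fin (2 ^ u * (2 * D)) → ℕ) :=
    (range (D + 2)).sigma fun u => Fintype.piFinset fun _ : Fin D =>
      Fintype.piFinset fun _ : Fin (2 ^ u * (2 * D)) => range (2 ^ n)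
  have hM : P.card * Q1 ≤ (P.card * Q1 / r + 1) * r := by
    have := Nat.lt_div_mul_add (a := P.card * Q1) hr
    nlinarith
  obtain ⟨J, hJ, hJc, hJh⟩ := hitting P hPne
    (W0.filter fun w => r * 2 ^ w.1 ≤ 4 * (D + 2) * (G w).card) G
    (fun w => n * (2 ^ w.1 * (2 * D)) * D + (D + 2)) (P.card * Q1 / r + 1)
    (fun w _ => filter_subset _ _) (fun w hw => by
      have h1 := (mem_filter.1 hw).2
      refine Nat.le_of_mul_le_mul_right ?_ hr
      have h2 : 0 < 2 ^ w.1 := by positivity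
      calc P.card * (n * (2 ^ w.1 * (2 * D)) * D + (D + 2)) * r
          ≤ P.card * (n * (2 ^ w.1 * (2 * D)) * D + 2 ^ w.1 * (D + 2)) * r := by
            gcongr
            exact Nat.le_mul_of_pos_left _ h2
        _ = P.card * (2 * D * D * n + D + 2) * (r * 2 ^ w.1) := by ring
        _ ≤ P.card * (2 * D * D * n + D + 2) * (4 * (D + 2) * (G w).card) := by gcongr
        _ = (G w).card * (P.card * Q1) := by rw [hQ1]; ring
        _ ≤ (G w).card * ((P.card * Q1 / r + 1) * r) := by gcongr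
        _ = _ := by ring)
    (by
      refine lt_of_le_of_lt (sum_le_sum_of_subset_of_nonneg (filter_subset _ _)
        fun _ _ _ => by positivity) ?_
      rw [sum_sigma]
      have : ∀ u ∈ range (D + 2), ∑ _s ∈ Fintype.piFinset fun _ : Fin D =>
          Fintype.piFinset fun _ : Fin (2 ^ u * (2 * D)) => range (2 ^ n),
          (1 / 2 : ℝ) ^ (n * (2 ^ u * (2 * D)) * D + (D + 2)) = (1 / 2) ^ (D + 2) := by
        intro u _
        rw [sum_const, Fintype.card_piFinset_const, Fintype.card_piFinset_const, card_range,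
          nsmul_eq_mul, ← pow_mul, ← pow_mul, pow_add, ← mul_assoc, mul_assoc n]
        push_cast
        rw [← mul_pow]
        norm_num
      rw [sum_congr rfl this, sum_const, card_range, nsmul_eq_mul, one_div, inv_pow,
        ← div_eq_mul_inv, div_lt_one (by positivity)]
      exact_mod_cast Nat.lt_two_pow_self)
  obtain ⟨Λ, hΛ⟩ : ∃ Λ, Λ = n + D + 2 := ⟨_, rfl⟩
  have hΛ1 : n + 1 ≤ Λ := by omega
  have hΛ2 : D + 2 ≤ Λ := by omega
  rw [← hΛ]
  refine ⟨J, hJ, ?_, fun I hI => ?_⟩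
  · have h1 : Q1 + 1 ≤ 20 * Λ ^ 4 := by
      have e1 : Q1 ≤ 4 * Λ * (2 * Λ * Λ * Λ + Λ) := by
        rw [hQ1, add_assoc]
        gcongr <;> omega
      have e2 : Λ ^ 2 ≤ Λ ^ 4 := Nat.pow_le_pow_right (by omega) (by norm_num)
      have e3 : 1 ≤ Λ ^ 4 := Nat.one_le_pow _ _ (by omega)
      nlinarith
    calc J.card * r ≤ (P.card * Q1 / r + 1) * r := by gcongr
      _ ≤ P.card * Q1 + P.card := by
        have := Nat.div_mul_le_self (P.card * Q1) r
        nlinarith
      _ = P.card * (Q1 + 1) := by ring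
      _ ≤ _ := by gcongr
  · by_cases hrI : I.card < r
    · refine ⟨∅, by simp, by simp, fun y hy => ?_⟩
      have := card_filter_le I fun j => y ∈ B j
      omega
    obtain ⟨C, hC, hCc, hCh⟩ := greedy_cover J B
      ((range (2 ^ n)).filter fun y => r ≤ (I.filter fun j => y ∈ B j).card)
      (16 * D * I.card / r + 1) (n + 1) (by positivity)
      ((card_filter_le _ _).trans_lt (by rw [card_range]; exact Nat.pow_lt_pow_right (by norm_num) (by omega)))
      (fun H hH hne => by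
        obtain ⟨u, hu, h1, h2⟩ := level I B D r hr ((card_le_card hI).trans_lt hP) H hne
          fun y hy => (mem_filter.1 (hH hy)).2
        obtain ⟨w, hw, h3⟩ := sampling P B D (2 ^ u) hP H hne
        obtain ⟨j, hj, h4⟩ := hJh ⟨u, w⟩ (mem_filter.2 ⟨mem_sigma.2 ⟨mem_range.2 hu,
          Fintype.mem_piFinset.2 fun a => Fintype.mem_piFinset.2 fun s =>
            (mem_filter.1 (hH (hw a s))).1⟩, h2.trans (Nat.mul_le_mul_left _ (card_le_card
              fun j hj => mem_filter.2 ⟨hI (mem_filter.1 hj).1,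
                (h3 j (hI (mem_filter.1 hj).1)).1 (mem_filter.1 hj).2⟩))⟩)
        refine ⟨j, hj, ((h3 j (hJ hj)).2 (mem_filter.1 h4).2).trans (Nat.mul_le_mul_left _ ?_)⟩
        refine le_trans ?_ (Nat.le_succ _)
        rw [Nat.le_div_iff_mul_le hr]
        nlinarith)
    refine ⟨C, hC, ?_, fun y hy => hCh y (mem_filter.2 ⟨?_, hy⟩)⟩
    · have e1 := Nat.div_mul_le_self (16 * D * I.card) r
      have e2 : Λ ^ 2 ≤ Λ ^ 4 := Nat.pow_le_pow_right (by omega) (by norm_num)
      calc C.card * r ≤ (16 * D * I.card / r + 1) * (n + 1) * r := by gcongr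
        _ = (16 * D * I.card / r * r + r) * (n + 1) := by ring
        _ ≤ (16 * D * I.card + I.card) * (n + 1) := by gcongr; omega
        _ = I.card * ((16 * D + 1) * (n + 1)) := by ring
        _ ≤ I.card * ((20 * Λ) * Λ) := by gcongr; omega
        _ ≤ _ := Nat.mul_le_mul_left _ (by nlinarith)
    · obtain ⟨j, hj⟩ := card_pos.1 (hr.trans_le hy)
      exact mem_range.2 (hB j (hI (mem_filter.1 hj).1) y (mem_filter.1 hj).2)

end Pool.Agent.Lib.MP_e57333_lc
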